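import Mathlib

set_option autoImplicit false

namespace Pool.Agent.Helper328.Beurling

open Polynomial

/-- `xi m = 2 ^ (1 / 2 ^ m)`. -/
noncomputable def xi (m : ℕ) : ℝ := (2 : ℝ) ^ ((1 : ℝ) / 2 ^ m)

lemma xi_zero : xi 0 = 2 := by simp [xi]

lemma xi_pos (m : ℕ) : 0 < xi m := by unfold xi; positivity

lemma xi_sq (m : ℕ) : xi (m + 1) ^ 2 = xi m := by
  unfold xi
  rw [← Real.rpow_natCast, ← Real.rpow_mul (by norm_num)]
  congr 1
  push_cast
  rw [pow_succ]
  field_simp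

lemma xi_pow (m : ℕ) : xi m ^ (2 ^ m) = 2 := by
  induction m with
  | zero => simp [xi_zero]
  | succ n ih =>
    rw [pow_succ' 2 n, pow_mul, xi_sq, ih]

lemma one_le_xi (m : ℕ) : 1 ≤ xi m := by
  unfold xi
  exact Real.one_le_rpow (by norm_num) (by positivity)

lemma xi_le_two (m : ℕ) : xi m ≤ 2 := by
  unfold xi
  calc (2 : ℝ) ^ ((1 : ℝ) / 2 ^ m) ≤ (2 : ℝ) ^ (1 : ℝ) := by
        apply Real.rpow_le_rpow_of_exponent_le (by norm_num)
        rw [div_le_one (by positivity)]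
        exact one_le_pow₀ (by norm_num)
    _ = 2 := by simp

/-- `T m x H`: the real `x` is an integer combination of powers of `xi m`, with weighted
absolute coefficient sum at most `H`. -/
def T : ℕ → ℝ → ℝ → Prop
  | 0, x, H => ∃ n : ℤ, x = n ∧ |x| ≤ H
  | (m + 1), x, H => ∃ A B HA HB : ℝ, T m A HA ∧ T m B HB ∧ x = A + xi (m + 1) * B ∧
      HA + xi (m + 1) * HB ≤ H

lemma T_abs : ∀ (m : ℕ) (x H : ℝ), T m x H → |x| ≤ H := by
  intro m
  induction m with
  | zero => rintro x H ⟨n, _, h⟩; exact h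
  | succ m ih =>
    rintro x H ⟨A, B, HA, HB, hA, hB, rfl, hH⟩
    have h1 := ih _ _ hA
    have h2 := ih _ _ hB
    calc |A + xi (m + 1) * B| ≤ |A| + |xi (m + 1) * B| := abs_add_le _ _
      _ = |A| + xi (m + 1) * |B| := by rw [abs_mul, abs_of_pos (xi_pos _)]
      _ ≤ HA + xi (m + 1) * HB := by
        have := mul_le_mul_of_nonneg_left h2 (xi_pos (m + 1)).le
        linarith
      _ ≤ H := hH

lemma T_nonneg {m : ℕ} {x H : ℝ} (h : T m x H) : 0 ≤ H := (abs_nonneg x).trans (T_abs m x H h)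

lemma T_mono : ∀ (m : ℕ) {x H H' : ℝ}, T m x H → H ≤ H' → T m x H' := by
  intro m
  cases m with
  | zero => rintro x H H' ⟨n, h1, h2⟩ h; exact ⟨n, h1, h2.trans h⟩
  | succ m => rintro x H H' ⟨A, B, HA, HB, hA, hB, h1, hH⟩ h
              exact ⟨A, B, HA, HB, hA, hB, h1, hH.trans h⟩

lemma T_int : ∀ (m : ℕ) (n : ℤ), T m (n : ℝ) |(n : ℝ)| := by
  intro m
  induction m with
  | zero => intro n; exact ⟨n, rfl, le_refl _⟩
  | succ m ih =>
    intro n
    have h0 := ih 0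
    simp only [Int.cast_zero, abs_zero] at h0
    exact ⟨n, 0, |(n : ℝ)|, 0, ih n, h0, by simp, by simp⟩

lemma T_zero (m : ℕ) : T m 0 0 := by
  have h0 := T_int m 0
  simpa using h0

lemma T_succ {m : ℕ} {x H : ℝ} (h : T m x H) : T (m + 1) x H :=
  ⟨x, 0, H, 0, h, T_zero m, by simp, by simp⟩

lemma T_add : ∀ (m : ℕ) {x y H K : ℝ}, T m x H → T m y K → T m (x + y) (H + K) := by
  intro m
  induction m with
  | zero =>
    rintro x y H K ⟨n, rfl, h1⟩ ⟨k, rfl, h2⟩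
    exact ⟨n + k, by push_cast; ring, (abs_add_le _ _).trans (add_le_add h1 h2)⟩
  | succ m ih =>
    rintro x y H K ⟨A, B, HA, HB, hA, hB, rfl, h1⟩ ⟨A', B', HA', HB', hA', hB', rfl, h2⟩
    exact ⟨A + A', B + B', HA + HA', HB + HB', ih hA hA', ih hB hB', by ring, by linarith⟩

lemma T_neg : ∀ (m : ℕ) {x H : ℝ}, T m x H → T m (-x) H := by
  intro m
  induction m with
  | zero =>
    rintro x H ⟨n, rfl, h1⟩
    exact ⟨-n, by push_cast; ring, by rwa [abs_neg]⟩
  | succ m ih =>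
    rintro x H ⟨A, B, HA, HB, hA, hB, rfl, h1⟩
    exact ⟨-A, -B, HA, HB, ih hA, ih hB, by ring, h1⟩

lemma T_xi : ∀ (m : ℕ), T m (xi m) (xi m) := by
  intro m
  cases m with
  | zero => exact ⟨2, by rw [xi_zero]; norm_num, by rw [abs_of_pos (xi_pos 0)]⟩
  | succ m =>
    have h1 := T_int m 1
    simp only [Int.cast_one, abs_one] at h1
    exact ⟨0, 1, 0, 1, T_zero m, h1, by ring, by linarith⟩

lemma T_mul : ∀ (m : ℕ) {x y H K : ℝ}, T m x H → T m y K → T m (x * y) (H * K) := by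
  intro m
  induction m with
  | zero =>
    rintro x y H K ⟨n, rfl, h1⟩ ⟨k, rfl, h2⟩
    refine ⟨n * k, by push_cast; ring, ?_⟩
    rw [abs_mul]
    exact mul_le_mul h1 h2 (abs_nonneg _) ((abs_nonneg _).trans h1)
  | succ m ih =>
    rintro x y H K ⟨A, B, HA, HB, hA, hB, rfl, h1⟩ ⟨A', B', HA', HB', hA', hB', rfl, h2⟩
    have hsq := xi_sq m
    refine ⟨A * A' + xi m * (B * B'), A * B' + B * A', HA * HA' + xi m * (HB * HB'),
      HA * HB' + HB * HA', T_add m (ih hA hA') (ih (T_xi m) (ih hB hB')),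
      T_add m (ih hA hB') (ih hB hA'), ?_, ?_⟩
    · rw [← hsq]; ring
    · have e1 : HA * HA' + xi m * (HB * HB') + xi (m + 1) * (HA * HB' + HB * HA')
          = (HA + xi (m + 1) * HB) * (HA' + xi (m + 1) * HB') := by rw [← hsq]; ring
      rw [e1]
      have p1 : 0 ≤ HA' + xi (m + 1) * HB' :=
        add_nonneg (T_nonneg hA') (mul_nonneg (xi_pos _).le (T_nonneg hB'))
      have p2 : 0 ≤ HA + xi (m + 1) * HB :=
        add_nonneg (T_nonneg hA) (mul_nonneg (xi_pos _).le (T_nonneg hB))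
      exact mul_le_mul h1 h2 p1 (p2.trans h1)

lemma T_poly : ∀ (m : ℕ) {x H : ℝ}, T m x H → ∃ p : ℤ[X], x = aeval (xi m) p := by
  intro m
  induction m with
  | zero =>
    rintro x H ⟨n, rfl, _⟩
    exact ⟨C n, by simp⟩
  | succ m ih =>
    rintro x H ⟨A, B, HA, HB, hA, hB, rfl, h1⟩
    obtain ⟨a, ha⟩ := ih hA
    obtain ⟨b, hb⟩ := ih hB
    refine ⟨expand ℤ 2 a + X * expand ℤ 2 b, ?_⟩
    rw [map_add, map_mul, aeval_X, expand_aeval, expand_aeval, xi_sq, ← ha, ← hb]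

lemma irred_int (n : ℕ) (hn : 0 < n) : Irreducible (X ^ n - C (2 : ℤ) : ℤ[X]) := by
  have hmon : (X ^ n - C (2 : ℤ) : ℤ[X]).Monic := monic_X_pow_sub_C 2 hn.ne'
  have hdeg : (X ^ n - C (2 : ℤ) : ℤ[X]).natDegree = n := natDegree_X_pow_sub_C
  have hprime : (Ideal.span {(2 : ℤ)}).IsPrime := by
    rw [Ideal.span_singleton_prime (by norm_num)]
    exact Int.prime_two
  refine IsEisensteinAt.irreducible (𝓟 := Ideal.span {(2 : ℤ)}) ?_ hprime hmon.isPrimitive
    (by rw [hdeg]; exact hn)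
  apply Monic.isEisensteinAt_of_mem_of_notMem hmon hprime.ne_top
  · intro k hk
    rw [hdeg] at hk
    rw [coeff_sub, coeff_X_pow, if_neg hk.ne, zero_sub, coeff_C]
    split_ifs
    · exact (Ideal.span {(2 : ℤ)}).neg_mem (Ideal.mem_span_singleton_self 2)
    · simp
  · rw [coeff_sub, coeff_X_pow, if_neg hn.ne, zero_sub, coeff_C_zero,
      Ideal.span_singleton_pow, Ideal.mem_span_singleton]
    norm_num

lemma irred_rat (n : ℕ) (hn : 0 < n) : Irreducible (X ^ n - C (2 : ℚ) : ℚ[X]) := by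
  have hmon : (X ^ n - C (2 : ℤ) : ℤ[X]).Monic := monic_X_pow_sub_C 2 hn.ne'
  have h := (hmon.irreducible_iff_irreducible_map_fraction_map (K := ℚ)).1 (irred_int n hn)
  have e : (X ^ n - C (2 : ℤ) : ℤ[X]).map (algebraMap ℤ ℚ) = X ^ n - C (2 : ℚ) := by
    rw [Polynomial.map_sub, Polynomial.map_pow, map_X, map_C]
    congr 2
  rwa [e] at h

lemma conj_zero (n : ℕ) (hn : 0 < n) (x y : ℝ) (hx : x ^ n = 2) (hy : y ^ n = 2) (q : ℤ[X])
    (h : aeval x q = 0) : aeval y q = 0 := by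
  have hmin : ∀ z : ℝ, z ^ n = 2 → (X ^ n - C (2 : ℚ) : ℚ[X]) = minpoly ℚ z := by
    intro z hz
    apply minpoly.eq_of_irreducible_of_monic (irred_rat n hn)
    · simp [hz]
    · exact monic_X_pow_sub_C 2 hn.ne'
  have h1 : aeval x (q.map (algebraMap ℤ ℚ)) = 0 := by
    rw [aeval_map_algebraMap]; exact h
  have h2 : minpoly ℚ x ∣ q.map (algebraMap ℤ ℚ) := minpoly.dvd ℚ x h1
  rw [← hmin x hx, hmin y hy] at h2
  obtain ⟨r, hr⟩ := h2
  have h3 : aeval y (q.map (algebraMap ℤ ℚ)) = 0 := by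
    rw [hr, map_mul, minpoly.aeval, zero_mul]
  rwa [aeval_map_algebraMap] at h3

/-- Linear independence of `1` and `xi (m+1)` over the ring generated by `xi m`. -/
lemma indep (m : ℕ) {A B HA HB : ℝ} (hA : T m A HA) (hB : T m B HB)
    (h : A + xi (m + 1) * B = 0) : A = 0 ∧ B = 0 := by
  obtain ⟨a, ha⟩ := T_poly m hA
  obtain ⟨b, hb⟩ := T_poly m hB
  have hx : xi (m + 1) ^ (2 ^ (m + 1)) = 2 := xi_pow (m + 1)
  have hy : (-xi (m + 1)) ^ (2 ^ (m + 1)) = 2 := by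
    rw [pow_succ' 2 m, pow_mul, neg_sq, xi_sq, xi_pow]
  have h1 : aeval (xi (m + 1)) (expand ℤ 2 a + X * expand ℤ 2 b) = 0 := by
    rw [map_add, map_mul, aeval_X, expand_aeval, expand_aeval, xi_sq, ← ha, ← hb]
    exact h
  have h2 := conj_zero (2 ^ (m + 1)) (by positivity) _ _ hx hy _ h1
  rw [map_add, map_mul, aeval_X, expand_aeval, expand_aeval, neg_sq, xi_sq, ← ha, ← hb] at h2
  have hA0 : A = 0 := by linarith
  have hp := xi_pos (m + 1)
  have hB0 : xi (m + 1) * B = 0 := by linarith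
  exact ⟨hA0, (mul_eq_zero.1 hB0).resolve_left hp.ne'⟩

/-- Liouville type lower bound. -/
lemma norm_lb : ∀ (m : ℕ) {x H : ℝ}, T m x H → x ≠ 0 → 1 ≤ |x| * H ^ (2 ^ m - 1) := by
  intro m
  induction m with
  | zero =>
    rintro x H ⟨n, rfl, h1⟩ hx
    have hn : n ≠ 0 := by rintro rfl; simp at hx
    have : (1 : ℤ) ≤ |n| := Int.one_le_abs hn
    have h2 : (1 : ℝ) ≤ |(n : ℝ)| := by exact_mod_cast this
    simpa using h2
  | succ m ih =>
    rintro x H hT hx
    obtain ⟨A, B, HA, HB, hA, hB, hxe, hH⟩ := id hT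
    have hxH : |x| ≤ H := T_abs _ _ _ hT
    have hHA := T_nonneg hA
    have hHB := T_nonneg hB
    have hxi := xi_pos (m + 1)
    have hxim := xi_pos m
    have hsq := xi_sq m
    set x' := A - xi (m + 1) * B with hx'
    have hx'H : |x'| ≤ H := by
      have : T (m + 1) x' H := ⟨A, -B, HA, HB, hA, T_neg m hB, by rw [hx']; ring, hH⟩
      exact T_abs _ _ _ this
    have hx'0 : x' ≠ 0 := by
      intro h0
      have h3 : A + xi (m + 1) * (-B) = 0 := by rw [← h0, hx']; ring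
      obtain ⟨hA0, hB0⟩ := indep m hA (T_neg m hB) h3
      apply hx
      rw [hxe, hA0, neg_eq_zero.1 hB0]
      ring
    have hN : T m (A * A + xi m * (-(B * B))) (HA * HA + xi m * (HB * HB)) :=
      T_add m (T_mul m hA hA) (T_mul m (T_xi m) (T_neg m (T_mul m hB hB)))
    have hNe : A * A + xi m * (-(B * B)) = x * x' := by
      rw [hxe, hx', ← hsq]; ring
    have hN0 : A * A + xi m * (-(B * B)) ≠ 0 := by
      rw [hNe]; exact mul_ne_zero hx hx'0
    have h4 := ih hN hN0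
    rw [hNe, abs_mul] at h4
    have hH0 : 0 ≤ H := T_nonneg hT
    have h5 : HA * HA + xi m * (HB * HB) ≤ H ^ 2 := by
      have e1 : HA * HA + xi m * (HB * HB) ≤ (HA + xi (m + 1) * HB) ^ 2 := by
        rw [← hsq]
        have : 0 ≤ HA * (xi (m + 1) * HB) := mul_nonneg hHA (mul_nonneg hxi.le hHB)
        nlinarith
      have e2 : (HA + xi (m + 1) * HB) ^ 2 ≤ H ^ 2 := by
        apply pow_le_pow_left₀ (add_nonneg hHA (mul_nonneg hxi.le hHB)) hH
      exact e1.trans e2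
    have h6 : (HA * HA + xi m * (HB * HB)) ^ (2 ^ m - 1) ≤ (H ^ 2) ^ (2 ^ m - 1) := by
      apply pow_le_pow_left₀ _ h5
      positivity
    have e3 : 2 ^ (m + 1) - 1 = 1 + 2 * (2 ^ m - 1) := by
      have : 1 ≤ 2 ^ m := Nat.one_le_two_pow
      rw [pow_succ]
      omega
    calc (1 : ℝ) ≤ |x| * |x'| * (HA * HA + xi m * (HB * HB)) ^ (2 ^ m - 1) := h4
      _ ≤ |x| * H * (H ^ 2) ^ (2 ^ m - 1) := by
        apply mul_le_mul _ h6 (by positivity) (by positivity)
        exact mul_le_mul_of_nonneg_left hx'H (abs_nonneg _)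
      _ = |x| * H ^ (2 ^ (m + 1) - 1) := by
        rw [e3, pow_add, pow_mul, pow_one]; ring

end Pool.Agent.Helper328.Beurling
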