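import Mathlib
import Pool.Agent.Helper328.BeurlingAlg

set_option autoImplicit false

namespace Pool.Agent.Helper328.Beurling

/-- The base `13/5`. -/
noncomputable def al : ℝ := 13 / 5

lemma al_pos : 0 < al := by norm_num [al]
lemma one_lt_al : 1 < al := by norm_num [al]

/-- exponents -/
noncomputable def lam : ℕ → ℝ
  | 0 => 1
  | 1 => xi 1
  | 2 => xi 1 * xi 2
  | (n + 3) => 4 ^ (n + 6) * xi (n + 3)

/-- cofactor: `lam (m+1) = xi (m+1) * cof m`. -/
noncomputable def cof : ℕ → ℝ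
  | 0 => 1
  | 1 => xi 1
  | (n + 2) => 4 ^ (n + 6)

lemma lam_succ (m : ℕ) : lam (m + 1) = xi (m + 1) * cof m := by
  match m with
  | 0 => simp [lam, cof]
  | 1 => simp [lam, cof, mul_comm]
  | (n + 2) => simp only [lam, cof]; ring

lemma cof_pos (m : ℕ) : 0 < cof m := by
  match m with
  | 0 => simp [cof]
  | 1 => simpa [cof] using xi_pos 1
  | (n + 2) => simp only [cof]; positivity

lemma T_one (m : ℕ) : T m 1 1 := by
  have := T_int m 1
  simpa using this

lemma T_nat (m : ℕ) (n : ℕ) : T m n n := by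
  have := T_int m n
  simpa using this

lemma cof_T (m : ℕ) : T m (cof m) (cof m) := by
  match m with
  | 0 => simpa [cof] using T_one 0
  | 1 => simpa [cof] using T_xi 1
  | (n + 2) =>
    have := T_nat (n + 2) (4 ^ (n + 6))
    simpa [cof] using this

lemma lam_T_self (m : ℕ) : T m (lam m) (lam m) := by
  cases m with
  | zero => simpa [lam] using T_one 0
  | succ m =>
    rw [lam_succ]
    exact T_mul (m + 1) (T_xi (m + 1)) (T_succ (cof_T m))

lemma lam_T (i d : ℕ) : T (i + d) (lam i) (lam i) := by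
  induction d with
  | zero => exact lam_T_self i
  | succ d ih => exact T_succ ih

lemma lam_T' {i m : ℕ} (h : i ≤ m) : T m (lam i) (lam i) := by
  obtain ⟨d, rfl⟩ := Nat.exists_eq_add_of_le h
  exact lam_T i d

lemma lam_pos (m : ℕ) : 0 < lam m := by
  cases m with
  | zero => simp [lam]
  | succ m => rw [lam_succ]; exact mul_pos (xi_pos _) (cof_pos _)

/-- signed and absolute combination -/
lemma comb_T (m : ℕ) (v : ℕ → ℤ) (n : ℕ) (hn : n ≤ m + 1) :
    T m (∑ i ∈ Finset.range n, (v i : ℝ) * lam i) (∑ i ∈ Finset.range n, |(v i : ℝ)| * lam i) := by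
  induction n with
  | zero => simpa using T_zero m
  | succ n ih =>
    rw [Finset.sum_range_succ, Finset.sum_range_succ]
    exact T_add m (ih (by omega)) (T_mul m (T_int m (v n)) (lam_T' (by omega)))

lemma comb_ne (m : ℕ) (v : ℕ → ℤ) (hv : v m ≠ 0) :
    ∑ i ∈ Finset.range (m + 1), (v i : ℝ) * lam i ≠ 0 := by
  cases m with
  | zero =>
    simp only [zero_add, Finset.range_one, Finset.sum_singleton]
    exact mul_ne_zero (by exact_mod_cast hv) (lam_pos 0).ne'
  | succ m =>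
    intro h
    rw [Finset.sum_range_succ, lam_succ] at h
    have h1 := comb_T m v (m + 1) (le_refl _)
    have h2 := T_mul m (T_int m (v (m + 1))) (cof_T m)
    have h3 : ∑ i ∈ Finset.range (m + 1), (v i : ℝ) * lam i +
        xi (m + 1) * ((v (m + 1) : ℝ) * cof m) = 0 := by
      rw [← h]; ring
    have h4 := (indep m h1 h2 h3).2
    rcases mul_eq_zero.1 h4 with h5 | h5
    · exact hv (by exact_mod_cast h5)
    · exact (cof_pos m).ne' h5

lemma comb_lb (m : ℕ) (v : ℕ → ℤ) (hv : v m ≠ 0) :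
    1 ≤ |∑ i ∈ Finset.range (m + 1), (v i : ℝ) * lam i| *
      (∑ i ∈ Finset.range (m + 1), |(v i : ℝ)| * lam i) ^ (2 ^ m - 1) :=
  norm_lb m (comb_T m v (m + 1) (le_refl _)) (comb_ne m v hv)

lemma log_al : 8 / 13 ≤ Real.log al := by
  have h := Real.one_sub_inv_le_log_of_pos al_pos
  have e : (1 : ℝ) - al⁻¹ = 8 / 13 := by norm_num [al]
  rwa [e] at h

lemma al_rpow_ge (s : ℝ) (hs : 0 ≤ s) : 1 + 8 / 13 * s ≤ al ^ s := by
  rw [Real.rpow_def_of_pos al_pos]
  have h1 := Real.add_one_le_exp (Real.log al * s)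
  have h2 : 8 / 13 * s ≤ Real.log al * s := mul_le_mul_of_nonneg_right log_al hs
  linarith

lemma sep (X Y E : ℝ) (hX : 1 ≤ X) (hYX : Y < X) (h : 1 ≤ (X - Y) * E)
    (hbig : E ≤ al ^ (X - 1) * (8 / 13)) : 1 ≤ al ^ X - al ^ Y := by
  have hX1 : 1 ≤ al ^ (X - 1) := Real.one_le_rpow one_lt_al.le (by linarith)
  have e1 : al ^ X = al ^ (X - 1) * al := by
    rw [← Real.rpow_add_one al_pos.ne']; congr 1; ring
  by_cases hc : 1 ≤ X - Y
  · have h1 : al ^ Y ≤ al ^ (X - 1) :=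
      Real.rpow_le_rpow_of_exponent_le one_lt_al.le (by linarith)
    have h2 : al ^ (X - 1) * al = al ^ (X - 1) + al ^ (X - 1) * (8 / 5) := by
      simp only [al]; ring
    rw [e1, h2]
    nlinarith
  · push Not at hc
    have h1 : al ^ (X - 1) ≤ al ^ Y :=
      Real.rpow_le_rpow_of_exponent_le one_lt_al.le (by linarith)
    have h2 := al_rpow_ge (X - Y) (by linarith)
    have e2 : al ^ X = al ^ Y * al ^ (X - Y) := by
      rw [← Real.rpow_add al_pos]; congr 1; ring
    have hd : 0 < X - Y := by linarith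
    have h3 : al ^ (X - 1) * (8 / 13 * (X - Y)) ≤ al ^ Y * (al ^ (X - Y) - 1) := by
      apply mul_le_mul h1 (by linarith) (by positivity)
      exact (Real.rpow_pos_of_pos al_pos _).le
    have h4 : (X - Y) * E ≤ (X - Y) * (al ^ (X - 1) * (8 / 13)) :=
      mul_le_mul_of_nonneg_left hbig hd.le
    rw [e2]
    nlinarith

lemma growth_small (X : ℝ) (hX : 12 ≤ X) : (2 * X) ^ 3 ≤ al ^ (X - 1) * (8 / 13) := by
  have e1 : al ^ (X - 1) = al ^ (11 : ℕ) * (al ^ ((X - 12) / 3)) ^ (3 : ℕ) := by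
    rw [← Real.rpow_natCast, ← Real.rpow_natCast, ← Real.rpow_mul al_pos.le,
      ← Real.rpow_add al_pos]
    congr 1
    push_cast
    ring
  have h1 := al_rpow_ge ((X - 12) / 3) (by linarith)
  have h2 : X / 12 ≤ al ^ ((X - 12) / 3) := by linarith
  have h3 : (X / 12) ^ 3 ≤ (al ^ ((X - 12) / 3)) ^ 3 :=
    pow_le_pow_left₀ (by linarith) h2 3
  have h4 : (22464 : ℝ) ≤ al ^ 11 := by norm_num [al]
  rw [e1]
  have h5 : 22464 * (X / 12) ^ 3 ≤ al ^ 11 * (al ^ ((X - 12) / 3)) ^ 3 := by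
    apply mul_le_mul h4 h3 (by positivity) (by positivity)
  have h6 : (2 * X) ^ 3 ≤ 22464 * (X / 12) ^ 3 * (8 / 13) := by
    have : 0 ≤ X ^ 3 := by positivity
    nlinarith
  linarith

lemma growth_big (D : ℕ) (hD : 8 ≤ D) (X : ℝ) (hX : 64 * (D : ℝ) ^ 2 ≤ X) :
    (2 * X) ^ (D - 1) ≤ al ^ (X - 1) * (8 / 13) := by
  have hD' : (8 : ℝ) ≤ D := by exact_mod_cast hD
  have hD0 : (0 : ℝ) < D := by linarith
  set t := X / D with ht
  have hXt : X = D * t := by rw [ht]; field_simp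
  have hX0 : 0 < X := lt_of_lt_of_le (by positivity) hX
  have ht64 : 64 * (D : ℝ) ≤ t := by
    rw [ht, le_div_iff₀ hD0]; linarith [hX, sq (D : ℝ)]
  have ht0 : 0 < t := by linarith
  have h1 := al_rpow_ge (t / 2) (by linarith)
  have h2 : 4 * t / 13 ≤ al ^ (t / 2) := by linarith
  have h3 : (4 * t / 13) ^ 2 ≤ (al ^ (t / 2)) ^ 2 := pow_le_pow_left₀ (by positivity) h2 2
  have e1 : (al ^ (t / 2)) ^ (2 : ℕ) = al ^ t := by
    rw [← Real.rpow_natCast, ← Real.rpow_mul al_pos.le]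
    congr 1
    push_cast
    ring
  rw [e1] at h3
  have h4 : 2 * X ≤ al ^ t / 3 := by
    have : X ≤ t * t / 64 := by
      rw [hXt]
      nlinarith
    nlinarith
  have h5 : (2 * X) ^ (D - 1) ≤ (2 * X) ^ D := by
    apply pow_le_pow_right₀ _ (Nat.sub_le _ _)
    nlinarith
  have h6 : (2 * X) ^ D ≤ (al ^ t / 3) ^ D := pow_le_pow_left₀ (by positivity) h4 D
  have e2 : (al ^ t / 3) ^ D = al ^ X / 3 ^ D := by
    rw [div_pow, ← Real.rpow_natCast (al ^ t), ← Real.rpow_mul al_pos.le, hXt, mul_comm t]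
  have h7 : (3 : ℝ) ^ 8 ≤ 3 ^ D := pow_le_pow_right₀ (by norm_num) hD
  have hXp : 0 < al ^ X := Real.rpow_pos_of_pos al_pos _
  have h8 : al ^ X / 3 ^ D ≤ al ^ X / 3 ^ 8 := by
    apply div_le_div_of_nonneg_left hXp.le (by positivity) h7
  have e3 : al ^ (X - 1) * (8 / 13) = al ^ X * (40 / 169) := by
    rw [Real.rpow_sub_one al_pos.ne']
    simp only [al]
    ring
  rw [e3]
  calc (2 * X) ^ (D - 1) ≤ al ^ X / 3 ^ D := by rw [← e2]; exact h5.trans h6
    _ ≤ al ^ X / 3 ^ 8 := h8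
    _ ≤ al ^ X * (40 / 169) := by
      rw [div_eq_mul_inv]
      apply mul_le_mul_of_nonneg_left _ hXp.le
      norm_num

end Pool.Agent.Helper328.Beurling
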