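import Mathlib
import Pool.Agent.Helper328.BeurlingMain

set_option autoImplicit false

namespace Pool.Agent.Helper328.Beurling

/-- `al ^ lam i` -/
noncomputable def gen (i : ℕ) : ℝ := al ^ lam i

lemma gen_zero : gen 0 = 13 / 5 := by simp [gen, lam, al]

lemma lam1_lo : (41 : ℝ) / 29 ≤ lam 1 := by
  have h : lam 1 ^ 2 = 2 := by
    simp only [lam]; rw [xi_sq, xi_zero]
  have hp := lam_pos 1
  by_contra hc
  push Not at hc
  have : lam 1 ^ 2 < (41 / 29) ^ 2 := pow_lt_pow_left₀ hc hp.le (by norm_num)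
  rw [h] at this
  norm_num at this

lemma lam1_hi : lam 1 ≤ (99 : ℝ) / 70 := by
  have h : lam 1 ^ 2 = 2 := by
    simp only [lam]; rw [xi_sq, xi_zero]
  have hp := lam_pos 1
  by_contra hc
  push Not at hc
  have : (99 / 70 : ℝ) ^ 2 < lam 1 ^ 2 := pow_lt_pow_left₀ hc (by norm_num) (by norm_num)
  rw [h] at this
  norm_num at this

lemma lam2_pow : lam 2 ^ 4 = 8 := by
  simp only [lam]
  have h1 : xi 1 ^ 2 = 2 := by rw [xi_sq, xi_zero]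
  have h2 : xi 2 ^ 2 = xi 1 := xi_sq 1
  calc (xi 1 * xi 2) ^ 4 = (xi 1 ^ 2) ^ 2 * (xi 2 ^ 2) ^ 2 := by ring
    _ = 8 := by rw [h2, h1]; norm_num

lemma lam2_lo : (153 : ℝ) / 91 ≤ lam 2 := by
  have hp := lam_pos 2
  by_contra hc
  push Not at hc
  have : lam 2 ^ 4 < (153 / 91) ^ 4 := pow_lt_pow_left₀ hc hp.le (by norm_num)
  rw [lam2_pow] at this
  norm_num at this

lemma lam2_hi : lam 2 ≤ (37 : ℝ) / 22 := by
  have hp := lam_pos 2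
  by_contra hc
  push Not at hc
  have : (37 / 22 : ℝ) ^ 4 < lam 2 ^ 4 := pow_lt_pow_left₀ hc (by norm_num) (by norm_num)
  rw [lam2_pow] at this
  norm_num at this

lemma gen_lo (i p q : ℕ) (r : ℝ) (hq : 0 < q) (hl : (p : ℝ) / q ≤ lam i)
    (h : r ^ q ≤ al ^ p) : r ≤ gen i := by
  have hq' : (0 : ℝ) < q := by exact_mod_cast hq
  have h1 : al ^ ((p : ℝ) / q) ≤ gen i :=
    Real.rpow_le_rpow_of_exponent_le one_lt_al.le hl
  refine le_trans ?_ h1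
  have hpos : 0 < al ^ ((p : ℝ) / q) := Real.rpow_pos_of_pos al_pos _
  have h2 : (al ^ ((p : ℝ) / q)) ^ q = al ^ p := by
    rw [← Real.rpow_natCast, ← Real.rpow_mul al_pos.le, ← Real.rpow_natCast]
    congr 1
    field_simp
  by_contra hc
  push Not at hc
  have h3 := pow_lt_pow_left₀ hc hpos.le hq.ne'
  rw [h2] at h3
  linarith

lemma gen_hi (i p q : ℕ) (r : ℝ) (hr : 0 ≤ r) (hq : 0 < q) (hl : lam i ≤ (p : ℝ) / q)
    (h : al ^ p ≤ r ^ q) : gen i ≤ r := by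
  have hq' : (0 : ℝ) < q := by exact_mod_cast hq
  have h1 : gen i ≤ al ^ ((p : ℝ) / q) :=
    Real.rpow_le_rpow_of_exponent_le one_lt_al.le hl
  refine le_trans h1 ?_
  have h2 : (al ^ ((p : ℝ) / q)) ^ q = al ^ p := by
    rw [← Real.rpow_natCast, ← Real.rpow_mul al_pos.le, ← Real.rpow_natCast]
    congr 1
    field_simp
  by_contra hc
  push Not at hc
  have h3 := pow_lt_pow_left₀ hc hr hq.ne'
  rw [h2] at h3
  linarith

lemma gen1_lo : (3860 / 1000 : ℝ) ≤ gen 1 :=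
  gen_lo 1 41 29 _ (by norm_num) (by exact_mod_cast lam1_lo) (by norm_num [al])

lemma gen1_hi : gen 1 ≤ (3865 / 1000 : ℝ) :=
  gen_hi 1 99 70 _ (by norm_num) (by norm_num) (by exact_mod_cast lam1_hi) (by norm_num [al])

lemma gen2_lo : (4985 / 1000 : ℝ) ≤ gen 2 :=
  gen_lo 2 153 91 _ (by norm_num) (by exact_mod_cast lam2_lo) (by norm_num [al])

lemma gen2_hi : gen 2 ≤ (4990 / 1000 : ℝ) :=
  gen_hi 2 37 22 _ (by norm_num) (by norm_num) (by exact_mod_cast lam2_hi) (by norm_num [al])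

/-- Boolean check: with all quantities scaled by powers of `1000`. -/
def chk (p0 p1 : ℕ) (e : ℕ) (q0 q1 : ℕ) (f : ℕ) : Bool :=
  Nat.ble (q1 * 1000 ^ e + 1000 ^ (e + f)) (p0 * 1000 ^ f) ||
  Nat.ble (p1 * 1000 ^ f + 1000 ^ (e + f)) (q0 * 1000 ^ e)

lemma chk_sound (p0 p1 e q0 q1 f : ℕ) (x y : ℝ)
    (hx0 : (p0 : ℝ) / 1000 ^ e ≤ x) (hx1 : x ≤ (p1 : ℝ) / 1000 ^ e)
    (hy0 : (q0 : ℝ) / 1000 ^ f ≤ y) (hy1 : y ≤ (q1 : ℝ) / 1000 ^ f)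
    (h : chk p0 p1 e q0 q1 f = true) : 1 ≤ |x - y| := by
  have hE : (0 : ℝ) < 1000 ^ e := by positivity
  have hF : (0 : ℝ) < 1000 ^ f := by positivity
  unfold chk at h
  rw [Bool.or_eq_true] at h
  rcases h with h | h
  · have h1 := Nat.le_of_ble_eq_true h
    have h2 : (q1 : ℝ) * 1000 ^ e + 1000 ^ (e + f) ≤ p0 * 1000 ^ f := by exact_mod_cast h1
    have h3 : (q1 : ℝ) / 1000 ^ f + 1 ≤ (p0 : ℝ) / 1000 ^ e := by
      rw [div_add_one hF.ne', div_le_div_iff₀ hF hE]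
      rw [pow_add] at h2
      linarith
    rw [le_abs]; left; linarith
  · have h1 := Nat.le_of_ble_eq_true h
    have h2 : (p1 : ℝ) * 1000 ^ f + 1000 ^ (e + f) ≤ q0 * 1000 ^ e := by exact_mod_cast h1
    have h3 : (p1 : ℝ) / 1000 ^ e + 1 ≤ (q0 : ℝ) / 1000 ^ f := by
      rw [div_add_one hE.ne', div_le_div_iff₀ hE hF]
      rw [pow_add] at h2
      linarith
    rw [le_abs]; right; linarith

/-- full finite check -/
def allchk : Bool :=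
  (List.range 12).all fun i => (List.range 9).all fun j => (List.range 8).all fun k =>
    (i == 0 && j == 0 && k == 0) ||
    (chk (2600 ^ i * 3860 ^ j * 4985 ^ k) (2600 ^ i * 3865 ^ j * 4990 ^ k) (i + j + k) 1 1 0 &&
     chk (2600 ^ i) (2600 ^ i) i (3860 ^ j * 4985 ^ k) (3865 ^ j * 4990 ^ k) (j + k) &&
     chk (3860 ^ j) (3865 ^ j) j (2600 ^ i * 4985 ^ k) (2600 ^ i * 4990 ^ k) (i + k) &&
     chk (4985 ^ k) (4990 ^ k) k (2600 ^ i * 3860 ^ j) (2600 ^ i * 3865 ^ j) (i + j))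

lemma allchk_true : allchk = true := by decide +kernel

lemma allchk_spec (i j k : ℕ) (hi : i < 12) (hj : j < 9) (hk : k < 8)
    (h0 : ¬ (i = 0 ∧ j = 0 ∧ k = 0)) :
    chk (2600 ^ i * 3860 ^ j * 4985 ^ k) (2600 ^ i * 3865 ^ j * 4990 ^ k) (i + j + k) 1 1 0 = true ∧
    chk (2600 ^ i) (2600 ^ i) i (3860 ^ j * 4985 ^ k) (3865 ^ j * 4990 ^ k) (j + k) = true ∧
    chk (3860 ^ j) (3865 ^ j) j (2600 ^ i * 4985 ^ k) (2600 ^ i * 4990 ^ k) (i + k) = true ∧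
    chk (4985 ^ k) (4990 ^ k) k (2600 ^ i * 3860 ^ j) (2600 ^ i * 3865 ^ j) (i + j) = true := by
  have h := allchk_true
  unfold allchk at h
  rw [List.all_eq_true] at h
  have h1 := h i (List.mem_range.2 hi)
  rw [List.all_eq_true] at h1
  have h2 := h1 j (List.mem_range.2 hj)
  rw [List.all_eq_true] at h2
  have h3 := h2 k (List.mem_range.2 hk)
  rw [Bool.or_eq_true] at h3
  rcases h3 with h3 | h3
  · exfalso
    apply h0
    simpa [and_assoc] using h3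
  · simpa [Bool.and_eq_true, and_assoc] using h3

lemma bnd_pow {x : ℝ} (a b : ℕ) (n : ℕ) (h0 : (a : ℝ) / 1000 ≤ x) (h1 : x ≤ (b : ℝ) / 1000) :
    ((a ^ n : ℕ) : ℝ) / 1000 ^ n ≤ x ^ n ∧ x ^ n ≤ ((b ^ n : ℕ) : ℝ) / 1000 ^ n := by
  have ha : (0 : ℝ) ≤ (a : ℝ) / 1000 := by positivity
  have hx : 0 ≤ x := ha.trans h0
  constructor
  · have := pow_le_pow_left₀ ha h0 n
    rw [div_pow] at this
    push_cast
    exact this
  · have := pow_le_pow_left₀ hx h1 n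
    rw [div_pow] at this
    push_cast
    exact this

lemma bnd_mul {x y : ℝ} (a b c d e f : ℕ) (hx0 : (a : ℝ) / 1000 ^ e ≤ x)
    (hx1 : x ≤ (b : ℝ) / 1000 ^ e) (hy0 : (c : ℝ) / 1000 ^ f ≤ y) (hy1 : y ≤ (d : ℝ) / 1000 ^ f) :
    ((a * c : ℕ) : ℝ) / 1000 ^ (e + f) ≤ x * y ∧ x * y ≤ ((b * d : ℕ) : ℝ) / 1000 ^ (e + f) := by
  have ha : (0 : ℝ) ≤ (a : ℝ) / 1000 ^ e := by positivity
  have hc : (0 : ℝ) ≤ (c : ℝ) / 1000 ^ f := by positivity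
  have hb : (0 : ℝ) ≤ (b : ℝ) / 1000 ^ e := by positivity
  constructor
  · have := mul_le_mul hx0 hy0 hc (ha.trans hx0)
    push_cast
    rw [pow_add, ← div_mul_div_comm]
    exact this
  · have := mul_le_mul hx1 hy1 (hc.trans hy0) hb
    push_cast
    rw [pow_add, ← div_mul_div_comm]
    exact this

lemma fin_sep (i j k : ℕ) (hi : i < 12) (hj : j < 9) (hk : k < 8)
    (h0 : ¬ (i = 0 ∧ j = 0 ∧ k = 0)) :
    1 ≤ |gen 0 ^ i * gen 1 ^ j * gen 2 ^ k - 1| ∧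
    1 ≤ |gen 0 ^ i - gen 1 ^ j * gen 2 ^ k| ∧
    1 ≤ |gen 1 ^ j - gen 0 ^ i * gen 2 ^ k| ∧
    1 ≤ |gen 2 ^ k - gen 0 ^ i * gen 1 ^ j| := by
  obtain ⟨c0, c1, c2, c3⟩ := allchk_spec i j k hi hj hk h0
  have g0 : ((2600 : ℕ) : ℝ) / 1000 ≤ gen 0 := by rw [gen_zero]; norm_num
  have g0' : gen 0 ≤ ((2600 : ℕ) : ℝ) / 1000 := by rw [gen_zero]; norm_num
  have g1 : ((3860 : ℕ) : ℝ) / 1000 ≤ gen 1 := by exact_mod_cast gen1_lo
  have g1' : gen 1 ≤ ((3865 : ℕ) : ℝ) / 1000 := by exact_mod_cast gen1_hi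
  have g2 : ((4985 : ℕ) : ℝ) / 1000 ≤ gen 2 := by exact_mod_cast gen2_lo
  have g2' : gen 2 ≤ ((4990 : ℕ) : ℝ) / 1000 := by exact_mod_cast gen2_hi
  obtain ⟨a0, a1⟩ := bnd_pow 2600 2600 i g0 g0'
  obtain ⟨b0, b1⟩ := bnd_pow 3860 3865 j g1 g1'
  obtain ⟨d0, d1⟩ := bnd_pow 4985 4990 k g2 g2'
  obtain ⟨ab0, ab1⟩ := bnd_mul _ _ _ _ _ _ a0 a1 b0 b1
  obtain ⟨ad0, ad1⟩ := bnd_mul _ _ _ _ _ _ a0 a1 d0 d1
  obtain ⟨bd0, bd1⟩ := bnd_mul _ _ _ _ _ _ b0 b1 d0 d1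
  obtain ⟨abd0, abd1⟩ := bnd_mul _ _ _ _ _ _ ab0 ab1 d0 d1
  refine ⟨?_, ?_, ?_, ?_⟩
  · exact chk_sound _ _ _ 1 1 0 _ _ abd0 abd1 (by norm_num) (by norm_num) c0
  · exact chk_sound _ _ _ _ _ _ _ _ a0 a1 bd0 bd1 c1
  · exact chk_sound _ _ _ _ _ _ _ _ b0 b1 ad0 ad1 c2
  · exact chk_sound _ _ _ _ _ _ _ _ d0 d1 ab0 ab1 c3

end Pool.Agent.Helper328.Beurling
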