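import Mathlib
import Pool.Agent.Helper328.BeurlingFin

set_option autoImplicit false

namespace Pool.Agent.Helper328.Beurling

/-- truncated exponent sum -/
noncomputable def S (u : ℕ → ℕ) (n : ℕ) : ℝ := ∑ i ∈ Finset.range n, (u i : ℝ) * lam i

lemma S_nonneg (u : ℕ → ℕ) (n : ℕ) : 0 ≤ S u n :=
  Finset.sum_nonneg fun i _ => mul_nonneg (Nat.cast_nonneg _) (lam_pos i).le

lemma S_ge (u : ℕ → ℕ) (n i : ℕ) (hi : i < n) : (u i : ℝ) * lam i ≤ S u n :=
  Finset.single_le_sum (f := fun i => (u i : ℝ) * lam i)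
    (fun i _ => mul_nonneg (Nat.cast_nonneg _) (lam_pos i).le) (Finset.mem_range.2 hi)

lemma S_sub (u v : ℕ → ℕ) (n : ℕ) :
    ∑ i ∈ Finset.range n, (((u i : ℤ) - v i : ℤ) : ℝ) * lam i = S u n - S v n := by
  unfold S
  rw [← Finset.sum_sub_distrib]
  apply Finset.sum_congr rfl
  intro i _
  push_cast
  ring

lemma S_abs (u v : ℕ → ℕ) (n : ℕ) (hdis : ∀ i, u i = 0 ∨ v i = 0) :
    ∑ i ∈ Finset.range n, |(((u i : ℤ) - v i : ℤ) : ℝ)| * lam i = S u n + S v n := by
  unfold S
  rw [← Finset.sum_add_distrib]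
  apply Finset.sum_congr rfl
  intro i _
  rcases hdis i with h | h
  · simp [h]
  · simp [h]

lemma comb_ne' (n : ℕ) (v : ℕ → ℤ) (hv : ∃ i < n, v i ≠ 0) :
    ∑ i ∈ Finset.range n, (v i : ℝ) * lam i ≠ 0 := by
  induction n with
  | zero => obtain ⟨i, hi, _⟩ := hv; omega
  | succ n ih =>
    by_cases h : v n = 0
    · rw [Finset.sum_range_succ, h]
      simp only [Int.cast_zero, zero_mul, add_zero]
      apply ih
      obtain ⟨i, hi, hvi⟩ := hv
      refine ⟨i, ?_, hvi⟩
      have : i ≠ n := by rintro rfl; exact hvi h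
      omega
    · exact comb_ne n v h

lemma sep_big (m : ℕ) (hm : 3 ≤ m) (x y : ℝ) (hxy : y < x) (hy : 0 ≤ y)
    (hlb : 1 ≤ |x - y| * (x + y) ^ (2 ^ m - 1)) (hX : 64 * (((2 ^ m : ℕ) : ℝ)) ^ 2 ≤ x) :
    1 ≤ al ^ x - al ^ y := by
  have hD : 8 ≤ 2 ^ m := by
    calc 8 = 2 ^ 3 := by norm_num
      _ ≤ 2 ^ m := Nat.pow_le_pow_right (by norm_num) hm
  have hD' : (8 : ℝ) ≤ ((2 ^ m : ℕ) : ℝ) := by exact_mod_cast hD
  have hx1 : 1 ≤ x := by nlinarith
  apply sep x y ((2 * x) ^ (2 ^ m - 1)) hx1 hxy _ (growth_big (2 ^ m) hD x hX)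
  rw [abs_of_pos (by linarith)] at hlb
  refine hlb.trans ?_
  apply mul_le_mul_of_nonneg_left _ (by linarith)
  apply pow_le_pow_left₀ (by linarith)
  linarith

lemma sep_small (x y : ℝ) (hxy : y < x) (hy : 0 ≤ y)
    (hlb : 1 ≤ |x - y| * (x + y) ^ 3) (hX : 12 ≤ x) :
    1 ≤ al ^ x - al ^ y := by
  apply sep x y ((2 * x) ^ 3) (by linarith) hxy _ (growth_small x hX)
  rw [abs_of_pos (by linarith)] at hlb
  refine hlb.trans ?_
  apply mul_le_mul_of_nonneg_left _ (by linarith)
  apply pow_le_pow_left₀ (by linarith)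
  linarith

lemma lam_big (m : ℕ) (hm : 3 ≤ m) : 64 * (((2 ^ m : ℕ) : ℝ)) ^ 2 ≤ lam m := by
  obtain ⟨n, rfl⟩ : ∃ n, m = n + 3 := ⟨m - 3, by omega⟩
  simp only [lam]
  have h1 := one_le_xi (n + 3)
  have h2 : (0 : ℝ) < 4 ^ (n + 6) := by positivity
  have h3 : 64 * (((2 ^ (n + 3) : ℕ) : ℝ)) ^ 2 = 4 ^ (n + 6) := by
    push_cast
    rw [← pow_mul, mul_comm (n + 3) 2, pow_mul]
    norm_num
    rw [show n + 6 = (n + 3) + 3 from rfl, pow_add]
    norm_num
    ring
  rw [h3]
  nlinarith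

theorem core_big (m : ℕ) (hm : 3 ≤ m) (u v : ℕ → ℕ) (hdis : ∀ i, u i = 0 ∨ v i = 0)
    (hne : u m ≠ v m) : 1 ≤ |al ^ S u (m + 1) - al ^ S v (m + 1)| := by
  have hw : (u m : ℤ) - v m ≠ 0 := by omega
  have h1 := comb_lb m (fun i => (u i : ℤ) - v i) hw
  rw [S_sub, S_abs u v _ hdis] at h1
  have hsubne := comb_ne m (fun i => (u i : ℤ) - v i) hw
  rw [S_sub] at hsubne
  have hlam := lam_big m hm
  have hlp := lam_pos m
  have hun := S_nonneg u (m + 1)
  have hvn := S_nonneg v (m + 1)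
  have hmax : lam m ≤ S u (m + 1) ∨ lam m ≤ S v (m + 1) := by
    rcases hdis m with h | h
    · right
      have h2 := S_ge v (m + 1) m (by omega)
      have h3 : 1 ≤ v m := by omega
      have h3' : (1 : ℝ) ≤ v m := by exact_mod_cast h3
      nlinarith
    · left
      have h2 := S_ge u (m + 1) m (by omega)
      have h3 : 1 ≤ u m := by omega
      have h3' : (1 : ℝ) ≤ u m := by exact_mod_cast h3
      nlinarith
  rcases lt_or_gt_of_ne (sub_ne_zero.1 hsubne) with h | h
  · -- S u < S v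
    have h4 : 1 ≤ al ^ S v (m + 1) - al ^ S u (m + 1) := by
      apply sep_big m hm _ _ h hun
      · rw [abs_sub_comm, add_comm (S v (m + 1))]; exact h1
      · rcases hmax with h5 | h5 <;> linarith
    rw [abs_sub_comm]
    exact h4.trans (le_abs_self _)
  · have h4 : 1 ≤ al ^ S u (m + 1) - al ^ S v (m + 1) := by
      apply sep_big m hm _ _ h hvn h1
      rcases hmax with h5 | h5 <;> linarith
    exact h4.trans (le_abs_self _)

lemma al_S3 (u : ℕ → ℕ) : al ^ S u 3 = gen 0 ^ u 0 * gen 1 ^ u 1 * gen 2 ^ u 2 := by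
  unfold S gen
  rw [Finset.sum_range_succ, Finset.sum_range_succ, Finset.sum_range_one,
    Real.rpow_add al_pos, Real.rpow_add al_pos]
  simp only [← Real.rpow_natCast, ← Real.rpow_mul al_pos.le]
  simp only [mul_comm]

lemma S3_small (u : ℕ → ℕ) (h : S u 3 < 12) : u 0 < 12 ∧ u 1 < 9 ∧ u 2 < 8 := by
  have h0 := S_ge u 3 0 (by norm_num)
  have h1 := S_ge u 3 1 (by norm_num)
  have h2 := S_ge u 3 2 (by norm_num)
  have l1 := lam1_lo
  have l2 := lam2_lo
  have l0 : lam 0 = 1 := by simp [lam]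
  rw [l0] at h0
  refine ⟨?_, ?_, ?_⟩
  · by_contra hc
    push Not at hc
    have : (12 : ℝ) ≤ u 0 := by exact_mod_cast hc
    linarith
  · by_contra hc
    push Not at hc
    have : (9 : ℝ) ≤ u 1 := by exact_mod_cast hc
    nlinarith
  · by_contra hc
    push Not at hc
    have : (8 : ℝ) ≤ u 2 := by exact_mod_cast hc
    nlinarith

theorem core_small (u v : ℕ → ℕ) (hdis : ∀ i, u i = 0 ∨ v i = 0)
    (hne : ∃ i < 3, u i ≠ v i) : 1 ≤ |al ^ S u 3 - al ^ S v 3| := by
  have hw : ∃ i < 3, (fun i => (u i : ℤ) - v i) i ≠ 0 := by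
    obtain ⟨i, hi, h⟩ := hne
    exact ⟨i, hi, by simp only; omega⟩
  have hT := comb_T 2 (fun i => (u i : ℤ) - v i) 3 (le_refl _)
  have hsubne := comb_ne' 3 (fun i => (u i : ℤ) - v i) hw
  have h1 := norm_lb 2 hT hsubne
  rw [S_sub, S_abs u v _ hdis] at h1
  rw [S_sub] at hsubne
  have h1' : 1 ≤ |S u 3 - S v 3| * (S u 3 + S v 3) ^ 3 := by simpa using h1
  have hun := S_nonneg u 3
  have hvn := S_nonneg v 3
  by_cases hbig : 12 ≤ S u 3 ∨ 12 ≤ S v 3
  · rcases lt_or_gt_of_ne (sub_ne_zero.1 hsubne) with h | h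
    · have h4 : 1 ≤ al ^ S v 3 - al ^ S u 3 := by
        apply sep_small _ _ h hun
        · rw [abs_sub_comm, add_comm (S v 3)]; exact h1'
        · rcases hbig with h5 | h5 <;> linarith
      rw [abs_sub_comm]
      exact h4.trans (le_abs_self _)
    · have h4 : 1 ≤ al ^ S u 3 - al ^ S v 3 := by
        apply sep_small _ _ h hvn h1'
        rcases hbig with h5 | h5 <;> linarith
      exact h4.trans (le_abs_self _)
  · push Not at hbig
    obtain ⟨hu, hv⟩ := hbig
    obtain ⟨u0, u1, u2⟩ := S3_small u hu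
    obtain ⟨v0, v1, v2⟩ := S3_small v hv
    have hd0 := hdis 0
    have hd1 := hdis 1
    have hd2 := hdis 2
    have hnn : ¬ (u 0 + v 0 = 0 ∧ u 1 + v 1 = 0 ∧ u 2 + v 2 = 0) := by
      rintro ⟨a, b, c⟩
      obtain ⟨i, hi, h⟩ := hne
      interval_cases i <;> omega
    obtain ⟨f0, f1, f2, f3⟩ := fin_sep (u 0 + v 0) (u 1 + v 1) (u 2 + v 2)
      (by omega) (by omega) (by omega) hnn
    rw [al_S3, al_S3]
    rcases hd0 with h0 | h0 <;> rcases hd1 with h1 | h1 <;> rcases hd2 with h2 | h2 <;>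
      simp only [h0, h1, h2, zero_add, add_zero, pow_zero, one_mul, mul_one] at f0 f1 f2 f3 ⊢
    · rw [abs_sub_comm]; exact f0
    · rw [abs_sub_comm, abs_sub_comm] ; exact f3
    · exact f2
    · rw [abs_sub_comm]; exact f1
    · exact f1
    · rw [abs_sub_comm]; exact f2
    · rw [abs_sub_comm]; exact f3
    · exact f0

lemma prod_eq (k : ℕ →₀ ℕ) (N : ℕ) (hk : k.support ⊆ Finset.range N) :
    k.prod (fun i e => gen i ^ e) = al ^ S k N := by
  rw [Finsupp.prod_of_support_subset k hk _ (fun i _ => pow_zero _)]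
  unfold S
  rw [Real.rpow_sum_of_pos al_pos]
  apply Finset.prod_congr rfl
  intro i _
  unfold gen
  rw [← Real.rpow_natCast, ← Real.rpow_mul al_pos.le, mul_comm]

lemma S_split (k l : ℕ → ℕ) (N : ℕ) :
    S k N = S (fun i => min (k i) (l i)) N + S (fun i => k i - l i) N := by
  unfold S
  rw [← Finset.sum_add_distrib]
  apply Finset.sum_congr rfl
  intro i _
  have : k i = min (k i) (l i) + (k i - l i) := by omega
  rw [← add_mul]
  congr 1
  exact_mod_cast this

lemma S_trunc (u : ℕ → ℕ) (M N : ℕ) (h : M ≤ N) (hu : ∀ i, M ≤ i → u i = 0) :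
    S u N = S u M := by
  unfold S
  symm
  apply Finset.sum_subset (Finset.range_mono h)
  intro i _ hi
  rw [Finset.mem_range, not_lt] at hi
  rw [hu i hi]
  simp

theorem sep_all (k l : ℕ →₀ ℕ) (hkl : k ≠ l) :
    1 ≤ |k.prod (fun i e => gen i ^ e) - l.prod (fun i e => gen i ^ e)| := by
  obtain ⟨N, hN3, hkN, hlN⟩ : ∃ N : ℕ, 3 ≤ N ∧ k.support ⊆ Finset.range N ∧
      l.support ⊆ Finset.range N := by
    refine ⟨max 3 ((k.support ∪ l.support).sup id + 1), le_max_left _ _, ?_, ?_⟩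
    · intro i hi
      have h1 : id i ≤ (k.support ∪ l.support).sup id :=
        Finset.le_sup (f := id) (Finset.mem_union_left _ hi)
      rw [Finset.mem_range]
      simp only [id] at h1
      omega
    · intro i hi
      have h1 : id i ≤ (k.support ∪ l.support).sup id :=
        Finset.le_sup (f := id) (Finset.mem_union_right _ hi)
      rw [Finset.mem_range]
      simp only [id] at h1
      omega
  rw [prod_eq k N hkN, prod_eq l N hlN, S_split k l N, S_split l k N]
  have hmin : S (fun i => min (l i) (k i)) N = S (fun i => min (k i) (l i)) N := by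
    unfold S
    apply Finset.sum_congr rfl
    intro i _
    simp only [min_comm]
  rw [hmin]
  set c := S (fun i => min (k i) (l i)) N with hc
  have hc0 : 0 ≤ c := S_nonneg _ _
  rw [Real.rpow_add al_pos, Real.rpow_add al_pos, ← mul_sub, abs_mul,
    abs_of_pos (Real.rpow_pos_of_pos al_pos c)]
  have hc1 : 1 ≤ al ^ c := Real.one_le_rpow one_lt_al.le hc0
  -- largest index of difference
  have hkout : ∀ i, N ≤ i → k i = 0 := by
    intro i hi
    by_contra h
    have := hkN (Finsupp.mem_support_iff.2 h)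
    rw [Finset.mem_range] at this
    omega
  have hlout : ∀ i, N ≤ i → l i = 0 := by
    intro i hi
    by_contra h
    have := hlN (Finsupp.mem_support_iff.2 h)
    rw [Finset.mem_range] at this
    omega
  have hdis : ∀ i, k i - l i = 0 ∨ l i - k i = 0 := fun i => by omega
  suffices h : 1 ≤ |al ^ S (fun i => k i - l i) N - al ^ S (fun i => l i - k i) N| by
    nlinarith
  by_cases hbig : ∃ m, 3 ≤ m ∧ m < N ∧ k m ≠ l m
  · -- take the largest such m
    have hne : ((Finset.range N).filter (fun m => 3 ≤ m ∧ k m ≠ l m)).Nonempty := by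
      obtain ⟨m, h3, hm, h⟩ := hbig
      exact ⟨m, by simp [h3, hm, h]⟩
    obtain ⟨m, hmem, hmax⟩ : ∃ m ∈ (Finset.range N).filter (fun m => 3 ≤ m ∧ k m ≠ l m),
        ∀ j ∈ (Finset.range N).filter (fun m => 3 ≤ m ∧ k m ≠ l m), j ≤ m :=
      ⟨_, Finset.max'_mem _ hne, fun j hj => Finset.le_max' _ j hj⟩
    rw [Finset.mem_filter, Finset.mem_range] at hmem
    obtain ⟨hmN, hm3, hmne⟩ := hmem
    have hafter : ∀ i, m + 1 ≤ i → k i = l i := by
      intro i hi
      by_contra hne'
      by_cases hiN : i < N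
      · have := hmax i (by
          rw [Finset.mem_filter, Finset.mem_range]
          exact ⟨hiN, by omega, hne'⟩)
        omega
      · apply hne'
        rw [hkout i (by omega), hlout i (by omega)]
    rw [S_trunc (fun i => k i - l i) (m + 1) N (by omega)
        (fun i hi => by rw [hafter i hi]; omega),
      S_trunc (fun i => l i - k i) (m + 1) N (by omega)
        (fun i hi => by rw [hafter i hi]; omega)]
    exact core_big m hm3 _ _ hdis (by omega)
  · push Not at hbig
    have hafter : ∀ i, 3 ≤ i → k i = l i := by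
      intro i hi
      by_cases hiN : i < N
      · exact hbig i hi hiN
      · rw [hkout i (by omega), hlout i (by omega)]
    rw [S_trunc (fun i => k i - l i) 3 N hN3
        (fun i hi => by rw [hafter i hi]; omega),
      S_trunc (fun i => l i - k i) 3 N hN3
        (fun i hi => by rw [hafter i hi]; omega)]
    apply core_small _ _ hdis
    by_contra hcon
    push Not at hcon
    apply hkl
    ext i
    by_cases hi : i < 3
    · have := hcon i hi
      omega
    · exact hafter i (by omega)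

lemma lam_strictMono : StrictMono lam := by
  apply strictMono_nat_of_lt_succ
  intro n
  have hx1 : xi 1 ^ 2 = 2 := by rw [xi_sq, xi_zero]
  have hx2 : xi 2 ^ 2 = xi 1 := xi_sq 1
  have p1 := xi_pos 1
  have p2 := xi_pos 2
  have g1 : 1 < xi 1 := by nlinarith [one_le_xi 1]
  have g2 : 1 < xi 2 := by nlinarith [one_le_xi 2]
  match n with
  | 0 => simpa [lam] using g1
  | 1 => simp only [lam]; nlinarith
  | 2 =>
    simp only [lam]
    have h3 := one_le_xi 3
    have h1 := xi_le_two 1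
    have h2 := xi_le_two 2
    norm_num
    nlinarith
  | (n + 3) =>
    simp only [lam]
    have h3 := one_le_xi (n + 4)
    have h4 := xi_le_two (n + 3)
    have h5 : (0 : ℝ) < 4 ^ (n + 6) := by positivity
    have h6 : (4 : ℝ) ^ (n + 1 + 6) = 4 * 4 ^ (n + 6) := by rw [← pow_succ']
    rw [h6]
    have e : n + 1 + 3 = n + 4 := rfl
    rw [e]
    nlinarith

lemma gen_strictMono : StrictMono gen := by
  intro i j hij
  exact Real.rpow_lt_rpow_of_exponent_lt one_lt_al (lam_strictMono hij)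

end Pool.Agent.Helper328.Beurling
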