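import Mathlib

set_option autoImplicit false
open MeasureTheory Set
open scoped ENNReal NNReal Real

namespace Pool.Agent.Helper328.Mf

/-- the unit character `exp(2 pi i t)` -/
noncomputable def ee (t : ℝ) : ℂ := Complex.exp (((2 * π * t : ℝ) : ℂ) * Complex.I)

lemma norm_ee (t : ℝ) : ‖ee t‖ = 1 := by
  unfold ee; exact Complex.norm_exp_ofReal_mul_I _

lemma ee_add (s t : ℝ) : ee (s + t) = ee s * ee t := by
  unfold ee; rw [← Complex.exp_add]; congr 1; push_cast; ring

lemma ee_zero : ee 0 = 1 := by simp [ee]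

lemma ee_nat (n : ℕ) : ee n = 1 := by
  unfold ee
  have : (((2 * π * (n : ℝ) : ℝ) : ℂ) * Complex.I) = n * (2 * π * Complex.I) := by push_cast; ring
  rw [this]; exact Complex.exp_nat_mul_two_pi_mul_I n

lemma ee_neg (t : ℝ) : ee (-t) = (starRingEnd ℂ) (ee t) := by
  unfold ee; rw [← Complex.exp_conj]; congr 1
  rw [map_mul, Complex.conj_ofReal, Complex.conj_I]
  push_cast; ring

lemma continuous_ee : Continuous ee := by
  unfold ee; fun_prop

lemma hasDerivAt_ee_quad (lam bet y : ℝ) :
    HasDerivAt (fun y : ℝ => ee (lam * y ^ 2 + bet * y))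
      (ee (lam * y ^ 2 + bet * y) * (((2 * π * (2 * lam * y + bet) : ℝ) : ℂ) * Complex.I)) y := by
  unfold ee
  have h1 : HasDerivAt (fun y : ℝ => 2 * π * (lam * y ^ 2 + bet * y))
      (2 * π * (2 * lam * y + bet)) y := by
    have := (((hasDerivAt_pow 2 y).const_mul lam).add ((hasDerivAt_id y).const_mul bet)).const_mul (2 * π)
    refine this.congr_deriv ?_
    norm_num
    ring
  have h2 := (h1.ofReal_comp.mul_const Complex.I).cexp
  exact h2

/-- First derivative test for a quadratic phase. -/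
lemma osc_first (lam bet a b κ : ℝ) (hab : a ≤ b) (hκ : 0 < κ)
    (h : ∀ y ∈ Icc a b, κ ≤ |2 * lam * y + bet|) :
    ‖∫ y in a..b, ee (lam * y ^ 2 + bet * y)‖ ≤ 1 / κ := by
  have hne : ∀ y ∈ Icc a b, 2 * lam * y + bet ≠ 0 := by
    intro y hy h0
    have := h y hy
    rw [h0, abs_zero] at this
    linarith
  have huI : uIcc a b = Icc a b := uIcc_of_le hab
  -- the auxiliary function
  set q : ℝ → ℝ := fun y => 2 * lam * y + bet with hq
  have hq' : ∀ y, HasDerivAt q (2 * lam) y := by
    intro y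
    have := ((hasDerivAt_id y).const_mul (2 * lam)).add_const bet
    simpa [hq] using this
  have hinv : ∀ y ∈ Icc a b, HasDerivAt (fun y => (q y)⁻¹) (-(2 * lam) / (q y) ^ 2) y := by
    intro y hy
    exact (hq' y).inv (hne y hy)
  set G : ℝ → ℂ := fun y => ee (lam * y ^ 2 + bet * y) * (((q y)⁻¹ : ℝ) : ℂ) *
    ((2 * π * Complex.I : ℂ))⁻¹ with hG
  have h2piI : (2 * π * Complex.I : ℂ) ≠ 0 := Complex.two_pi_I_ne_zero
  have hGd : ∀ y ∈ Icc a b, HasDerivAt G
      (ee (lam * y ^ 2 + bet * y) + ee (lam * y ^ 2 + bet * y) * ((-(2 * lam) / (q y) ^ 2 : ℝ) : ℂ) *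
        ((2 * π * Complex.I : ℂ))⁻¹) y := by
    intro y hy
    have h1 := (hasDerivAt_ee_quad lam bet y).mul ((hinv y hy).ofReal_comp)
    have h2 := h1.mul_const ((2 * π * Complex.I : ℂ))⁻¹
    refine h2.congr_deriv ?_
    have hqy : ((q y : ℝ) : ℂ) ≠ 0 := by exact_mod_cast hne y hy
    have e1 : (((2 * π * (2 * lam * y + bet) : ℝ) : ℂ) * Complex.I) = (2 * π * Complex.I : ℂ) * ((q y : ℝ) : ℂ) := by
      simp only [hq]; push_cast; ring
    rw [e1]
    have e2 : ee (lam * y ^ 2 + bet * y) * ((2 * π * Complex.I : ℂ) * ((q y : ℝ) : ℂ)) *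
        (((q y)⁻¹ : ℝ) : ℂ) * ((2 * π * Complex.I : ℂ))⁻¹ = ee (lam * y ^ 2 + bet * y) := by
      rw [Complex.ofReal_inv]
      field_simp
    rw [add_mul, e2]
  have hcont : ContinuousOn (fun y => (-(2 * lam) / (q y) ^ 2 : ℝ)) (Icc a b) := by
    apply ContinuousOn.div continuousOn_const
    · exact (by fun_prop : Continuous fun y => q y ^ 2).continuousOn
    · intro y hy; exact pow_ne_zero _ (hne y hy)
  have hcont2 : ContinuousOn (fun y => ee (lam * y ^ 2 + bet * y)) (Icc a b) := by
    exact (continuous_ee.comp (by fun_prop)).continuousOn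
  have hcont3 : ContinuousOn (fun y => ee (lam * y ^ 2 + bet * y) * ((-(2 * lam) / (q y) ^ 2 : ℝ) : ℂ) *
        ((2 * π * Complex.I : ℂ))⁻¹) (Icc a b) := by
    exact (hcont2.mul (Complex.continuous_ofReal.comp_continuousOn hcont)).mul continuousOn_const
  have hi2 : IntervalIntegrable (fun y => ee (lam * y ^ 2 + bet * y)) volume a b :=
    (huI ▸ hcont2).intervalIntegrable
  have hi3 : IntervalIntegrable (fun y => ee (lam * y ^ 2 + bet * y) * ((-(2 * lam) / (q y) ^ 2 : ℝ) : ℂ) *
        ((2 * π * Complex.I : ℂ))⁻¹) volume a b :=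
    (huI ▸ hcont3).intervalIntegrable
  have hFTC : ∫ y in a..b, (ee (lam * y ^ 2 + bet * y) + ee (lam * y ^ 2 + bet * y) * ((-(2 * lam) / (q y) ^ 2 : ℝ) : ℂ) *
        ((2 * π * Complex.I : ℂ))⁻¹) = G b - G a := by
    apply intervalIntegral.integral_eq_sub_of_hasDerivAt
    · intro y hy; rw [huI] at hy; exact hGd y hy
    · exact hi2.add hi3
  rw [intervalIntegral.integral_add hi2 hi3] at hFTC
  have hmain : ∫ y in a..b, ee (lam * y ^ 2 + bet * y) = G b - G a -
      ∫ y in a..b, ee (lam * y ^ 2 + bet * y) * ((-(2 * lam) / (q y) ^ 2 : ℝ) : ℂ) *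
        ((2 * π * Complex.I : ℂ))⁻¹ := by
    rw [← hFTC]; ring
  have hnc : ‖((2 * π * Complex.I : ℂ))⁻¹‖ = 1 / (2 * π) := by
    rw [norm_inv]
    simp [abs_of_pos Real.pi_pos]
  have hGn : ∀ y ∈ Icc a b, ‖G y‖ ≤ 1 / (2 * π) * (1 / κ) := by
    intro y hy
    simp only [hG]
    rw [norm_mul, norm_mul, norm_ee, hnc, one_mul, Complex.norm_real, Real.norm_eq_abs, abs_inv,
      mul_comm]
    apply mul_le_mul_of_nonneg_left _ (by positivity)
    rw [← one_div]
    exact one_div_le_one_div_of_le hκ (h y hy)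
  have hlast : ‖∫ y in a..b, ee (lam * y ^ 2 + bet * y) * ((-(2 * lam) / (q y) ^ 2 : ℝ) : ℂ) *
        ((2 * π * Complex.I : ℂ))⁻¹‖ ≤ 1 / (2 * π) * (2 / κ) := by
    have hstep1 : ‖∫ y in a..b, ee (lam * y ^ 2 + bet * y) * ((-(2 * lam) / (q y) ^ 2 : ℝ) : ℂ) *
        ((2 * π * Complex.I : ℂ))⁻¹‖ ≤ ∫ y in a..b, 1 / (2 * π) * |(-(2 * lam) / (q y) ^ 2 : ℝ)| := by
      refine (intervalIntegral.norm_integral_le_integral_norm hab).trans (le_of_eq ?_)
      apply intervalIntegral.integral_congr
      intro y _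
      simp only
      rw [norm_mul, norm_mul, norm_ee, hnc, one_mul, Complex.norm_real, Real.norm_eq_abs, mul_comm]
    refine hstep1.trans ?_
    rw [intervalIntegral.integral_const_mul]
    apply mul_le_mul_of_nonneg_left _ (by positivity)
    -- |∫ abs| : sign is constant
    have hE : ∫ y in a..b, (-(2 * lam) / (q y) ^ 2 : ℝ) = (q b)⁻¹ - (q a)⁻¹ := by
      apply intervalIntegral.integral_eq_sub_of_hasDerivAt
      · intro y hy; rw [huI] at hy; exact hinv y hy
      · exact (huI ▸ hcont).intervalIntegrable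
    have hb1 : |(q b)⁻¹| ≤ 1 / κ := by
      rw [abs_inv, ← one_div]
      exact one_div_le_one_div_of_le hκ (h b ⟨hab, le_refl _⟩)
    have ha1 : |(q a)⁻¹| ≤ 1 / κ := by
      rw [abs_inv, ← one_div]
      exact one_div_le_one_div_of_le hκ (h a ⟨le_refl _, hab⟩)
    have habs : |(q b)⁻¹ - (q a)⁻¹| ≤ 2 / κ := by
      calc |(q b)⁻¹ - (q a)⁻¹| ≤ |(q b)⁻¹| + |(q a)⁻¹| := abs_sub _ _
        _ ≤ 1 / κ + 1 / κ := add_le_add hb1 ha1
        _ = 2 / κ := by ring
    rcases le_total 0 lam with hl | hl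
    · have : ∫ y in a..b, |(-(2 * lam) / (q y) ^ 2 : ℝ)| = ∫ y in a..b, -(-(2 * lam) / (q y) ^ 2 : ℝ) := by
        apply intervalIntegral.integral_congr
        intro y _
        simp only
        rw [abs_of_nonpos]
        apply div_nonpos_of_nonpos_of_nonneg <;> nlinarith [sq_nonneg (q y)]
      rw [this, intervalIntegral.integral_neg, hE]
      calc -((q b)⁻¹ - (q a)⁻¹) ≤ |(q b)⁻¹ - (q a)⁻¹| := neg_le_abs _
        _ ≤ _ := habs
    · have : ∫ y in a..b, |(-(2 * lam) / (q y) ^ 2 : ℝ)| = ∫ y in a..b, (-(2 * lam) / (q y) ^ 2 : ℝ) := by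
        apply intervalIntegral.integral_congr
        intro y _
        simp only
        rw [abs_of_nonneg]
        apply div_nonneg <;> nlinarith [sq_nonneg (q y)]
      rw [this, hE]
      exact (le_abs_self _).trans habs
  rw [hmain]
  have hpi : (3 : ℝ) < π := Real.pi_gt_three
  calc ‖G b - G a - ∫ y in a..b, ee (lam * y ^ 2 + bet * y) * ((-(2 * lam) / (q y) ^ 2 : ℝ) : ℂ) *
        ((2 * π * Complex.I : ℂ))⁻¹‖ ≤ ‖G b‖ + ‖G a‖ + ‖∫ y in a..b, ee (lam * y ^ 2 + bet * y) * ((-(2 * lam) / (q y) ^ 2 : ℝ) : ℂ) *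
        ((2 * π * Complex.I : ℂ))⁻¹‖ := by
        refine (norm_sub_le _ _).trans ?_
        gcongr
        exact norm_sub_le _ _
    _ ≤ 1 / (2 * π) * (1 / κ) + 1 / (2 * π) * (1 / κ) + 1 / (2 * π) * (2 / κ) := by
        gcongr
        · exact hGn b ⟨hab, le_refl _⟩
        · exact hGn a ⟨le_refl _, hab⟩
    _ = (2 / π) * (1 / κ) := by field_simp; ring
    _ ≤ 1 * (1 / κ) := by
        apply mul_le_mul_of_nonneg_right _ (by positivity)
        rw [div_le_one (by positivity)]; linarith
    _ = 1 / κ := one_mul _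

lemma norm_int_le (a b lam bet : ℝ) (hab : a ≤ b) :
    ‖∫ y in a..b, ee (lam * y ^ 2 + bet * y)‖ ≤ b - a := by
  have := intervalIntegral.norm_integral_le_of_norm_le_const (a := a) (b := b) (C := 1)
    (f := fun y => ee (lam * y ^ 2 + bet * y)) (fun y _ => le_of_eq (norm_ee _))
  rw [abs_of_nonneg (by linarith)] at this
  linarith

/-- Second derivative test for a quadratic phase. -/
lemma osc_second (lam bet a b : ℝ) (hab : a ≤ b) (hl : lam ≠ 0) :
    ‖∫ y in a..b, ee (lam * y ^ 2 + bet * y)‖ ≤ 3 / Real.sqrt |lam| := by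
  have hlp : 0 < |lam| := abs_pos.mpr hl
  set r := Real.sqrt |lam| with hr
  have hrp : 0 < r := Real.sqrt_pos.mpr hlp
  have hr2 : r * r = |lam| := Real.mul_self_sqrt hlp.le
  set c : ℝ := -bet / (2 * lam) with hc
  set δ : ℝ := 1 / r with hδ
  have hδp : 0 < δ := by positivity
  have hqc : ∀ y : ℝ, 2 * lam * y + bet = 2 * lam * (y - c) := by
    intro y; rw [hc]; field_simp; ring
  set p := max a (min b (c - δ)) with hp
  set s := max a (min b (c + δ)) with hs
  have hap : a ≤ p := le_max_left _ _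
  have hps : p ≤ s := by
    apply max_le_max (le_refl _)
    apply min_le_min (le_refl _)
    linarith
  have hsb : s ≤ b := max_le hab (min_le_left _ _)
  have hint : ∀ u v : ℝ, IntervalIntegrable (fun y => ee (lam * y ^ 2 + bet * y)) volume u v := by
    intro u v
    exact (continuous_ee.comp (by fun_prop)).intervalIntegrable _ _
  have hsplit : ∫ y in a..b, ee (lam * y ^ 2 + bet * y) =
      (∫ y in a..p, ee (lam * y ^ 2 + bet * y)) + (∫ y in p..s, ee (lam * y ^ 2 + bet * y)) +
      (∫ y in s..b, ee (lam * y ^ 2 + bet * y)) := by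
    rw [intervalIntegral.integral_add_adjacent_intervals (hint _ _) (hint _ _),
      intervalIntegral.integral_add_adjacent_intervals (hint _ _) (hint _ _)]
  have h1 : ‖∫ y in a..p, ee (lam * y ^ 2 + bet * y)‖ ≤ 1 / (2 * r) := by
    rcases eq_or_lt_of_le hap with h | h
    · rw [← h]; simp; positivity
    · apply osc_first _ _ _ _ _ hap (by positivity)
      intro y hy
      have hpc : p ≤ c - δ := by
        rcases le_total a (min b (c - δ)) with h' | h'
        · rw [hp, max_eq_right h']; exact min_le_right _ _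
        · rw [hp, max_eq_left h'] at h; exact absurd h (lt_irrefl _)
      rw [hqc, abs_mul, abs_mul, abs_two]
      have : δ ≤ |y - c| := by
        rw [abs_of_nonpos (by linarith [hy.2])]
        linarith [hy.2]
      calc 2 * r = 2 * |lam| * δ := by rw [← hr2, hδ]; field_simp
        _ ≤ 2 * |lam| * |y - c| := by gcongr
  have h3 : ‖∫ y in s..b, ee (lam * y ^ 2 + bet * y)‖ ≤ 1 / (2 * r) := by
    rcases eq_or_lt_of_le hsb with h | h
    · rw [← h]; simp; positivity
    · apply osc_first _ _ _ _ _ hsb (by positivity)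
      intro y hy
      have hpc : c + δ ≤ s := by
        rcases le_total b (c + δ) with h' | h'
        · exfalso
          rw [hs, min_eq_left h', max_eq_right hab] at h
          exact absurd h (lt_irrefl _)
        · rw [hs, min_eq_right h']; exact le_max_right _ _
      rw [hqc, abs_mul, abs_mul, abs_two]
      have : δ ≤ |y - c| := by
        rw [abs_of_nonneg (by linarith [hy.1])]
        linarith [hy.1]
      calc 2 * r = 2 * |lam| * δ := by rw [← hr2, hδ]; field_simp
        _ ≤ 2 * |lam| * |y - c| := by gcongr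
  have h2 : ‖∫ y in p..s, ee (lam * y ^ 2 + bet * y)‖ ≤ 2 / r := by
    refine (norm_int_le _ _ _ _ hps).trans ?_
    have : s - p ≤ 2 * δ := by
      have hs' : s ≤ p + 2 * δ := by
        rw [hs]
        apply max_le
        · linarith
        · have : min b (c + δ) ≤ min b (c - δ) + 2 * δ := by
            rcases le_total b (c - δ) with h' | h'
            · rw [min_eq_left h']; exact (min_le_left _ _).trans (by linarith)
            · rw [min_eq_right h']; exact (min_le_right _ _).trans (by linarith)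
          refine this.trans ?_
          have : min b (c - δ) ≤ p := le_max_right _ _
          linarith
      linarith
    refine this.trans (le_of_eq ?_)
    rw [hδ]; ring
  rw [hsplit]
  calc _ ≤ 1 / (2 * r) + 2 / r + 1 / (2 * r) := by
        refine (norm_add_le _ _).trans ?_
        gcongr
        refine (norm_add_le _ _).trans ?_
        gcongr
    _ = 3 / r := by field_simp; ring

end Pool.Agent.Helper328.Mf
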