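import Pool.Agent.Helper328.MfA

set_option autoImplicit false
open MeasureTheory Set
open scoped ENNReal NNReal Real

namespace Pool.Agent.Helper328.Mf

/-- Dirichlet sum -/
noncomputable def DD (M : ℕ) (u : ℝ) : ℂ := ∑ m ∈ Finset.range M, ee (m * u)

lemma DD_period (M i : ℕ) (v : ℝ) : DD M (i + v) = DD M v := by
  unfold DD
  apply Finset.sum_congr rfl
  intro m _
  rw [mul_add, ee_add]
  have : ((m : ℝ) * (i : ℝ)) = ((m * i : ℕ) : ℝ) := by push_cast; ring
  rw [this, ee_nat, one_mul]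

lemma ee_mul_nat (m : ℕ) (u : ℝ) : ee (m * u) = (ee u) ^ m := by
  induction m with
  | zero => simp [ee_zero]
  | succ k ih =>
    rw [pow_succ, ← ih, ← ee_add]; congr 1; push_cast; ring

lemma norm_ee_sub_one (v : ℝ) : ‖ee v - 1‖ = 2 * |Real.sin (π * v)| := by
  unfold ee
  rw [mul_comm, Complex.norm_exp_I_mul_ofReal_sub_one, norm_mul]
  rw [Real.norm_eq_abs, Real.norm_eq_abs, abs_two]
  congr 3; ring

lemma DD_upper (M : ℕ) (v : ℝ) (h0 : 0 < v) (h1 : v ≤ 1 / 2) : ‖DD M v‖ ≤ 1 / (2 * v) := by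
  have hgeo : DD M v * (ee v - 1) = (ee v) ^ M - 1 := by
    unfold DD
    simp_rw [ee_mul_nat]
    exact geom_sum_mul _ _
  have hsin : 2 * v ≤ Real.sin (π * v) := by
    have := Real.mul_le_sin (x := π * v) (by positivity) (by nlinarith [Real.pi_pos])
    calc 2 * v = 2 / π * (π * v) := by field_simp
      _ ≤ _ := this
  have hn : 4 * v ≤ ‖ee v - 1‖ := by
    rw [norm_ee_sub_one]
    have := le_abs_self (Real.sin (π * v))
    linarith
  have h2 : ‖DD M v‖ * ‖ee v - 1‖ ≤ 2 := by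
    rw [← norm_mul, hgeo]
    calc ‖(ee v) ^ M - 1‖ ≤ ‖(ee v) ^ M‖ + ‖(1 : ℂ)‖ := norm_sub_le _ _
      _ = 2 := by rw [norm_pow, norm_ee]; norm_num
  rw [le_div_iff₀ (by positivity)]
  have : ‖DD M v‖ * (4 * v) ≤ 2 := (mul_le_mul_of_nonneg_left hn (norm_nonneg _)).trans h2
  linarith

lemma DD_lower (M : ℕ) (v : ℝ) (h : 8 * M * |v| ≤ 1) : (M : ℝ) / 2 ≤ ‖DD M v‖ := by
  have h1 : (M : ℝ) / 2 ≤ (DD M v).re := by
    unfold DD
    rw [Complex.re_sum]
    have : ∀ m ∈ Finset.range M, (1 / 2 : ℝ) ≤ (ee (m * v)).re := by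
      intro m hm
      have hmM : (m : ℝ) ≤ M := by exact_mod_cast (Finset.mem_range.mp hm).le
      have hre : (ee (m * v)).re = Real.cos (2 * π * (m * v)) := by
        unfold ee
        rw [Complex.exp_ofReal_mul_I_re]
      rw [hre]
      have hb : |2 * π * (m * v)| ≤ 1 := by
        rw [abs_mul, abs_mul, abs_mul, abs_two, abs_of_pos Real.pi_pos, Nat.abs_cast]
        have h3 : (m : ℝ) * |v| ≤ 1 / 8 := by
          have : (m : ℝ) * |v| ≤ M * |v| := mul_le_mul_of_nonneg_right hmM (abs_nonneg _)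
          linarith
        nlinarith [Real.pi_pos, Real.pi_le_four]
      have := Real.one_sub_sq_div_two_le_cos (x := 2 * π * (m * v))
      have h4 : (2 * π * (m * v)) ^ 2 ≤ 1 := by
        rw [← sq_abs]
        exact pow_le_one₀ (abs_nonneg _) hb
      linarith
    have hs := Finset.sum_le_sum this
    rw [Finset.sum_const, Finset.card_range, nsmul_eq_mul] at hs
    linarith
  exact h1.trans ((le_abs_self _).trans (Complex.abs_re_le_norm _))

/-- The density. -/
noncomputable def rho (n : ℕ) (y : ℝ) : ℝ := ‖DD (2 ^ n) (16 ^ n * y ^ 2)‖ ^ 2 / 2 ^ n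

lemma rho_nonneg (n : ℕ) (y : ℝ) : 0 ≤ rho n y := by unfold rho; positivity

lemma continuous_DD (M : ℕ) : Continuous (DD M) := by
  unfold DD
  apply continuous_finsetSum
  intro m _
  exact continuous_ee.comp (by fun_prop)

lemma continuous_rho (n : ℕ) : Continuous (rho n) := by
  unfold rho
  have := (continuous_DD (2 ^ n)).comp (by fun_prop : Continuous fun y : ℝ => (16 : ℝ) ^ n * y ^ 2)
  exact (this.norm.pow 2).div_const _

lemma rho_complex (n : ℕ) (y : ℝ) : ((rho n y : ℝ) : ℂ) =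
    (1 / 2 ^ n : ℂ) * ∑ m ∈ Finset.range (2 ^ n), ∑ m' ∈ Finset.range (2 ^ n),
      ee (((m : ℝ) - m') * 16 ^ n * y ^ 2) := by
  unfold rho
  rw [Complex.ofReal_div, Complex.ofReal_pow]
  rw [← Complex.mul_conj']
  have : DD (2 ^ n) (16 ^ n * y ^ 2) * (starRingEnd ℂ) (DD (2 ^ n) (16 ^ n * y ^ 2)) =
      ∑ m ∈ Finset.range (2 ^ n), ∑ m' ∈ Finset.range (2 ^ n),
      ee (((m : ℝ) - m') * 16 ^ n * y ^ 2) := by
    unfold DD
    rw [map_sum, Finset.sum_mul_sum]
    apply Finset.sum_congr rfl; intro m _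
    apply Finset.sum_congr rfl; intro m' _
    rw [← ee_neg, ← ee_add]; congr 1; ring
  rw [this]
  push_cast
  ring

/-- Fourier transform of the density on `[1,2]` at `xi`. -/
noncomputable def FF (n : ℕ) (xi : ℝ) : ℂ := ∫ y in (1 : ℝ)..2, ee (-(xi * y)) * (rho n y : ℂ)

lemma FF_expand (n : ℕ) (xi : ℝ) : FF n xi =
    (1 / 2 ^ n : ℂ) * ∑ m ∈ Finset.range (2 ^ n), ∑ m' ∈ Finset.range (2 ^ n),
      ∫ y in (1 : ℝ)..2, ee ((((m : ℝ) - m') * 16 ^ n) * y ^ 2 + (-xi) * y) := by
  unfold FF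
  have h1 : (fun y : ℝ => ee (-(xi * y)) * (rho n y : ℂ)) = fun y =>
      (1 / 2 ^ n : ℂ) * ∑ m ∈ Finset.range (2 ^ n), ∑ m' ∈ Finset.range (2 ^ n),
      ee ((((m : ℝ) - m') * 16 ^ n) * y ^ 2 + (-xi) * y) := by
    funext y
    rw [rho_complex, mul_left_comm, Finset.mul_sum]
    congr 1
    apply Finset.sum_congr rfl; intro m _
    rw [Finset.mul_sum]
    apply Finset.sum_congr rfl; intro m' _
    rw [← ee_add]; congr 1; ring
  rw [h1, intervalIntegral.integral_const_mul]
  congr 1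
  have hc : ∀ a b : ℝ, Continuous fun y : ℝ => ee (a * y ^ 2 + b * y) := by
    intro a b; exact continuous_ee.comp (by fun_prop)
  rw [intervalIntegral.integral_finsetSum]
  · apply Finset.sum_congr rfl; intro m _
    rw [intervalIntegral.integral_finsetSum]
    intro m' _
    exact (hc _ _).intervalIntegrable _ _
  · intro m _
    exact (continuous_finsetSum _ fun m' _ => hc _ _).intervalIntegrable _ _

lemma norm_FF_le_double (n : ℕ) (xi B1 B2 : ℝ) (hB2 : 0 ≤ B2)
    (hd : ‖∫ y in (1 : ℝ)..2, ee ((0 : ℝ) * y ^ 2 + (-xi) * y)‖ ≤ B1)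
    (ho : ∀ lam : ℝ, (16 : ℝ) ^ n ≤ |lam| → |lam| ≤ 2 ^ n * 16 ^ n →
      ‖∫ y in (1 : ℝ)..2, ee (lam * y ^ 2 + (-xi) * y)‖ ≤ B2) :
    ‖FF n xi‖ ≤ B1 + 2 ^ n * B2 := by
  have hP : (0 : ℝ) < 2 ^ n := by positivity
  rw [FF_expand, norm_mul]
  have hn : ‖(1 / 2 ^ n : ℂ)‖ = 1 / 2 ^ n := by simp
  rw [hn]
  have hB1 : 0 ≤ B1 := (norm_nonneg _).trans hd
  have hterm : ∀ m ∈ Finset.range (2 ^ n), ∀ m' ∈ Finset.range (2 ^ n),
      ‖∫ y in (1 : ℝ)..2, ee ((((m : ℝ) - m') * 16 ^ n) * y ^ 2 + (-xi) * y)‖ ≤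
        (if m = m' then B1 else 0) + B2 := by
    intro m hm m' hm'
    by_cases h : m = m'
    · subst h
      rw [if_pos rfl, sub_self, zero_mul]
      linarith
    · rw [if_neg h, zero_add]
      have hcast : (1 : ℝ) ≤ |(m : ℝ) - m'| := by
        have h1 : (m : ℤ) - m' ≠ 0 := by
          intro h0; apply h; exact_mod_cast (sub_eq_zero.mp h0)
        have h2 : (1 : ℤ) ≤ |(m : ℤ) - m'| := Int.one_le_abs h1
        have h3 : ((1 : ℤ) : ℝ) ≤ ((|(m : ℤ) - m'| : ℤ) : ℝ) := by exact_mod_cast h2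
        push_cast at h3
        exact h3
      have hcast2 : |(m : ℝ) - m'| ≤ 2 ^ n := by
        have h1 : (m : ℝ) ≤ 2 ^ n := by
          have := (Finset.mem_range.mp hm).le
          exact_mod_cast this
        have h2 : (m' : ℝ) ≤ 2 ^ n := by
          have := (Finset.mem_range.mp hm').le
          exact_mod_cast this
        have h3 : (0 : ℝ) ≤ m := Nat.cast_nonneg _
        have h4 : (0 : ℝ) ≤ m' := Nat.cast_nonneg _
        rw [abs_le]; constructor <;> linarith
      have hP16 : (0 : ℝ) < 16 ^ n := by positivity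
      apply ho
      · rw [abs_mul, abs_of_pos hP16]
        nlinarith
      · rw [abs_mul, abs_of_pos hP16]
        exact mul_le_mul_of_nonneg_right hcast2 hP16.le
  have hsum : ‖∑ m ∈ Finset.range (2 ^ n), ∑ m' ∈ Finset.range (2 ^ n),
      ∫ y in (1 : ℝ)..2, ee ((((m : ℝ) - m') * 16 ^ n) * y ^ 2 + (-xi) * y)‖ ≤
      ∑ m ∈ Finset.range (2 ^ n), ∑ m' ∈ Finset.range (2 ^ n), ((if m = m' then B1 else 0) + B2) := by
    refine (norm_sum_le _ _).trans ?_
    apply Finset.sum_le_sum; intro m hm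
    refine (norm_sum_le _ _).trans ?_
    apply Finset.sum_le_sum; intro m' hm'
    exact hterm m hm m' hm'
  have hval : ∑ m ∈ Finset.range (2 ^ n), ∑ m' ∈ Finset.range (2 ^ n), ((if m = m' then B1 else 0) + B2)
      = 2 ^ n * (B1 + 2 ^ n * B2) := by
    have : ∀ m ∈ Finset.range (2 ^ n), ∑ m' ∈ Finset.range (2 ^ n), ((if m = m' then B1 else 0) + B2)
        = B1 + 2 ^ n * B2 := by
      intro m hm
      rw [Finset.sum_add_distrib, Finset.sum_ite_eq, if_pos hm, Finset.sum_const, Finset.card_range,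
        nsmul_eq_mul]
      push_cast; ring
    rw [Finset.sum_congr rfl this, Finset.sum_const, Finset.card_range, nsmul_eq_mul]
    push_cast; ring
  rw [hval] at hsum
  calc 1 / 2 ^ n * _ ≤ 1 / 2 ^ n * (2 ^ n * (B1 + 2 ^ n * B2)) := by gcongr
    _ = B1 + 2 ^ n * B2 := by field_simp

lemma norm_FF_small (n : ℕ) (xi : ℝ) : ‖FF n xi‖ ≤ 4 := by
  have h := norm_FF_le_double n xi 1 (3 / 4 ^ n) (by positivity)
    (by
      have := norm_int_le 1 2 0 (-xi) (by norm_num)
      linarith)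
    (by
      intro lam h1 _
      have hpos : (0 : ℝ) < 16 ^ n := by positivity
      have hl : lam ≠ 0 := by
        intro h0; rw [h0, abs_zero] at h1; linarith
      refine (osc_second lam (-xi) 1 2 (by norm_num) hl).trans ?_
      apply div_le_div_of_nonneg_left (by norm_num) (by positivity)
      rw [show (4 : ℝ) ^ n = Real.sqrt (16 ^ n) by
        rw [show (16 : ℝ) ^ n = (4 ^ n) ^ 2 by rw [← pow_mul, mul_comm, pow_mul]; norm_num]
        rw [Real.sqrt_sq (by positivity)]]
      exact Real.sqrt_le_sqrt h1)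
  refine h.trans ?_
  have : (2 : ℝ) ^ n * (3 / 4 ^ n) ≤ 3 := by
    rw [mul_div_assoc', div_le_iff₀ (by positivity)]
    have : (2 : ℝ) ^ n ≤ 4 ^ n := pow_le_pow_left₀ (by norm_num) (by norm_num) n
    linarith
  linarith

lemma norm_FF_mid (n : ℕ) (xi : ℝ) (hxi : xi ≠ 0) : ‖FF n xi‖ ≤ 1 / |xi| + 3 / 2 ^ n := by
  have hx : 0 < |xi| := abs_pos.mpr hxi
  have h := norm_FF_le_double n xi (1 / |xi|) (3 / 4 ^ n) (by positivity)
    (by
      apply osc_first _ _ _ _ _ (by norm_num) hx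
      intro y _
      rw [mul_zero, zero_mul, zero_add, abs_neg])
    (by
      intro lam h1 _
      have hpos : (0 : ℝ) < 16 ^ n := by positivity
      have hl : lam ≠ 0 := by
        intro h0; rw [h0, abs_zero] at h1; linarith
      refine (osc_second lam (-xi) 1 2 (by norm_num) hl).trans ?_
      apply div_le_div_of_nonneg_left (by norm_num) (by positivity)
      rw [show (4 : ℝ) ^ n = Real.sqrt (16 ^ n) by
        rw [show (16 : ℝ) ^ n = (4 ^ n) ^ 2 by rw [← pow_mul, mul_comm, pow_mul]; norm_num]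
        rw [Real.sqrt_sq (by positivity)]]
      exact Real.sqrt_le_sqrt h1)
  refine h.trans (le_of_eq ?_)
  rw [show (4 : ℝ) ^ n = 2 ^ n * 2 ^ n by rw [← mul_pow]; norm_num]
  field_simp

lemma norm_FF_large (n : ℕ) (xi : ℝ) (hxi : 8 * 32 ^ n ≤ |xi|) : ‖FF n xi‖ ≤ 3 * 2 ^ n / |xi| := by
  have hP : (0 : ℝ) < 32 ^ n := by positivity
  have hx : 0 < |xi| := by linarith
  have h := norm_FF_le_double n xi (1 / |xi|) (2 / |xi|) (by positivity)
    (by
      apply osc_first _ _ _ _ _ (by norm_num) hx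
      intro y _
      rw [mul_zero, zero_mul, zero_add, abs_neg])
    (by
      intro lam _ h2
      have h := osc_first lam (-xi) 1 2 (|xi| / 2) (by norm_num) (by positivity)
        (by
          intro y hy
          have h3 : |2 * lam * y| ≤ |xi| / 2 := by
            rw [abs_mul, abs_mul, abs_two, abs_of_nonneg (by linarith [hy.1] : (0 : ℝ) ≤ y)]
            have h4 : |lam| ≤ |xi| / 8 := by
              have : (2 : ℝ) ^ n * 16 ^ n = 32 ^ n := by rw [← mul_pow]; norm_num
              rw [this] at h2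
              linarith
            have := hy.2
            have := hy.1
            nlinarith [abs_nonneg lam]
          have h5 : |xi| ≤ |2 * lam * y + -xi| + |2 * lam * y| := by
            have := abs_sub (2 * lam * y) (2 * lam * y + -xi)
            rw [show 2 * lam * y - (2 * lam * y + -xi) = xi by ring] at this
            linarith
          linarith)
      refine h.trans (le_of_eq ?_)
      field_simp)
  refine h.trans ?_
  rw [mul_div_assoc', ← add_div]
  apply div_le_div_of_nonneg_right _ hx.le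
  have : (1 : ℝ) ≤ 2 ^ n := one_le_pow₀ (by norm_num)
  linarith

/-- Uniform Fourier decay of the densities. -/
lemma norm_FF_decay (n : ℕ) (xi : ℝ) (hxi : xi ≠ 0) : ‖FF n xi‖ ≤ 7 * |xi| ^ (-(1 / 5 : ℝ)) := by
  have hx : 0 < |xi| := abs_pos.mpr hxi
  set t := |xi| ^ (1 / 5 : ℝ) with ht
  have htp : 0 < t := Real.rpow_pos_of_pos hx _
  have ht5 : t ^ 5 = |xi| := by
    rw [ht, ← Real.rpow_natCast, ← Real.rpow_mul hx.le]; norm_num
  have hneg : |xi| ^ (-(1 / 5 : ℝ)) = 1 / t := by
    rw [Real.rpow_neg hx.le]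
    exact (one_div t).symm
  rw [hneg]
  rcases le_or_gt t 1 with h1 | h1
  · refine (norm_FF_small n xi).trans ?_
    rw [mul_one_div, le_div_iff₀ htp]
    linarith
  · rcases le_or_gt (8 * 32 ^ n) |xi| with h2 | h2
    · refine (norm_FF_large n xi h2).trans ?_
      -- 2^n ≤ t
      have h3 : (2 : ℝ) ^ n ≤ t := by
        by_contra hcon
        push Not at hcon
        have : t ^ 5 < (2 ^ n) ^ 5 := pow_lt_pow_left₀ hcon htp.le (by norm_num)
        rw [ht5, ← pow_mul, mul_comm n 5, pow_mul] at this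
        norm_num at this
        have h32 : (0 : ℝ) < 32 ^ n := by positivity
        linarith
      rw [mul_one_div, div_le_div_iff₀ hx htp]
      rw [← ht5]
      have : 3 * 2 ^ n * t ≤ 3 * t * t := by nlinarith
      have h6 : t * t ≤ t ^ 5 := by
        calc t * t = t ^ 2 := by ring
          _ ≤ t ^ 5 := pow_le_pow_right₀ h1.le (by norm_num)
      have : 0 < t ^ 5 := by positivity
      linarith
    · refine (norm_FF_mid n xi hxi).trans ?_
      have h3 : t ≤ 2 * 2 ^ n := by
        by_contra hcon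
        push Not at hcon
        have : (2 * 2 ^ n) ^ 5 < t ^ 5 := pow_lt_pow_left₀ hcon (by positivity) (by norm_num)
        rw [ht5, mul_pow, ← pow_mul, mul_comm n 5, pow_mul] at this
        norm_num at this
        have h32 : (0 : ℝ) < 32 ^ n := by positivity
        linarith
      have h4 : 1 / |xi| ≤ 1 / t := by
        apply one_div_le_one_div_of_le htp
        rw [← ht5]
        calc t = t ^ 1 := (pow_one t).symm
          _ ≤ t ^ 5 := pow_le_pow_right₀ h1.le (by norm_num)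
      have h5 : 3 / 2 ^ n ≤ 6 * (1 / t) := by
        rw [mul_one_div, div_le_div_iff₀ (by positivity) htp]
        linarith
      linarith

end Pool.Agent.Helper328.Mf
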