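import Pool.Agent.Helper328.MfB

set_option autoImplicit false
open MeasureTheory Set
open scoped ENNReal NNReal Real

namespace Pool.Agent.Helper328.Mf

/-- The Haar function. -/
noncomputable def haar (x : ℝ) : ℝ := if 0 ≤ x ∧ x < 1 then 1 else if -1 ≤ x ∧ x < 0 then -1 else 0

lemma haar_eq : haar = fun x => (Ico (0 : ℝ) 1).indicator (fun _ => (1 : ℝ)) x -
    (Ico (-1 : ℝ) 0).indicator (fun _ => (1 : ℝ)) x := by
  funext x
  unfold haar
  by_cases h1 : 0 ≤ x ∧ x < 1
  · have h2 : x ∉ Ico (-1 : ℝ) 0 := fun h => by linarith [h.2, h1.1]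
    rw [if_pos h1, indicator_of_mem (show x ∈ Ico (0 : ℝ) 1 from h1), indicator_of_notMem h2]; ring
  · rw [if_neg h1, indicator_of_notMem (show x ∉ Ico (0 : ℝ) 1 from h1)]
    by_cases h2 : -1 ≤ x ∧ x < 0
    · rw [if_pos h2, indicator_of_mem (show x ∈ Ico (-1 : ℝ) 0 from h2)]; ring
    · rw [if_neg h2, indicator_of_notMem (show x ∉ Ico (-1 : ℝ) 0 from h2)]; ring

lemma measurable_haar : Measurable haar := by
  rw [haar_eq]
  exact (measurable_const.indicator measurableSet_Ico).sub (measurable_const.indicator measurableSet_Ico)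

lemma abs_haar_le (x : ℝ) : |haar x| ≤ 1 := by
  unfold haar; split_ifs <;> simp

lemma haar_ge (x : ℝ) : -1 ≤ haar x := (abs_le.mp (abs_haar_le x)).1

lemma haar_zero (x : ℝ) (h : 1 ≤ |x|) (h' : x ≠ -1) : haar x = 0 := by
  unfold haar
  rw [if_neg, if_neg]
  · rintro ⟨h1, h2⟩
    rw [abs_of_neg h2] at h
    exact h' (by linarith)
  · rintro ⟨h1, h2⟩
    rw [abs_of_nonneg h1] at h
    linarith

lemma haar_one (x : ℝ) (h0 : 0 ≤ x) (h1 : x < 1) : haar x = 1 := by
  unfold haar; rw [if_pos ⟨h0, h1⟩]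

/-- centres -/
noncomputable def cen (n i : ℕ) : ℝ := Real.sqrt (i / 16 ^ n)

lemma cen_sq (n i : ℕ) : (16 : ℝ) ^ n * cen n i ^ 2 = i := by
  unfold cen
  rw [Real.sq_sqrt (by positivity)]
  field_simp

lemma cen_nonneg (n i : ℕ) : 0 ≤ cen n i := Real.sqrt_nonneg _

lemma cen_lt_two (n i : ℕ) (h2 : i < 4 * 16 ^ n) : cen n i < 2 := by
  have hN : (0 : ℝ) < 16 ^ n := by positivity
  have hi : (i : ℝ) < 4 * 16 ^ n := by exact_mod_cast h2
  have := cen_sq n i
  by_contra hcon
  push Not at hcon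
  have : (4 : ℝ) ≤ cen n i ^ 2 := by nlinarith
  nlinarith

lemma cen_gt_one (n i : ℕ) (h1 : 16 ^ n < i) : 1 < cen n i := by
  have hN : (0 : ℝ) < 16 ^ n := by positivity
  have hi : (16 : ℝ) ^ n < i := by exact_mod_cast h1
  have := cen_sq n i
  by_contra hcon
  push Not at hcon
  have : cen n i ^ 2 ≤ 1 := by nlinarith [cen_nonneg n i]
  nlinarith

lemma cen_low (n i : ℕ) (h1 : 16 ^ n < i) (h2 : i < 4 * 16 ^ n) :
    1 ≤ 3 * 16 ^ n * (cen n i - 1) := by
  have hN : (0 : ℝ) < 16 ^ n := by positivity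
  have hi : (16 : ℝ) ^ n + 1 ≤ i := by exact_mod_cast h1
  have h := cen_sq n i
  have ha := cen_gt_one n i h1
  have hb := cen_lt_two n i h2
  have : (16 : ℝ) ^ n * ((cen n i - 1) * (cen n i + 1)) ≥ 1 := by nlinarith
  have h3 : (16 : ℝ) ^ n * ((cen n i - 1) * (cen n i + 1)) ≤ 16 ^ n * ((cen n i - 1) * 3) := by
    apply mul_le_mul_of_nonneg_left _ hN.le
    apply mul_le_mul_of_nonneg_left _ (by linarith)
    linarith
  linarith

lemma cen_high (n i : ℕ) (h2 : i < 4 * 16 ^ n) :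
    1 ≤ 4 * 16 ^ n * (2 - cen n i) := by
  have hN : (0 : ℝ) < 16 ^ n := by positivity
  have hi : (i : ℝ) + 1 ≤ 4 * 16 ^ n := by exact_mod_cast h2
  have h := cen_sq n i
  have ha := cen_nonneg n i
  have hb := cen_lt_two n i h2
  have : (16 : ℝ) ^ n * ((2 - cen n i) * (2 + cen n i)) ≥ 1 := by nlinarith
  have h3 : (16 : ℝ) ^ n * ((2 - cen n i) * (2 + cen n i)) ≤ 16 ^ n * ((2 - cen n i) * 4) := by
    apply mul_le_mul_of_nonneg_left _ hN.le
    apply mul_le_mul_of_nonneg_left _ (by linarith)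
    linarith
  linarith

lemma cen_sep (n i j : ℕ) (hij : i < j) (h2 : j < 4 * 16 ^ n) :
    1 ≤ 4 * 16 ^ n * (cen n j - cen n i) := by
  have hN : (0 : ℝ) < 16 ^ n := by positivity
  have hi : (i : ℝ) + 1 ≤ j := by exact_mod_cast hij
  have h := cen_sq n i
  have h' := cen_sq n j
  have ha := cen_nonneg n i
  have hb := cen_lt_two n j h2
  have hc := cen_lt_two n i (hij.trans h2)
  have ha' := cen_nonneg n j
  have hle : cen n i ≤ cen n j := by
    unfold cen
    apply Real.sqrt_le_sqrt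
    apply div_le_div_of_nonneg_right _ hN.le
    linarith
  have : (16 : ℝ) ^ n * ((cen n j - cen n i) * (cen n j + cen n i)) ≥ 1 := by nlinarith
  have h3 : (16 : ℝ) ^ n * ((cen n j - cen n i) * (cen n j + cen n i)) ≤ 16 ^ n * ((cen n j - cen n i) * 4) := by
    apply mul_le_mul_of_nonneg_left _ hN.le
    apply mul_le_mul_of_nonneg_left _ (by linarith)
    linarith
  linarith

/-- value of the density near a centre -/
lemma rho_near (n i : ℕ) (y : ℝ) :
    rho n y = ‖DD (2 ^ n) (16 ^ n * ((y - cen n i) * (y + cen n i)))‖ ^ 2 / 2 ^ n := by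
  unfold rho
  have h : (16 : ℝ) ^ n * y ^ 2 = (i : ℝ) + 16 ^ n * ((y - cen n i) * (y + cen n i)) := by
    have := cen_sq n i
    nlinarith
  rw [h, DD_period]

lemma rho_low (n i : ℕ) (y : ℝ) (h2 : i < 4 * 16 ^ n) (hy0 : 0 ≤ y) (hy2 : y ≤ 2)
    (h : |y - cen n i| ≤ 1 / (32 * 2 ^ n * 16 ^ n)) : (2 : ℝ) ^ n / 4 ≤ rho n y := by
  have hN : (0 : ℝ) < 16 ^ n := by positivity
  have hM : (0 : ℝ) < 2 ^ n := by positivity
  rw [rho_near n i]
  have hc0 := cen_nonneg n i
  have hc2 := cen_lt_two n i h2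
  have hD : (((2 ^ n : ℕ) : ℝ)) / 2 ≤ ‖DD (2 ^ n) (16 ^ n * ((y - cen n i) * (y + cen n i)))‖ := by
    apply DD_lower
    push_cast
    rw [abs_mul, abs_mul, abs_of_pos hN, abs_of_nonneg (by linarith : 0 ≤ y + cen n i)]
    have h4 : y + cen n i ≤ 4 := by linarith
    calc 8 * 2 ^ n * (16 ^ n * (|y - cen n i| * (y + cen n i)))
        ≤ 8 * 2 ^ n * (16 ^ n * ((1 / (32 * 2 ^ n * 16 ^ n)) * 4)) := by gcongr
      _ = 1 := by field_simp; norm_num
  push_cast at hD
  rw [le_div_iff₀ hM]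
  calc (2 : ℝ) ^ n / 4 * 2 ^ n = (2 ^ n / 2) ^ 2 := by ring
    _ ≤ _ := pow_le_pow_left₀ (by positivity) hD 2

lemma rho_high (n i : ℕ) (T y : ℝ) (h1 : 16 ^ n < i) (h2 : i < 4 * 16 ^ n) (hy0 : 1 ≤ y) (hy2 : y ≤ 2)
    (hT : 32 * 16 ^ n ≤ T)
    (ha : 1 / (4 * T) ≤ y - cen n i) (hb : y - cen n i ≤ 7 / (4 * T)) :
    rho n y ≤ T ^ 2 / (2 ^ n * (16 ^ n) ^ 2) := by
  have hN : (0 : ℝ) < 16 ^ n := by positivity
  have hM : (0 : ℝ) < 2 ^ n := by positivity
  have hTp : 0 < T := by linarith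
  rw [rho_near n i]
  have hc0 := cen_gt_one n i h1
  have hc2 := cen_lt_two n i h2
  set v := (16 : ℝ) ^ n * ((y - cen n i) * (y + cen n i)) with hv
  have hv1 : 16 ^ n / (2 * T) ≤ v := by
    rw [hv]
    calc (16 : ℝ) ^ n / (2 * T) = 16 ^ n * ((1 / (4 * T)) * 2) := by field_simp; norm_num
      _ ≤ 16 ^ n * ((y - cen n i) * (y + cen n i)) := by
        apply mul_le_mul_of_nonneg_left _ hN.le
        apply mul_le_mul ha (by linarith) (by norm_num) (le_trans (by positivity) ha)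
  have hv0 : 0 < v := lt_of_lt_of_le (by positivity) hv1
  have hv2 : v ≤ 1 / 2 := by
    rw [hv]
    calc (16 : ℝ) ^ n * ((y - cen n i) * (y + cen n i)) ≤ 16 ^ n * ((7 / (4 * T)) * 4) := by
          apply mul_le_mul_of_nonneg_left _ hN.le
          apply mul_le_mul hb (by linarith) (by linarith) (by positivity)
      _ = 7 * 16 ^ n / T := by field_simp
      _ ≤ 1 / 2 := by
          rw [div_le_div_iff₀ hTp (by norm_num)]
          linarith
  have hD := DD_upper (2 ^ n) v hv0 hv2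
  have hD2 : ‖DD (2 ^ n) v‖ ≤ T / 16 ^ n := by
    refine hD.trans ?_
    rw [div_le_div_iff₀ (by positivity) hN]
    have : 16 ^ n ≤ v * (2 * T) := by
      rwa [div_le_iff₀ (by positivity)] at hv1
    linarith
  calc ‖DD (2 ^ n) v‖ ^ 2 / 2 ^ n ≤ (T / 16 ^ n) ^ 2 / 2 ^ n := by
        apply div_le_div_of_nonneg_right _ hM.le
        exact pow_le_pow_left₀ (norm_nonneg _) hD2 2
    _ = _ := by field_simp

lemma conv_lower (n i k : ℕ) (x : ℝ) (h1 : 16 ^ n < i) (h2 : i < 4 * 16 ^ n)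
    (hk1 : 4 * n + 5 ≤ k) (hk2 : k + 8 ≤ 5 * n)
    (hx1 : (2 : ℝ) ^ k * cen n i + 1 / 4 ≤ x) (hx2 : x ≤ (2 : ℝ) ^ k * cen n i + 3 / 4) :
    1 / (128 * (16 : ℝ) ^ n) ≤ ∫ y in Ico (1 : ℝ) 2, haar (x - 2 ^ k * y) * rho n y := by
  have hN : (0 : ℝ) < 16 ^ n := by positivity
  have hM : (0 : ℝ) < 2 ^ n := by positivity
  set T : ℝ := 2 ^ k with hTdef
  have hT1 : 32 * 16 ^ n ≤ T := by
    calc (32 : ℝ) * 16 ^ n = 2 ^ (4 * n + 5) := by rw [pow_add, pow_mul]; norm_num; ring
      _ ≤ 2 ^ k := pow_le_pow_right₀ (by norm_num) hk1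
  have hT2 : 256 * T ≤ 2 ^ n * 16 ^ n := by
    calc (256 : ℝ) * T = 2 ^ (k + 8) := by rw [pow_add]; norm_num; ring
      _ ≤ 2 ^ (5 * n) := pow_le_pow_right₀ (by norm_num) hk2
      _ = 2 ^ n * 16 ^ n := by rw [pow_mul, ← mul_pow]; norm_num
  have hTp : 0 < T := by positivity
  set w : ℝ := 1 / (32 * 2 ^ n * 16 ^ n) with hw
  have hwp : 0 < w := by positivity
  have hTw : T * w ≤ 1 / 8 := by
    rw [hw, mul_one_div, div_le_div_iff₀ (by positivity) (by norm_num)]
    nlinarith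
  set c : ℝ := T ^ 2 / (2 ^ n * (16 ^ n) ^ 2) with hc
  have hcp : 0 < c := by positivity
  set a := cen n i with ha
  have ha1 : 1 < a := cen_gt_one n i h1
  have ha2 : a < 2 := cen_lt_two n i h2
  have hlow := cen_low n i h1 h2
  have hhigh := cen_high n i h2
  rw [← ha] at hlow hhigh
  set A : Set ℝ := Icc (a - w) (a + w) with hA
  set B : Set ℝ := Icc (a + 1 / (4 * T)) (a + 7 / (4 * T)) with hB
  have hwN : w * 16 ^ n ≤ 1 / 32 := by
    rw [hw]
    have : (1 : ℝ) ≤ 2 ^ n := one_le_pow₀ (by norm_num)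
    rw [one_div, ← one_div, one_div_mul_eq_div, div_le_div_iff₀ (by positivity) (by norm_num)]
    nlinarith
  have hAsub : A ⊆ Ico 1 2 := by
    intro y hy
    constructor
    · have := hy.1
      have h5 : w ≤ a - 1 := by
        by_contra hcon
        push Not at hcon
        nlinarith
      linarith
    · have := hy.2
      have h5 : w < 2 - a := by
        by_contra hcon
        push Not at hcon
        nlinarith
      linarith
  have hw4T : w < 1 / (4 * T) := by
    rw [lt_div_iff₀ (by positivity)]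
    linarith
  have hpt : ∀ y ∈ Ico (1 : ℝ) 2, A.indicator (fun _ => (2 : ℝ) ^ n / 4) y - B.indicator (fun _ => c) y
      ≤ haar (x - T * y) * rho n y := by
    intro y hy
    have hrho := rho_nonneg n y
    by_cases hyA : y ∈ A
    · have hyB : y ∉ B := by
        intro hB'
        have := hyA.2
        have := hB'.1
        linarith
      rw [indicator_of_mem hyA, indicator_of_notMem hyB, sub_zero]
      have e1 : T * y ≤ T * a + 1 / 8 := by
        have := mul_le_mul_of_nonneg_left hyA.2 hTp.le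
        linarith
      have e2 : T * a - 1 / 8 ≤ T * y := by
        have := mul_le_mul_of_nonneg_left hyA.1 hTp.le
        linarith
      rw [haar_one _ (by linarith) (by linarith), one_mul]
      apply rho_low n i y h2 (by linarith [hy.1]) hy.2.le
      rw [← ha, ← hw, abs_le]
      constructor <;> linarith [hyA.1, hyA.2]
    · rw [indicator_of_notMem hyA]
      by_cases hyB : y ∈ B
      · rw [indicator_of_mem hyB]
        have hrh : rho n y ≤ c := by
          apply rho_high n i T y h1 h2 hy.1 hy.2.le hT1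
          · rw [← ha]; linarith [hyB.1]
          · rw [← ha]; linarith [hyB.2]
        have := haar_ge (x - T * y)
        nlinarith
      · rw [indicator_of_notMem hyB, sub_zero]
        apply mul_nonneg _ hrho
        unfold haar
        split_ifs with c1 c2
        · norm_num
        · exfalso
          apply hyB
          constructor
          · have : T * (a + 1 / (4 * T)) ≤ T * y := by
              have : T * (a + 1 / (4 * T)) = T * a + 1 / 4 := by field_simp
              rw [this]; linarith [c2.2]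
            exact le_of_mul_le_mul_left this hTp
          · have : T * y ≤ T * (a + 7 / (4 * T)) := by
              have : T * (a + 7 / (4 * T)) = T * a + 7 / 4 := by field_simp
              rw [this]; linarith [c2.1]
            exact le_of_mul_le_mul_left this hTp
        · norm_num
  have hmA : MeasurableSet A := measurableSet_Icc
  have hmB : MeasurableSet B := measurableSet_Icc
  have hiA : Integrable (A.indicator (fun _ => (2 : ℝ) ^ n / 4)) (volume.restrict (Ico (1 : ℝ) 2)) :=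
    (integrable_const _).indicator hmA
  have hiB : Integrable (B.indicator (fun _ => c)) (volume.restrict (Ico (1 : ℝ) 2)) :=
    (integrable_const _).indicator hmB
  have hirho : Integrable (fun y => haar (x - T * y) * rho n y) (volume.restrict (Ico (1 : ℝ) 2)) := by
    have h0 : Integrable (rho n) (volume.restrict (Ico (1 : ℝ) 2)) :=
      ((continuous_rho n).continuousOn.integrableOn_compact isCompact_Icc).mono_set Ico_subset_Icc_self
    apply h0.bdd_mul (c := 1)
    · exact (measurable_haar.comp (by fun_prop)).aestronglyMeasurable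
    · exact Filter.Eventually.of_forall fun y => by rw [Real.norm_eq_abs]; exact abs_haar_le _
  have hle : ∫ y in Ico (1 : ℝ) 2, (A.indicator (fun _ => (2 : ℝ) ^ n / 4) y - B.indicator (fun _ => c) y)
      ≤ ∫ y in Ico (1 : ℝ) 2, haar (x - T * y) * rho n y :=
    setIntegral_mono_on (hiA.sub hiB) hirho measurableSet_Ico hpt
  refine le_trans ?_ hle
  rw [integral_sub hiA hiB, integral_indicator_const _ hmA, integral_indicator_const _ hmB]
  have hvA : (volume.restrict (Ico (1 : ℝ) 2)).real A = 2 * w := by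
    rw [measureReal_restrict_apply hmA, inter_eq_left.mpr hAsub, hA, Real.volume_real_Icc_of_le (by linarith)]
    ring
  have hvB : (volume.restrict (Ico (1 : ℝ) 2)).real B ≤ 3 / (2 * T) := by
    rw [measureReal_restrict_apply hmB]
    refine (measureReal_mono inter_subset_left (by rw [hB]; exact measure_Icc_lt_top.ne)).trans ?_
    rw [hB, Real.volume_real_Icc_of_le (by
      have : 1 / (4 * T) ≤ 7 / (4 * T) := by
        apply div_le_div_of_nonneg_right (by norm_num) (by positivity)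
      linarith)]
    apply le_of_eq; field_simp; ring
  rw [hvA, smul_eq_mul, smul_eq_mul]
  have h6 : (volume.restrict (Ico (1 : ℝ) 2)).real B * c ≤ 3 / (2 * T) * c :=
    mul_le_mul_of_nonneg_right hvB hcp.le
  have h7 : 3 / (2 * T) * c ≤ 3 / (512 * 16 ^ n) := by
    rw [hc]
    have : 3 / (2 * T) * (T ^ 2 / (2 ^ n * (16 ^ n) ^ 2)) = 3 * T / (2 * (2 ^ n * (16 ^ n) ^ 2)) := by
      field_simp
    rw [this, div_le_div_iff₀ (by positivity) (by positivity)]
    have : T * 256 * 16 ^ n ≤ 2 ^ n * 16 ^ n * 16 ^ n := by nlinarith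
    nlinarith
  have h8 : 2 * w * (2 ^ n / 4) = 8 / (512 * 16 ^ n) := by
    rw [hw]; field_simp; norm_num
  rw [h8]
  have h9 : (1 : ℝ) / (128 * 16 ^ n) = 4 / (512 * 16 ^ n) := by
    rw [div_eq_div_iff (by positivity) (by positivity)]; ring
  rw [h9]
  have h10 : (8 : ℝ) / (512 * 16 ^ n) - 3 / (512 * 16 ^ n) = 5 / (512 * 16 ^ n) := by
    rw [← sub_div]; norm_num
  have h11 : (4 : ℝ) / (512 * 16 ^ n) ≤ 5 / (512 * 16 ^ n) := by
    apply div_le_div_of_nonneg_right (by norm_num) (by positivity)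
  linarith

/-- good set at scale `2^k` -/
def EE (n k : ℕ) : Set ℝ := ⋃ i ∈ Finset.Ioo (16 ^ n) (4 * 16 ^ n),
  Icc ((2 : ℝ) ^ k * cen n i + 1 / 4) ((2 : ℝ) ^ k * cen n i + 3 / 4)

lemma measurableSet_EE (n k : ℕ) : MeasurableSet (EE n k) := by
  unfold EE
  exact Finset.measurableSet_biUnion _ fun i _ => measurableSet_Icc

lemma EE_conv (n k : ℕ) (hk1 : 4 * n + 5 ≤ k) (hk2 : k + 8 ≤ 5 * n) (x : ℝ) (hx : x ∈ EE n k) :
    1 / (128 * (16 : ℝ) ^ n) ≤ ∫ y in Ico (1 : ℝ) 2, haar (x - 2 ^ k * y) * rho n y := by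
  unfold EE at hx
  simp only [mem_iUnion, Finset.mem_Ioo] at hx
  obtain ⟨i, hi, hx⟩ := hx
  exact conv_lower n i k x hi.1 hi.2 hk1 hk2 hx.1 hx.2

lemma EE_sub (n k : ℕ) (hk1 : 4 * n + 5 ≤ k) (x : ℝ) (hx : x ∈ EE n k) :
    (2 : ℝ) ^ k + 1 < x ∧ x < 2 ^ (k + 1) - 1 := by
  unfold EE at hx
  simp only [mem_iUnion, Finset.mem_Ioo] at hx
  obtain ⟨i, hi, hx⟩ := hx
  have hN : (0 : ℝ) < 16 ^ n := by positivity
  have hT1 : 32 * (16 : ℝ) ^ n ≤ 2 ^ k := by
    calc (32 : ℝ) * 16 ^ n = 2 ^ (4 * n + 5) := by rw [pow_add, pow_mul]; norm_num; ring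
      _ ≤ 2 ^ k := pow_le_pow_right₀ (by norm_num) hk1
  have hlow := cen_low n i hi.1 hi.2
  have hhigh := cen_high n i hi.2
  have ha1 := cen_gt_one n i hi.1
  have ha2 := cen_lt_two n i hi.2
  rw [pow_succ]
  constructor
  · have : 32 * 16 ^ n * (cen n i - 1) ≤ 2 ^ k * (cen n i - 1) :=
      mul_le_mul_of_nonneg_right hT1 (by linarith)
    linarith [hx.1]
  · have : 32 * 16 ^ n * (2 - cen n i) ≤ 2 ^ k * (2 - cen n i) :=
      mul_le_mul_of_nonneg_right hT1 (by linarith)
    linarith [hx.2]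

lemma EE_volume (n k : ℕ) (hk1 : 4 * n + 5 ≤ k) : ENNReal.ofReal (16 ^ n) ≤ volume (EE n k) := by
  have hN : (0 : ℝ) < 16 ^ n := by positivity
  have hT1 : 32 * (16 : ℝ) ^ n ≤ 2 ^ k := by
    calc (32 : ℝ) * 16 ^ n = 2 ^ (4 * n + 5) := by rw [pow_add, pow_mul]; norm_num; ring
      _ ≤ 2 ^ k := pow_le_pow_right₀ (by norm_num) hk1
  unfold EE
  rw [measure_biUnion_finset]
  · have : ∀ i ∈ Finset.Ioo (16 ^ n) (4 * 16 ^ n),
        volume (Icc ((2 : ℝ) ^ k * cen n i + 1 / 4) ((2 : ℝ) ^ k * cen n i + 3 / 4)) =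
          ENNReal.ofReal (1 / 2) := by
      intro i _
      rw [Real.volume_Icc]; congr 1; ring
    rw [Finset.sum_congr rfl this, Finset.sum_const, Nat.card_Ioo, nsmul_eq_mul]
    have h16 : 1 ≤ 16 ^ n := Nat.one_le_pow _ _ (by norm_num)
    have hcard : ((4 * 16 ^ n - 16 ^ n - 1 : ℕ) : ℝ≥0∞) = ENNReal.ofReal (3 * 16 ^ n - 1) := by
      have : 4 * 16 ^ n - 16 ^ n - 1 = 3 * 16 ^ n - 1 := by omega
      rw [this, ← ENNReal.ofReal_natCast]
      congr 1
      rw [Nat.cast_sub (by omega)]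
      push_cast; ring
    rw [hcard, ← ENNReal.ofReal_mul (by
      have : (1 : ℝ) ≤ 16 ^ n := one_le_pow₀ (by norm_num)
      linarith)]
    apply ENNReal.ofReal_le_ofReal
    have : (1 : ℝ) ≤ 16 ^ n := one_le_pow₀ (by norm_num)
    linarith
  · -- pairwise disjoint
    have key : ∀ i j : ℕ, i < j → j < 4 * 16 ^ n →
        Disjoint (Icc ((2 : ℝ) ^ k * cen n i + 1 / 4) ((2 : ℝ) ^ k * cen n i + 3 / 4))
          (Icc ((2 : ℝ) ^ k * cen n j + 1 / 4) ((2 : ℝ) ^ k * cen n j + 3 / 4)) := by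
      intro i j hij hj
      rw [Set.disjoint_left]
      intro x hx hx'
      have hs := cen_sep n i j hij hj
      have h1 : 32 * 16 ^ n * (cen n j - cen n i) ≤ 2 ^ k * (cen n j - cen n i) := by
        apply mul_le_mul_of_nonneg_right hT1
        by_contra hcon
        push Not at hcon
        nlinarith
      have := hx.2
      have := hx'.1
      nlinarith
    intro i hi j hj hij
    have hi' := Finset.mem_Ioo.mp hi
    have hj' := Finset.mem_Ioo.mp hj
    rcases lt_or_gt_of_ne hij with h | h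
    · exact key i j h hj'.2
    · exact (key j i h hi'.2).symm
  · intro i _; exact measurableSet_Icc

end Pool.Agent.Helper328.Mf
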