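import Pool.Agent.Helper328.MfC

set_option autoImplicit false
open MeasureTheory Set
open scoped ENNReal NNReal Real

namespace Pool.Agent.Helper328.Mf

/-- one-dimensional Gaussian -/
noncomputable def gau (y : ℝ) : ℝ := Real.exp (-π * y ^ 2)

lemma continuous_gau : Continuous gau := by unfold gau; fun_prop

lemma gau_pos (y : ℝ) : 0 < gau y := Real.exp_pos _

lemma integrable_gau : Integrable gau := by
  have := integrable_exp_neg_mul_sq Real.pi_pos
  exact this

lemma integral_gau : ∫ y, gau y = 1 := by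
  have := integral_gaussian π
  unfold gau
  rw [this, div_self Real.pi_ne_zero, Real.sqrt_one]

lemma exp_diff (a b m : ℝ) (ha : m ≤ a) (hb : m ≤ b) :
    |Real.exp (-a) - Real.exp (-b)| ≤ |a - b| * Real.exp (-m) := by
  wlog hab : a ≤ b with H
  · have := H b a m hb ha (by linarith)
    rw [abs_sub_comm, abs_sub_comm a b]
    exact this
  rw [abs_of_nonneg (by
    have := Real.exp_le_exp.mpr (by linarith : -b ≤ -a)
    linarith), abs_of_nonpos (by linarith)]
  have h1 : Real.exp (-b) = Real.exp (-a) * Real.exp (a - b) := by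
    rw [← Real.exp_add]; congr 1; ring
  have h2 : 1 + (a - b) ≤ Real.exp (a - b) := by
    have := Real.add_one_le_exp (a - b); linarith
  have h3 : Real.exp (-a) ≤ Real.exp (-m) := Real.exp_le_exp.mpr (by linarith)
  have h4 : 0 < Real.exp (-a) := Real.exp_pos _
  calc Real.exp (-a) - Real.exp (-b) = Real.exp (-a) * (1 - Real.exp (a - b)) := by rw [h1]; ring
    _ ≤ Real.exp (-a) * (-(a - b)) := by
      apply mul_le_mul_of_nonneg_left _ h4.le; linarith
    _ ≤ Real.exp (-m) * (-(a - b)) := by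
      apply mul_le_mul_of_nonneg_right h3; linarith
    _ = _ := by ring

/-- Gaussian average of the Haar function -/
noncomputable def KK (t x : ℝ) : ℝ := ∫ y, haar (x - t * y) * gau y

lemma integrable_haar_gau (t x : ℝ) : Integrable (fun y => haar (x - t * y) * gau y) := by
  apply integrable_gau.bdd_mul (c := 1)
  · exact (measurable_haar.comp (by fun_prop)).aestronglyMeasurable
  · exact Filter.Eventually.of_forall fun y => by rw [Real.norm_eq_abs]; exact abs_haar_le _

lemma KK_le_one (t x : ℝ) : |KK t x| ≤ 1 := by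
  unfold KK
  rw [← integral_gau, ← Real.norm_eq_abs]
  refine norm_integral_le_of_norm_le integrable_gau (Filter.Eventually.of_forall fun y => ?_)
  rw [norm_mul, Real.norm_eq_abs, Real.norm_eq_abs, abs_of_pos (gau_pos y)]
  have := abs_haar_le (x - t * y)
  have := gau_pos y
  nlinarith

lemma KK_eq (t x : ℝ) (ht : 0 < t) :
    KK t x = ∫ y in ((x - 1) / t)..(x / t), (gau y - gau (y + 1 / t)) := by
  unfold KK
  have h1 : (fun y => haar (x - t * y) * gau y) = fun y =>
      (Ioc ((x - 1) / t) (x / t)).indicator gau y - (Ioc (x / t) ((x + 1) / t)).indicator gau y := by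
    funext y
    rw [haar_eq]
    have e1 : (x - t * y ∈ Ico (0 : ℝ) 1) ↔ y ∈ Ioc ((x - 1) / t) (x / t) := by
      rw [mem_Ico, mem_Ioc, div_lt_iff₀ ht, le_div_iff₀ ht]
      constructor <;> rintro ⟨h1, h2⟩ <;> constructor <;> linarith
    have e2 : (x - t * y ∈ Ico (-1 : ℝ) 0) ↔ y ∈ Ioc (x / t) ((x + 1) / t) := by
      rw [mem_Ico, mem_Ioc, div_lt_iff₀ ht, le_div_iff₀ ht]
      constructor <;> rintro ⟨h1, h2⟩ <;> constructor <;> linarith
    simp only [indicator_apply, e1, e2]
    split_ifs <;> simp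
  rw [h1, integral_sub (integrable_gau.indicator measurableSet_Ioc) (integrable_gau.indicator measurableSet_Ioc),
    integral_indicator measurableSet_Ioc, integral_indicator measurableSet_Ioc,
    ← intervalIntegral.integral_of_le (by apply div_le_div_of_nonneg_right (by linarith) ht.le),
    ← intervalIntegral.integral_of_le (by apply div_le_div_of_nonneg_right (by linarith) ht.le)]
  have hc2 : Continuous fun y => gau (y + 1 / t) := continuous_gau.comp (by fun_prop)
  rw [intervalIntegral.integral_sub (continuous_gau.intervalIntegrable _ _)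
    (hc2.intervalIntegrable _ _)]
  congr 1
  rw [intervalIntegral.integral_comp_add_right (fun y => gau y) (1 / t)]
  congr 1
  · ring
  · ring

lemma KK_bound_far (t x : ℝ) (ht : 0 < t) (hx : 2 ≤ |x|) : |KK t x| ≤ 60 / x ^ 2 := by
  have hxp : 0 < |x| := by linarith
  rw [KK_eq t x ht, ← Real.norm_eq_abs]
  set r := |x| / t with hr
  have hrp : 0 < r := by positivity
  set B : ℝ := π * (3 * |x| / t ^ 2) * Real.exp (-(π * (r / 2) ^ 2)) with hB
  have hle : (x - 1) / t ≤ x / t := div_le_div_of_nonneg_right (by linarith) ht.le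
  have hbd : ∀ y ∈ uIoc ((x - 1) / t) (x / t), ‖gau y - gau (y + 1 / t)‖ ≤ B := by
    intro y hy
    rw [uIoc_of_le hle] at hy
    have hy1 : x - 1 < y * t := by
      have := hy.1; rwa [div_lt_iff₀ ht] at this
    have hy2 : y * t ≤ x := by
      have := hy.2; rwa [le_div_iff₀ ht] at this
    have habs1 : |x| / 2 ≤ |y * t| := by
      rcases abs_cases x with ⟨h1, h2⟩ | ⟨h1, h2⟩ <;> rcases abs_cases (y * t) with ⟨h3, h4⟩ | ⟨h3, h4⟩ <;> linarith
    have habs2 : |x| / 2 ≤ |y * t + 1| := by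
      rcases abs_cases x with ⟨h1, h2⟩ | ⟨h1, h2⟩ <;> rcases abs_cases (y * t + 1) with ⟨h3, h4⟩ | ⟨h3, h4⟩ <;> linarith
    have habs3 : |2 * (y * t) + 1| ≤ 3 * |x| := by
      rcases abs_cases x with ⟨h1, h2⟩ | ⟨h1, h2⟩ <;> rcases abs_cases (2 * (y * t) + 1) with ⟨h3, h4⟩ | ⟨h3, h4⟩ <;> linarith
    have hm1 : π * (r / 2) ^ 2 ≤ π * y ^ 2 := by
      apply mul_le_mul_of_nonneg_left _ Real.pi_pos.le
      rw [← sq_abs y]
      apply pow_le_pow_left₀ (by positivity)
      rw [hr, div_div, div_le_iff₀ (by positivity)]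
      rw [abs_mul, abs_of_pos ht] at habs1
      linarith
    have hm2 : π * (r / 2) ^ 2 ≤ π * (y + 1 / t) ^ 2 := by
      apply mul_le_mul_of_nonneg_left _ Real.pi_pos.le
      rw [← sq_abs (y + 1 / t)]
      apply pow_le_pow_left₀ (by positivity)
      rw [hr, div_div, div_le_iff₀ (by positivity)]
      have : |y * t + 1| = |y + 1 / t| * t := by
        rw [show y * t + 1 = (y + 1 / t) * t by field_simp, abs_mul, abs_of_pos ht]
      rw [this] at habs2
      linarith
    have h := exp_diff (π * y ^ 2) (π * (y + 1 / t) ^ 2) (π * (r / 2) ^ 2) hm1 hm2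
    unfold gau
    rw [Real.norm_eq_abs, neg_mul, neg_mul]
    refine h.trans ?_
    rw [hB]
    apply mul_le_mul_of_nonneg_right _ (Real.exp_pos _).le
    have : π * y ^ 2 - π * (y + 1 / t) ^ 2 = -(π * ((2 * (y * t) + 1) / t ^ 2)) := by
      field_simp; ring
    rw [this, abs_neg, abs_mul, abs_of_pos Real.pi_pos, abs_div, abs_of_pos (by positivity : (0 : ℝ) < t ^ 2)]
    apply mul_le_mul_of_nonneg_left _ Real.pi_pos.le
    exact div_le_div_of_nonneg_right habs3 (by positivity)
  have h1 := intervalIntegral.norm_integral_le_of_norm_le_const hbd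
  refine h1.trans ?_
  have h2 : |x / t - (x - 1) / t| = 1 / t := by
    rw [← sub_div, sub_sub_cancel, abs_of_pos (by positivity)]
  rw [h2]
  -- r^3 exp(-pi r^2/4) ≤ 5
  have h3 : r ^ 3 * Real.exp (-(π * (r / 2) ^ 2)) ≤ 5 := by
    rw [Real.exp_neg, ← div_eq_mul_inv, div_le_iff₀ (Real.exp_pos _)]
    have hu : 3 / 4 * r ^ 2 ≤ π * (r / 2) ^ 2 := by
      have := Real.pi_gt_three
      nlinarith [sq_nonneg r]
    have he1 : 1 ≤ Real.exp (π * (r / 2) ^ 2) := Real.one_le_exp (by positivity)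
    have he2 : (3 / 4 * r ^ 2) ^ 2 / 2 ≤ Real.exp (π * (r / 2) ^ 2) := by
      have := Real.quadratic_le_exp_of_nonneg (x := π * (r / 2) ^ 2) (by positivity)
      have h5 : (3 / 4 * r ^ 2) ^ 2 ≤ (π * (r / 2) ^ 2) ^ 2 := pow_le_pow_left₀ (by positivity) hu 2
      have h6 : 0 ≤ π * (r / 2) ^ 2 := by positivity
      linarith
    have hr3 : r ^ 3 ≤ 1 + r ^ 4 := by
      rcases le_total r 1 with h | h
      · have : r ^ 3 ≤ 1 := pow_le_one₀ hrp.le h
        have : 0 ≤ r ^ 4 := by positivity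
        linarith
      · have : r ^ 3 ≤ r ^ 4 := pow_le_pow_right₀ h (by norm_num)
        linarith
    have he3 : (3 / 4 * r ^ 2) ^ 2 / 2 = 9 / 32 * r ^ 4 := by ring
    rw [he3] at he2
    linarith
  have h4 : B * (1 / t) = 3 * π / x ^ 2 * (r ^ 3 * Real.exp (-(π * (r / 2) ^ 2))) := by
    rw [hB, hr, ← sq_abs x]
    field_simp
  rw [h4]
  have hpi := Real.pi_le_four
  have hx2 : 0 < x ^ 2 := by rw [← sq_abs]; positivity
  calc 3 * π / x ^ 2 * (r ^ 3 * Real.exp (-(π * (r / 2) ^ 2))) ≤ 3 * π / x ^ 2 * 5 := by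
        apply mul_le_mul_of_nonneg_left h3; positivity
    _ ≤ 3 * 4 / x ^ 2 * 5 := by gcongr
    _ = 60 / x ^ 2 := by ring

lemma KK_bound (t x : ℝ) (ht : 0 < t) : |KK t x| ≤ 75 * (1 + x ^ 2)⁻¹ := by
  have h1 : (0 : ℝ) < 1 + x ^ 2 := by positivity
  rcases le_or_gt 2 |x| with hx | hx
  · refine (KK_bound_far t x ht hx).trans ?_
    have hx4 : 4 ≤ x ^ 2 := by rw [← sq_abs]; nlinarith
    rw [← div_eq_mul_inv, div_le_div_iff₀ (by linarith) h1]
    linarith
  · refine (KK_le_one t x).trans ?_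
    have hx4 : x ^ 2 < 4 := by rw [← sq_abs]; nlinarith [abs_nonneg x]
    rw [← div_eq_mul_inv, le_div_iff₀ h1]
    linarith

end Pool.Agent.Helper328.Mf
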