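import Pool.Agent.Helper328.MfD

set_option autoImplicit false
open MeasureTheory Set
open scoped ENNReal NNReal Real

namespace Pool.Agent.Helper328.Mf

/-- one-dimensional block -/
noncomputable def nu (n : ℕ) : Measure ℝ :=
  (volume.restrict (Ico (1 : ℝ) 2)).withDensity (fun y => ENNReal.ofReal (rho n y))

lemma integrable_rho (n : ℕ) : Integrable (rho n) (volume.restrict (Ico (1 : ℝ) 2)) :=
  ((continuous_rho n).continuousOn.integrableOn_compact isCompact_Icc).mono_set Ico_subset_Icc_self

instance (n : ℕ) : IsFiniteMeasure (nu n) := by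
  unfold nu
  exact isFiniteMeasure_withDensity_ofReal (integrable_rho n).2

lemma nu_compl (n : ℕ) : nu n (Ico (1 : ℝ) 2)ᶜ = 0 := by
  unfold nu
  apply withDensity_absolutelyContinuous
  rw [Measure.restrict_apply measurableSet_Ico.compl]
  simp

section
variable {𝕜 : Type} [RCLike 𝕜]

lemma integral_nu (n : ℕ) (g : ℝ → 𝕜) :
    ∫ y, g y ∂(nu n) = ∫ y in Ico (1 : ℝ) 2, rho n y • g y := by
  unfold nu
  rw [integral_withDensity_eq_integral_toReal_smul]
  · apply integral_congr_ae
    filter_upwards with y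
    rw [ENNReal.toReal_ofReal (rho_nonneg n y)]
  · exact (continuous_rho n).measurable.ennreal_ofReal
  · filter_upwards with y
    exact ENNReal.ofReal_lt_top

end

lemma integral_nu_ee (n : ℕ) (xi : ℝ) : ∫ y, ee (-(xi * y)) ∂(nu n) = FF n xi := by
  rw [integral_nu, FF, intervalIntegral.integral_of_le (by norm_num), integral_Ico_eq_integral_Ioc]
  apply integral_congr_ae
  filter_upwards with y
  rw [Complex.real_smul, mul_comm]

lemma integral_nu_haar (n : ℕ) (x T : ℝ) : ∫ y, haar (x - T * y) ∂(nu n) =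
    ∫ y in Ico (1 : ℝ) 2, haar (x - T * y) * rho n y := by
  rw [integral_nu]
  apply integral_congr_ae
  filter_upwards with y
  rw [smul_eq_mul, mul_comm]

lemma nu_mass (n : ℕ) : (nu n).real univ ≤ 4 := by
  have h := norm_FF_small n 0
  rw [← integral_nu_ee] at h
  simp only [zero_mul, neg_zero, ee_zero] at h
  rw [integral_const, norm_smul, norm_one, mul_one, Real.norm_eq_abs, abs_of_nonneg measureReal_nonneg] at h
  exact h

lemma norm_integral_nu_le (n : ℕ) (g : ℝ → ℂ) (hg : ∀ y, ‖g y‖ ≤ 1) : ‖∫ y, g y ∂(nu n)‖ ≤ 4 := by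
  have := norm_integral_le_of_norm_le_const (μ := nu n) (C := 1) (Filter.Eventually.of_forall hg)
  rw [one_mul] at this
  exact this.trans (nu_mass n)

variable (d : ℕ)

/-- scaling map into Euclidean space -/
noncomputable def scl (j : ℕ) (y : Fin d → ℝ) : EuclideanSpace ℝ (Fin d) :=
  WithLp.toLp 2 (fun i => (1 / 4 : ℝ) ^ j * y i)

lemma measurable_scl (j : ℕ) : Measurable (scl d j) := by
  unfold scl
  exact (WithLp.measurable_toLp 2 _).comp (by fun_prop)

/-- The `j`-th piece of the measure -/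
noncomputable def piece (j : ℕ) : Measure (EuclideanSpace ℝ (Fin d)) :=
  (Measure.pi (fun _ : Fin d => nu (16 ^ j))).map (scl d j)

/-- The measure of the counterexample. -/
noncomputable def mu : Measure (EuclideanSpace ℝ (Fin d)) :=
  Measure.sum (fun j : ℕ => ENNReal.ofReal ((1 / 4 : ℝ) ^ j) • piece d j)

lemma piece_univ (j : ℕ) : piece d j univ ≤ ENNReal.ofReal (4 ^ d) := by
  unfold piece
  rw [Measure.map_apply (measurable_scl d j) MeasurableSet.univ, preimage_univ, Measure.pi_univ]
  calc ∏ i : Fin d, nu (16 ^ j) univ ≤ ∏ i : Fin d, ENNReal.ofReal 4 := by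
        apply Finset.prod_le_prod'
        intro i _
        rw [← ENNReal.ofReal_toReal (measure_ne_top (nu (16 ^ j)) univ)]
        exact ENNReal.ofReal_le_ofReal (nu_mass _)
    _ = ENNReal.ofReal (4 ^ d) := by
        rw [Finset.prod_const, Finset.card_univ, Fintype.card_fin, ENNReal.ofReal_pow (by norm_num)]

lemma summable_w : Summable (fun j : ℕ => (1 / 4 : ℝ) ^ j) :=
  summable_geometric_of_lt_one (by norm_num) (by norm_num)

instance : IsFiniteMeasure (mu d) := by
  constructor
  unfold mu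
  rw [Measure.sum_apply _ MeasurableSet.univ]
  calc ∑' j : ℕ, (ENNReal.ofReal ((1 / 4 : ℝ) ^ j) • piece d j) univ
      ≤ ∑' j : ℕ, ENNReal.ofReal ((1 / 4 : ℝ) ^ j) * ENNReal.ofReal (4 ^ d) := by
        apply ENNReal.tsum_le_tsum
        intro j
        rw [Measure.smul_apply, smul_eq_mul]
        gcongr
        exact piece_univ d j
    _ = (∑' j : ℕ, ENNReal.ofReal ((1 / 4 : ℝ) ^ j)) * ENNReal.ofReal (4 ^ d) := ENNReal.tsum_mul_right
    _ < ⊤ := by
        apply ENNReal.mul_lt_top _ ENNReal.ofReal_lt_top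
        rw [← ENNReal.ofReal_tsum_of_nonneg (fun j => by positivity) summable_w]
        exact ENNReal.ofReal_lt_top

/-- the support box -/
def box : Set (EuclideanSpace ℝ (Fin d)) :=
  (WithLp.ofLp) ⁻¹' (Set.pi univ (fun _ : Fin d => Icc (0 : ℝ) 2))

lemma isCompact_box : IsCompact (box d) := by
  have h : IsCompact (Set.pi univ (fun _ : Fin d => Icc (0 : ℝ) 2)) :=
    isCompact_univ_pi fun _ => isCompact_Icc
  have h2 := h.image (PiLp.continuous_toLp 2 (fun _ : Fin d => ℝ))
  have : box d = WithLp.toLp 2 '' (Set.pi univ (fun _ : Fin d => Icc (0 : ℝ) 2)) := by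
    ext x
    constructor
    · intro hx
      exact ⟨WithLp.ofLp x, hx, rfl⟩
    · rintro ⟨y, hy, rfl⟩
      exact hy
  rw [this]; exact h2

lemma mu_compl : mu d (box d)ᶜ = 0 := by
  unfold mu
  have hm : MeasurableSet (box d)ᶜ := (isCompact_box d).measurableSet.compl
  rw [Measure.sum_apply _ hm, ENNReal.tsum_eq_zero]
  intro j
  rw [Measure.smul_apply, smul_eq_mul]
  have : piece d j (box d)ᶜ = 0 := by
    unfold piece
    rw [Measure.map_apply (measurable_scl d j) hm]
    have hsub : (scl d j) ⁻¹' (box d)ᶜ ⊆ ⋃ i : Fin d, (Function.eval i) ⁻¹' (Ico (1 : ℝ) 2)ᶜ := by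
      intro y hy
      by_contra hcon
      apply hy
      simp only [mem_iUnion, mem_preimage, Function.eval, mem_compl_iff, not_exists, not_not] at hcon
      intro i _
      have h1 := hcon i
      have hj : (0 : ℝ) < (1 / 4) ^ j := by positivity
      have hj' : (1 / 4 : ℝ) ^ j ≤ 1 := pow_le_one₀ (by norm_num) (by norm_num)
      change (1 / 4 : ℝ) ^ j * y i ∈ Icc (0 : ℝ) 2
      constructor
      · have := h1.1; positivity
      · have := h1.1
        have := h1.2
        nlinarith
    refine measure_mono_null hsub ?_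
    rw [measure_iUnion_null_iff]
    intro i
    exact Measure.pi_eval_preimage_null _ (nu_compl _)
  rw [this, mul_zero]

section
variable {𝕜 : Type} [RCLike 𝕜]

lemma hasSum_prod (g : Fin d → ℝ → 𝕜) (hg : ∀ i, Measurable (g i)) (hb : ∀ i y, ‖g i y‖ ≤ 1) :
    HasSum (fun j : ℕ => ((1 / 4 : ℝ) ^ j) • ∏ i, ∫ y, g i ((1 / 4 : ℝ) ^ j * y) ∂(nu (16 ^ j)))
      (∫ y, ∏ i, g i (y i) ∂(mu d)) := by
  have hmeas : Measurable (fun y : EuclideanSpace ℝ (Fin d) => ∏ i, g i (y i)) := by
    apply Finset.measurable_prod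
    intro i _
    exact (hg i).comp ((measurable_pi_apply i).comp (WithLp.measurable_ofLp 2 _))
  have hint : Integrable (fun y : EuclideanSpace ℝ (Fin d) => ∏ i, g i (y i)) (mu d) := by
    apply Integrable.of_bound hmeas.aestronglyMeasurable 1
    filter_upwards with y
    rw [norm_prod]
    exact Finset.prod_le_one (fun i _ => norm_nonneg _) (fun i _ => hb i _)
  have h := hasSum_integral_measure (f := fun y : EuclideanSpace ℝ (Fin d) => ∏ i, g i (y i))
    (μ := fun j : ℕ => ENNReal.ofReal ((1 / 4 : ℝ) ^ j) • piece d j) hint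
  have heq : ∀ j : ℕ, ∫ y, ∏ i, g i (y i) ∂(ENNReal.ofReal ((1 / 4 : ℝ) ^ j) • piece d j) =
      ((1 / 4 : ℝ) ^ j) • ∏ i, ∫ y, g i ((1 / 4 : ℝ) ^ j * y) ∂(nu (16 ^ j)) := by
    intro j
    rw [integral_smul_measure, ENNReal.toReal_ofReal (by positivity)]
    congr 1
    unfold piece
    rw [integral_map (measurable_scl d j).aemeasurable hmeas.aestronglyMeasurable]
    have : (fun x : Fin d → ℝ => ∏ i, g i (scl d j x i)) = fun x : Fin d → ℝ => ∏ i, (fun z => g i ((1 / 4 : ℝ) ^ j * z)) (x i) := by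
      rfl
    rw [this]
    exact integral_fintype_prod_eq_prod (fun i => fun z => g i ((1 / 4 : ℝ) ^ j * z))
  simp only [heq] at h
  exact h

end

end Pool.Agent.Helper328.Mf
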