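import Pool.Agent.Helper328.MfE

set_option autoImplicit false
open MeasureTheory Set
open scoped ENNReal NNReal Real

namespace Pool.Agent.Helper328.Mf

variable (d : ℕ)

/-- Fourier transform of `mu`. -/
lemma fourier_mu (xi : EuclideanSpace ℝ (Fin d)) :
    HasSum (fun j : ℕ => ((1 / 4 : ℝ) ^ j) • ∏ i, FF (16 ^ j) ((1 / 4 : ℝ) ^ j * xi i))
      (∫ y, Complex.exp (((-2 * Real.pi * (inner ℝ y xi) : ℝ) : ℂ) * Complex.I) ∂(mu d)) := by
  have h := hasSum_prod d (fun i y => ee (-(xi i * y)))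
    (fun i => (continuous_ee.comp (by fun_prop)).measurable) (fun i y => le_of_eq (norm_ee _))
  have h1 : (fun y : EuclideanSpace ℝ (Fin d) => ∏ i, ee (-(xi i * y i))) = fun y =>
      Complex.exp (((-2 * Real.pi * (inner ℝ y xi) : ℝ) : ℂ) * Complex.I) := by
    funext y
    unfold ee
    rw [← Complex.exp_sum]
    congr 1
    rw [PiLp.inner_apply, ← Finset.sum_mul, ← Complex.ofReal_sum]
    congr 2
    rw [Finset.mul_sum]
    apply Finset.sum_congr rfl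
    intro i _
    simp only [RCLike.inner_apply, conj_trivial]
    ring
  rw [h1] at h
  have h2 : (fun j : ℕ => ((1 / 4 : ℝ) ^ j) • ∏ i, FF (16 ^ j) ((1 / 4 : ℝ) ^ j * xi i)) =
      (fun j : ℕ => ((1 / 4 : ℝ) ^ j) • ∏ i, ∫ y, ee (-(xi i * ((1 / 4 : ℝ) ^ j * y))) ∂(nu (16 ^ j))) := by
    funext j
    congr 1
    apply Finset.prod_congr rfl
    intro i _
    rw [← integral_nu_ee]
    congr 1
    funext y
    congr 1
    ring
  rw [h2]
  exact h

lemma fourier_decay (hd : 0 < d) : ∃ C ε : ℝ, 0 < ε ∧ ∀ ξ : EuclideanSpace ℝ (Fin d), ξ ≠ 0 →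
    ‖∫ y, Complex.exp (((-2 * Real.pi * (inner ℝ y ξ) : ℝ) : ℂ) * Complex.I) ∂(mu d)‖
      ≤ C * ‖ξ‖ ^ (-ε) := by
  refine ⟨14 * 4 ^ d * d, 1 / 5, by norm_num, ?_⟩
  intro ξ hξ
  have hnp : 0 < ‖ξ‖ := norm_pos_iff.mpr hξ
  -- a large coordinate
  have hcoord : ∃ i0 : Fin d, ‖ξ‖ ≤ d * |ξ i0| := by
    by_contra hcon
    push Not at hcon
    have hsum : ∑ i, |ξ i| < ‖ξ‖ := by
      have hdR : (0 : ℝ) < d := by exact_mod_cast hd
      have : Nonempty (Fin d) := ⟨⟨0, hd⟩⟩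
      calc ∑ i, |ξ i| < ∑ i : Fin d, ‖ξ‖ / d := by
            apply Finset.sum_lt_sum_of_nonempty Finset.univ_nonempty
            intro i _
            rw [lt_div_iff₀ hdR, mul_comm]
            exact hcon i
        _ = ‖ξ‖ := by
            rw [Finset.sum_const, Finset.card_univ, Fintype.card_fin, nsmul_eq_mul]
            field_simp
    have h2 : ‖ξ‖ ≤ ∑ i, |ξ i| := by
      rw [EuclideanSpace.norm_eq]
      rw [Real.sqrt_le_left (Finset.sum_nonneg fun i _ => abs_nonneg _)]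
      calc ∑ i, ‖ξ i‖ ^ 2 ≤ ∑ i, |ξ i| * ∑ j, |ξ j| := by
            apply Finset.sum_le_sum
            intro i _
            rw [Real.norm_eq_abs, sq]
            apply mul_le_mul_of_nonneg_left _ (abs_nonneg _)
            exact Finset.single_le_sum (f := fun j => |ξ j|) (fun j _ => abs_nonneg _) (Finset.mem_univ i)
        _ = (∑ i, |ξ i|) ^ 2 := by rw [← Finset.sum_mul, sq]
    linarith
  obtain ⟨i0, hi0⟩ := hcoord
  have hdR : (1 : ℝ) ≤ d := by exact_mod_cast hd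
  have hx0 : 0 < |ξ i0| := by
    by_contra hcon
    have : |ξ i0| = 0 := le_antisymm (not_lt.mp hcon) (abs_nonneg _)
    rw [this, mul_zero] at hi0
    linarith
  have hsumg : HasSum (fun j : ℕ => (7 * 4 ^ d * |ξ i0| ^ (-(1 / 5 : ℝ))) * (1 / 2 : ℝ) ^ j)
      ((7 * 4 ^ d * |ξ i0| ^ (-(1 / 5 : ℝ))) * 2) := hasSum_geometric_two.mul_left _
  have hmain := HasSum.norm_le_of_bounded (fourier_mu d ξ) hsumg (by
    intro j
    rw [norm_smul, norm_prod, Real.norm_eq_abs, abs_of_nonneg (by positivity : (0 : ℝ) ≤ (1 / 4) ^ j)]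
    have hj : (0 : ℝ) < (1 / 4) ^ j := by positivity
    rw [← Finset.mul_prod_erase Finset.univ _ (Finset.mem_univ i0)]
    have h1 : ∏ i ∈ Finset.univ.erase i0, ‖FF (16 ^ j) ((1 / 4 : ℝ) ^ j * ξ i)‖ ≤ 4 ^ d := by
      calc ∏ i ∈ Finset.univ.erase i0, ‖FF (16 ^ j) ((1 / 4 : ℝ) ^ j * ξ i)‖ ≤ ∏ i ∈ Finset.univ.erase i0, (4 : ℝ) := by
            apply Finset.prod_le_prod
            · intro i _; exact norm_nonneg _
            · intro i _; exact norm_FF_small _ _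
        _ = 4 ^ (d - 1) := by
            rw [Finset.prod_const, Finset.card_erase_of_mem (Finset.mem_univ _), Finset.card_univ, Fintype.card_fin]
        _ ≤ 4 ^ d := pow_le_pow_right₀ (by norm_num) (Nat.sub_le _ _)
    have h2 : ‖FF (16 ^ j) ((1 / 4 : ℝ) ^ j * ξ i0)‖ ≤ 7 * (2 ^ j * |ξ i0| ^ (-(1 / 5 : ℝ))) := by
      have hne : (1 / 4 : ℝ) ^ j * ξ i0 ≠ 0 := mul_ne_zero hj.ne' (abs_pos.mp hx0)
      refine (norm_FF_decay _ _ hne).trans ?_
      apply mul_le_mul_of_nonneg_left _ (by norm_num)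
      rw [abs_mul, abs_of_pos hj, Real.mul_rpow hj.le (abs_nonneg _)]
      apply mul_le_mul_of_nonneg_right _ (Real.rpow_nonneg (abs_nonneg _) _)
      -- ((1/4)^j)^(-1/5) ≤ 2^j
      have e1 : ((1 / 4 : ℝ) ^ j) = (4 ^ j)⁻¹ := by rw [one_div, inv_pow]
      rw [e1, Real.inv_rpow (by positivity), Real.rpow_neg (by positivity), inv_inv]
      calc ((4 : ℝ) ^ j) ^ (1 / 5 : ℝ) ≤ ((4 : ℝ) ^ j) ^ (1 / 2 : ℝ) := by
            apply Real.rpow_le_rpow_of_exponent_le (one_le_pow₀ (by norm_num)) (by norm_num)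
        _ = 2 ^ j := by
            rw [← Real.sqrt_eq_rpow, show (4 : ℝ) ^ j = (2 ^ j) ^ 2 by rw [← pow_mul, mul_comm, pow_mul]; norm_num,
              Real.sqrt_sq (by positivity)]
    calc (1 / 4 : ℝ) ^ j * (‖FF (16 ^ j) ((1 / 4 : ℝ) ^ j * ξ i0)‖ *
          ∏ i ∈ Finset.univ.erase i0, ‖FF (16 ^ j) ((1 / 4 : ℝ) ^ j * ξ i)‖)
        ≤ (1 / 4 : ℝ) ^ j * ((7 * (2 ^ j * |ξ i0| ^ (-(1 / 5 : ℝ)))) * 4 ^ d) := by
          apply mul_le_mul_of_nonneg_left _ hj.le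
          apply mul_le_mul h2 h1 (Finset.prod_nonneg fun i _ => norm_nonneg _) (by positivity)
      _ = (7 * 4 ^ d * |ξ i0| ^ (-(1 / 5 : ℝ))) * (1 / 2 : ℝ) ^ j := by
          have : (1 / 4 : ℝ) ^ j * 2 ^ j = (1 / 2) ^ j := by rw [← mul_pow]; norm_num
          rw [← this]; ring)
  refine hmain.trans ?_
  -- compare the coordinate with the norm
  have h3 : |ξ i0| ^ (-(1 / 5 : ℝ)) ≤ d * ‖ξ‖ ^ (-(1 / 5 : ℝ)) := by
    have hd0 : (0 : ℝ) < d := by linarith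
    have h4 : ‖ξ‖ / d ≤ |ξ i0| := by rw [div_le_iff₀ hd0]; linarith
    have h5 : |ξ i0| ^ (-(1 / 5 : ℝ)) ≤ (‖ξ‖ / d) ^ (-(1 / 5 : ℝ)) :=
      Real.rpow_le_rpow_of_nonpos (by positivity) h4 (by norm_num)
    refine h5.trans ?_
    rw [Real.div_rpow hnp.le hd0.le, div_eq_mul_inv, mul_comm]
    apply mul_le_mul_of_nonneg_right _ (Real.rpow_nonneg hnp.le _)
    rw [← Real.rpow_neg hd0.le, neg_neg]
    calc (d : ℝ) ^ (1 / 5 : ℝ) ≤ (d : ℝ) ^ (1 : ℝ) :=
          Real.rpow_le_rpow_of_exponent_le hdR (by norm_num)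
      _ = d := Real.rpow_one _
  calc 7 * 4 ^ d * |ξ i0| ^ (-(1 / 5 : ℝ)) * 2 ≤ 7 * 4 ^ d * (d * ‖ξ‖ ^ (-(1 / 5 : ℝ))) * 2 := by gcongr
    _ = 14 * 4 ^ d * d * ‖ξ‖ ^ (-(1 / 5 : ℝ)) := by ring

/-- the test function -/
noncomputable def atom (x : EuclideanSpace ℝ (Fin d)) : ℝ := ∏ i, haar (x i)

lemma conv_formula (x : EuclideanSpace ℝ (Fin d)) (k : ℤ) :
    HasSum (fun j : ℕ => ((1 / 4 : ℝ) ^ j) • ∏ i, ∫ y, haar (x i - (2 : ℝ) ^ k * ((1 / 4 : ℝ) ^ j * y)) ∂(nu (16 ^ j)))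
      (∫ y, atom d (x - ((2 : ℝ) ^ k) • y) ∂(mu d)) := by
  have h := hasSum_prod d (fun i y => haar (x i - (2 : ℝ) ^ k * y))
    (fun i => measurable_haar.comp (by fun_prop)) (fun i y => abs_haar_le _)
  exact h

/-- For `x` with all coordinates in `EE (16^j0) k`, the convolution at the scale `2^(k+2 j0)` is large. -/
lemma conv_large (hd : 0 < d) (j0 k : ℕ) (hk1 : 4 * 16 ^ j0 + 5 ≤ k) (hk2 : k + 8 ≤ 5 * 16 ^ j0)
    (x : EuclideanSpace ℝ (Fin d)) (hx : ∀ i, x i ∈ EE (16 ^ j0) k) :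
    (1 / 4 : ℝ) ^ j0 * (1 / (128 * (16 : ℝ) ^ (16 ^ j0))) ^ d ≤
      ∫ y, atom d (x - ((2 : ℝ) ^ ((k : ℤ) + 2 * (j0 : ℤ))) • y) ∂(mu d) := by
  have h := conv_formula d x ((k : ℤ) + 2 * (j0 : ℤ))
  have hk0 : (0 : ℝ) < 2 ^ k := by positivity
  have hscale : ∀ j : ℕ, ∀ y : ℝ, (2 : ℝ) ^ ((k : ℤ) + 2 * (j0 : ℤ)) * ((1 / 4 : ℝ) ^ j * y) =
      2 ^ k * ((4 : ℝ) ^ j0 * (1 / 4) ^ j) * y := by
    intro j y
    rw [zpow_add₀ (by norm_num), zpow_natCast, zpow_mul, zpow_natCast]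
    norm_num
    ring
  have hzero : ∀ j : ℕ, j ≠ j0 → ((1 / 4 : ℝ) ^ j) • ∏ i, ∫ y, haar (x i - (2 : ℝ) ^ ((k : ℤ) + 2 * (j0 : ℤ)) * ((1 / 4 : ℝ) ^ j * y)) ∂(nu (16 ^ j)) = 0 := by
    intro j hj
    have : ∏ i, ∫ y, haar (x i - (2 : ℝ) ^ ((k : ℤ) + 2 * (j0 : ℤ)) * ((1 / 4 : ℝ) ^ j * y)) ∂(nu (16 ^ j)) = 0 := by
      apply Finset.prod_eq_zero (Finset.mem_univ (⟨0, hd⟩ : Fin d))
      rw [integral_nu]
      rw [← integral_zero ℝ ℝ (μ := volume.restrict (Ico (1 : ℝ) 2))]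
      apply setIntegral_congr_fun measurableSet_Ico
      intro y hy
      simp only
      rw [hscale]
      obtain ⟨hx1, hx2⟩ := EE_sub _ _ hk1 _ (hx ⟨0, hd⟩)
      rw [pow_succ] at hx2
      have hz : haar (x ⟨0, hd⟩ - 2 ^ k * ((4 : ℝ) ^ j0 * (1 / 4) ^ j) * y) = 0 := by
        rcases lt_or_gt_of_ne hj with hlt | hgt
        · -- j < j0 : far to the right
          have h4 : (4 : ℝ) ≤ 4 ^ j0 * (1 / 4) ^ j := by
            obtain ⟨m, rfl⟩ := Nat.exists_eq_add_of_lt hlt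
            have : (4 : ℝ) ^ (j + m + 1) * (1 / 4) ^ j = 4 ^ (m + 1) := by
              rw [show j + m + 1 = j + (m + 1) by ring, pow_add, mul_right_comm, ← mul_pow]
              norm_num
            rw [this, pow_succ]
            have : (1 : ℝ) ≤ 4 ^ m := one_le_pow₀ (by norm_num)
            linarith
          have h5 : 2 ^ k * 4 ≤ 2 ^ k * ((4 : ℝ) ^ j0 * (1 / 4) ^ j) * y := by
            have h6 : 2 ^ k * 4 ≤ 2 ^ k * ((4 : ℝ) ^ j0 * (1 / 4) ^ j) := mul_le_mul_of_nonneg_left h4 hk0.le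
            have := hy.1
            nlinarith
          unfold haar
          rw [if_neg, if_neg]
          · rintro ⟨h7, _⟩; linarith
          · rintro ⟨h7, _⟩; linarith
        · -- j > j0
          have h4 : (4 : ℝ) ^ j0 * (1 / 4) ^ j ≤ 1 / 4 := by
            obtain ⟨m, rfl⟩ := Nat.exists_eq_add_of_lt hgt
            have : (4 : ℝ) ^ j0 * (1 / 4) ^ (j0 + m + 1) = (1 / 4) ^ (m + 1) := by
              rw [show j0 + m + 1 = j0 + (m + 1) by ring, pow_add, ← mul_assoc, ← mul_pow]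
              norm_num
            rw [this, pow_succ]
            have : (1 / 4 : ℝ) ^ m ≤ 1 := pow_le_one₀ (by norm_num) (by norm_num)
            linarith
          have h5 : 2 ^ k * ((4 : ℝ) ^ j0 * (1 / 4) ^ j) * y ≤ 2 ^ k * (1 / 4) * 2 := by
            apply mul_le_mul _ hy.2.le (by linarith [hy.1]) (by positivity)
            exact mul_le_mul_of_nonneg_left h4 hk0.le
          unfold haar
          rw [if_neg, if_neg]
          · rintro ⟨_, h7⟩; linarith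
          · rintro ⟨_, h7⟩; linarith
      rw [hz, smul_zero]
    rw [this, smul_zero]
  have hval := h.unique (hasSum_single j0 hzero)
  rw [hval, smul_eq_mul]
  apply mul_le_mul_of_nonneg_left _ (by positivity)
  rw [show (1 / (128 * (16 : ℝ) ^ (16 ^ j0))) ^ d = ∏ i : Fin d, (1 / (128 * (16 : ℝ) ^ (16 ^ j0))) by
    rw [Finset.prod_const, Finset.card_univ, Fintype.card_fin]]
  apply Finset.prod_le_prod
  · intro i _; positivity
  · intro i _
    have h1 : (fun y : ℝ => haar (x i - (2 : ℝ) ^ ((k : ℤ) + 2 * (j0 : ℤ)) * ((1 / 4 : ℝ) ^ j0 * y))) =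
        fun y => haar (x i - 2 ^ k * y) := by
      funext y
      rw [hscale]
      have : (4 : ℝ) ^ j0 * (1 / 4) ^ j0 = 1 := by rw [← mul_pow]; norm_num
      rw [this, mul_one]
    rw [h1, integral_nu_haar]
    exact EE_conv _ _ hk1 hk2 _ (hx i)

/-- product good sets -/
def PE (n k : ℕ) : Set (EuclideanSpace ℝ (Fin d)) :=
  (WithLp.ofLp) ⁻¹' (Set.pi univ (fun _ : Fin d => EE n k))

lemma measurableSet_PE (n k : ℕ) : MeasurableSet (PE d n k) := by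
  unfold PE
  exact (WithLp.measurable_ofLp 2 _) (MeasurableSet.univ_pi fun _ => measurableSet_EE n k)

lemma volume_PE (n k : ℕ) (hk1 : 4 * n + 5 ≤ k) :
    ENNReal.ofReal ((16 ^ n) ^ d) ≤ volume (PE d n k) := by
  unfold PE
  rw [(PiLp.volume_preserving_ofLp (Fin d)).measure_preimage
    (MeasurableSet.univ_pi fun _ => measurableSet_EE n k).nullMeasurableSet, volume_pi_pi]
  rw [ENNReal.ofReal_pow (by positivity), Finset.prod_const, Finset.card_univ, Fintype.card_fin]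
  gcongr
  exact EE_volume n k hk1

lemma PE_disjoint (hd : 0 < d) (n k l : ℕ) (hk : 4 * n + 5 ≤ k) (hl : 4 * n + 5 ≤ l) (hkl : k < l) :
    Disjoint (PE d n k) (PE d n l) := by
  rw [Set.disjoint_left]
  intro x hx hx'
  have h1 := (EE_sub n k hk _ (hx ⟨0, hd⟩ (mem_univ _))).2
  have h2 := (EE_sub n l hl _ (hx' ⟨0, hd⟩ (mem_univ _))).1
  have h3 : (2 : ℝ) ^ (k + 1) ≤ 2 ^ l := pow_le_pow_right₀ (by norm_num) hkl
  change x ⟨0, hd⟩ < _ at h1
  change _ < x ⟨0, hd⟩ at h2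
  linarith

lemma volume_union (hd : 0 < d) (n : ℕ) (hn : 13 ≤ n) :
    ENNReal.ofReal ((n - 12) * (16 ^ n) ^ d) ≤
      volume (⋃ k ∈ Finset.Icc (4 * n + 5) (5 * n - 8), PE d n k) := by
  rw [measure_biUnion_finset]
  · have hcard : (Finset.Icc (4 * n + 5) (5 * n - 8)).card = n - 12 := by
      rw [Nat.card_Icc]; omega
    calc ENNReal.ofReal ((n - 12) * (16 ^ n) ^ d) = ∑ k ∈ Finset.Icc (4 * n + 5) (5 * n - 8), ENNReal.ofReal ((16 ^ n) ^ d) := by
          rw [Finset.sum_const, hcard, nsmul_eq_mul, ENNReal.ofReal_mul (by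
            have : (13 : ℝ) ≤ n := by exact_mod_cast hn
            linarith)]
          congr 1
          rw [← ENNReal.ofReal_natCast]
          congr 1
          rw [Nat.cast_sub (by omega)]
          norm_num
      _ ≤ _ := by
          apply Finset.sum_le_sum
          intro k hk
          exact volume_PE d n k (Finset.mem_Icc.mp hk).1
  · intro k hk l hl hkl
    have hk' := Finset.mem_Icc.mp hk
    have hl' := Finset.mem_Icc.mp hl
    rcases lt_or_gt_of_ne hkl with h | h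
    · exact PE_disjoint d hd n k l hk'.1 hl'.1 h
    · exact (PE_disjoint d hd n l k hl'.1 hk'.1 h).symm
  · intro k _; exact measurableSet_PE d n k

lemma weak_fail (hd : 0 < d) (A : ℝ≥0) : ∃ s : ℝ, 0 < s ∧ (A : ℝ≥0∞) <
    ENNReal.ofReal s * volume {x : EuclideanSpace ℝ (Fin d) | ENNReal.ofReal s <
      ⨆ k : ℤ, ‖∫ y, atom d (x - ((2 : ℝ) ^ k) • y) ∂(mu d)‖ₑ} := by
  -- choose j
  obtain ⟨j0, hj0⟩ : ∃ j0 : ℕ, (A : ℝ) * (8 * 128 ^ d) < 4 ^ j0 := pow_unbounded_of_one_lt _ (by norm_num)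
  obtain ⟨j, hj1, hjA⟩ : ∃ j : ℕ, 1 ≤ j ∧ (A : ℝ) * (8 * 128 ^ d) < 4 ^ j := by
    refine ⟨j0 + 1, by omega, hj0.trans_le ?_⟩
    exact pow_le_pow_right₀ (by norm_num) (by omega)
  set n : ℕ := 16 ^ j with hn
  have hn16 : 16 ≤ n := by
    calc 16 = 16 ^ 1 := by norm_num
      _ ≤ 16 ^ j := Nat.pow_le_pow_right (by norm_num) hj1
  have hnR : (16 : ℝ) ≤ n := by exact_mod_cast hn16
  set L : ℝ := (1 / 4 : ℝ) ^ j * (1 / (128 * (16 : ℝ) ^ n)) ^ d with hL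
  have hLp : 0 < L := by positivity
  refine ⟨L / 2, by positivity, ?_⟩
  have hsub : (⋃ k ∈ Finset.Icc (4 * n + 5) (5 * n - 8), PE d n k) ⊆
      {x : EuclideanSpace ℝ (Fin d) | ENNReal.ofReal (L / 2) <
      ⨆ k : ℤ, ‖∫ y, atom d (x - ((2 : ℝ) ^ k) • y) ∂(mu d)‖ₑ} := by
    intro x hx
    simp only [mem_iUnion, Finset.mem_Icc] at hx
    obtain ⟨k, ⟨hk1, hk2⟩, hxk⟩ := hx
    have hlarge := conv_large d hd j k hk1 (by omega) x (fun i => hxk i (mem_univ _))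
    rw [Set.mem_ofPred_eq]
    have h1 : ENNReal.ofReal L ≤ ‖∫ y, atom d (x - ((2 : ℝ) ^ ((k : ℤ) + 2 * (j : ℤ))) • y) ∂(mu d)‖ₑ := by
      rw [Real.enorm_eq_ofReal_abs]
      apply ENNReal.ofReal_le_ofReal
      exact hlarge.trans (le_abs_self _)
    refine lt_of_lt_of_le ?_ (le_iSup_of_le ((k : ℤ) + 2 * (j : ℤ)) h1)
    rw [ENNReal.ofReal_lt_ofReal_iff hLp]
    linarith
  have hvol := (volume_union d hd n (by omega)).trans (measure_mono hsub)
  calc (A : ℝ≥0∞) = ENNReal.ofReal (A : ℝ) := by rw [ENNReal.ofReal_coe_nnreal]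
    _ < ENNReal.ofReal (L / 2 * ((n - 12) * (16 ^ n) ^ d)) := by
        rw [ENNReal.ofReal_lt_ofReal_iff (by
          have : (0 : ℝ) < n - 12 := by linarith
          positivity)]
        have h1 : L / 2 * ((n - 12) * (16 ^ n) ^ d) = (1 / 4 : ℝ) ^ j * (n - 12) / (2 * 128 ^ d) := by
          rw [hL, show (1 / (128 * (16 : ℝ) ^ n)) ^ d = 1 / (128 ^ d * (16 ^ n) ^ d) by
            rw [div_pow, one_pow, mul_pow]]
          field_simp
        rw [h1, lt_div_iff₀ (by positivity)]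
        have h2 : (n : ℝ) / 4 ≤ n - 12 := by linarith
        have h3 : (1 / 4 : ℝ) ^ j * (n / 4) = 4 ^ j / 4 := by
          rw [hn]; push_cast
          rw [show (16 : ℝ) ^ j = 4 ^ j * 4 ^ j by rw [← mul_pow]; norm_num]
          have : (1 / 4 : ℝ) ^ j * 4 ^ j = 1 := by rw [← mul_pow]; norm_num
          calc (1 / 4 : ℝ) ^ j * (4 ^ j * 4 ^ j / 4) = ((1 / 4 : ℝ) ^ j * 4 ^ j) * 4 ^ j / 4 := by ring
            _ = 4 ^ j / 4 := by rw [this, one_mul]
        have h4 : (1 / 4 : ℝ) ^ j * (n / 4) ≤ (1 / 4 : ℝ) ^ j * (n - 12) :=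
          mul_le_mul_of_nonneg_left h2 (by positivity)
        rw [h3] at h4
        linarith
    _ = ENNReal.ofReal (L / 2) * ENNReal.ofReal ((n - 12) * (16 ^ n) ^ d) := by
        rw [ENNReal.ofReal_mul (by positivity)]
    _ ≤ _ := by gcongr

end Pool.Agent.Helper328.Mf
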