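import Mathlib

set_option autoImplicit false

namespace Pool.Agent.Helper328.SimplexExist

open Finset

variable {ι κ : Type} [Fintype ι] [DecidableEq ι] [Fintype κ] [DecidableEq κ]

/-- block sums -/
noncomputable def blk (c : ι → κ) : EuclideanSpace ℝ ι →ₗ[ℝ] (κ → ℝ) where
  toFun w a := ∑ i ∈ univ.filter (fun i => c i = a), w i
  map_add' w w' := by
    funext a
    simp [Finset.sum_add_distrib]
  map_smul' t w := by
    funext a
    simp [Finset.mul_sum]

lemma blk_surj (c : ι → κ) (hc : Function.Surjective c) : Function.Surjective (blk c) := by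
  intro y
  obtain ⟨s, hs⟩ := hc.hasRightInverse
  refine ⟨WithLp.toLp 2 (fun i => if s (c i) = i then y (c i) else 0), ?_⟩
  funext a
  simp only [blk, LinearMap.coe_mk, AddHom.coe_mk]
  rw [Finset.sum_eq_single (s a)]
  · simp [hs a]
  · intro i hi hne
    rw [Finset.mem_filter] at hi
    rw [if_neg]
    intro h
    apply hne
    rw [← h, hi.2]
  · intro h
    exact absurd (by simp [hs a]) h

lemma exists_simplices (c : ι → κ) (n : κ → ℕ)
    (hn : ∀ a, (univ.filter (fun i => c i = a)).card = n a) (h2 : ∀ a, 2 ≤ n a) (d : ℕ)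
    (hd : Fintype.card ι = d + Fintype.card κ) :
    ∃ x : ι → EuclideanSpace ℝ (Fin d), ∀ i j,
      inner ℝ (x i) (x j) = if i = j then 1 else if c i = c j then -1 / ((n (c i) : ℝ) - 1) else 0 := by
  classical
  have hsurj : Function.Surjective c := by
    intro a
    have : (univ.filter (fun i => c i = a)).Nonempty := by
      rw [← Finset.card_pos, hn a]
      have := h2 a
      omega
    obtain ⟨i, hi⟩ := this
    exact ⟨i, (Finset.mem_filter.1 hi).2⟩
  have hker : Module.finrank ℝ (LinearMap.ker (blk c)) = d := by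
    have h := LinearMap.finrank_range_add_finrank_ker (blk c)
    rw [LinearMap.range_eq_top.2 (blk_surj c hsurj), finrank_top, finrank_euclideanSpace,
      Module.finrank_fintype_fun_eq_card] at h
    omega
  let b : OrthonormalBasis (Fin d) ℝ (LinearMap.ker (blk c)) :=
    (stdOrthonormalBasis ℝ (LinearMap.ker (blk c))).reindex (finCongr hker)
  -- the vectors
  let u : ι → EuclideanSpace ℝ ι := fun i => WithLp.toLp 2 (fun j =>
    √((n (c i) : ℝ) / (n (c i) - 1)) * ((if j = i then 1 else 0) - (if c j = c i then 1 / (n (c i) : ℝ) else 0)))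
  have hn0 : ∀ a, (2 : ℝ) ≤ n a := fun a => by exact_mod_cast h2 a
  have hu : ∀ i, u i ∈ LinearMap.ker (blk c) := by
    intro i
    rw [LinearMap.mem_ker]
    funext a
    simp only [blk, LinearMap.coe_mk, AddHom.coe_mk, u, Pi.zero_apply]
    rw [← Finset.mul_sum, Finset.sum_sub_distrib]
    by_cases h : c i = a
    · subst h
      have h1 : ∑ j ∈ univ.filter (fun j => c j = c i), (if j = i then (1 : ℝ) else 0) = 1 := by
        rw [Finset.sum_ite_eq' ]
        simp
      have h3 : ∑ j ∈ univ.filter (fun j => c j = c i), (if c j = c i then 1 / (n (c i) : ℝ) else 0)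
          = 1 := by
        rw [Finset.sum_congr rfl (g := fun _ => 1 / (n (c i) : ℝ))]
        · rw [Finset.sum_const, hn, nsmul_eq_mul]
          have := hn0 (c i)
          field_simp
        · intro j hj
          rw [if_pos (Finset.mem_filter.1 hj).2]
      rw [h1, h3]; ring
    · have h1 : ∑ j ∈ univ.filter (fun j => c j = a), (if j = i then (1 : ℝ) else 0) = 0 := by
        rw [Finset.sum_ite_eq']
        simp [h]
      have h3 : ∑ j ∈ univ.filter (fun j => c j = a), (if c j = c i then 1 / (n (c i) : ℝ) else 0)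
          = 0 := by
        apply Finset.sum_eq_zero
        intro j hj
        rw [if_neg]
        rw [(Finset.mem_filter.1 hj).2]
        exact fun h' => h h'.symm
      rw [h1, h3]; ring
  refine ⟨fun i => b.repr ⟨u i, hu i⟩, ?_⟩
  intro i j
  rw [LinearIsometryEquiv.inner_map_map]
  change inner ℝ (u i) (u j) = _
  rw [PiLp.inner_apply]
  simp only [u, RCLike.inner_apply, conj_trivial]
  have hni := hn0 (c i)
  have hnj := hn0 (c j)
  have e1 : ∀ l, √((n (c j) : ℝ) / (n (c j) - 1)) * ((if l = j then 1 else 0) - (if c l = c j then 1 / (n (c j) : ℝ) else 0)) * (√((n (c i) : ℝ) / (n (c i) - 1)) * ((if l = i then 1 else 0) - (if c l = c i then 1 / (n (c i) : ℝ) else 0)))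
     = √((n (c j) : ℝ) / (n (c j) - 1)) * √((n (c i) : ℝ) / (n (c i) - 1)) * (
        (if l = j then (if l = i then 1 else 0) else 0) - (if l = j then (if c l = c i then 1 / (n (c i) : ℝ) else 0) else 0)
        - (if l = i then (if c l = c j then 1 / (n (c j) : ℝ) else 0) else 0)
        + (if c l = c j then (if c l = c i then 1 / (n (c j) : ℝ) * (1 / (n (c i) : ℝ)) else 0) else 0)) := by
    intro l
    split_ifs <;> ring
  rw [Finset.sum_congr rfl (fun l _ => e1 l), ← Finset.mul_sum, Finset.sum_add_distrib,
    Finset.sum_sub_distrib, Finset.sum_sub_distrib, Finset.sum_ite_eq', Finset.sum_ite_eq',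
    Finset.sum_ite_eq']
  simp only [Finset.mem_univ, if_true]
  have e2 : ∑ l : ι, (if c l = c j then (if c l = c i then 1 / (n (c j) : ℝ) * (1 / (n (c i) : ℝ)) else 0) else 0)
      = if c i = c j then 1 / (n (c i) : ℝ) else 0 := by
    rw [← Finset.sum_filter]
    split_ifs with h
    · rw [Finset.sum_congr rfl (g := fun _ => 1 / (n (c j) : ℝ) * (1 / (n (c i) : ℝ)))]
      · rw [Finset.sum_const, hn, nsmul_eq_mul]
        field_simp
      · intro l hl
        rw [if_pos]
        rw [(Finset.mem_filter.1 hl).2, h]
    · apply Finset.sum_eq_zero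
      intro l hl
      rw [if_neg]
      rw [(Finset.mem_filter.1 hl).2]
      exact fun h' => h h'.symm
  rw [e2]
  by_cases hij : i = j
  · subst hij
    simp only [if_true]
    rw [Real.mul_self_sqrt (div_nonneg (by linarith) (by linarith))]
    have : (n (c i) : ℝ) - 1 ≠ 0 := by linarith
    field_simp
    ring
  · rw [if_neg (fun h => hij h.symm), if_neg hij]
    by_cases hc : c i = c j
    · rw [if_pos hc, if_pos hc.symm, if_pos hc, if_pos hc, hc,
        Real.mul_self_sqrt (div_nonneg (by linarith) (by linarith))]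
      have : (n (c j) : ℝ) - 1 ≠ 0 := by linarith
      field_simp
      ring
    · rw [if_neg hc, if_neg hc, if_neg (fun h => hc h.symm), if_neg hc]
      ring

end Pool.Agent.Helper328.SimplexExist
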