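import Mathlib

set_option autoImplicit false

namespace Pool.Agent.Helper328.SphereSum

open scoped BigOperators

variable {ι : Type*} [Fintype ι] [DecidableEq ι]
variable {E : Type*} [NormedAddCommGroup E] [InnerProductSpace ℝ E] [FiniteDimensional ℝ E]

/-- the relation map -/
noncomputable def relMap (y : ι → E) : EuclideanSpace ℝ ι →ₗ[ℝ] E :=
  { toFun := fun w => ∑ i, w i • y i
    map_add' := fun v w => by
      simp only [PiLp.add_apply, add_smul, Finset.sum_add_distrib]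
    map_smul' := fun c w => by
      simp only [PiLp.smul_apply, smul_eq_mul, RingHom.id_apply, Finset.smul_sum, mul_smul] }

lemma relMap_apply (y : ι → E) (w : EuclideanSpace ℝ ι) : relMap y w = ∑ i, w i • y i := rfl

/-- An orthonormal basis of the space of linear relations, as plain functions. -/
lemma exists_basis (y : ι → E) (hy : ∑ i, y i = 0) :
    ∃ (s : ℕ) (f : Fin s → ι → ℝ), (∀ a a', ∑ k, f a k * f a' k = if a = a' then 1 else 0) ∧
      (∀ a, ∑ j, f a j • y j = 0) ∧ (∀ i, ∑ a, f a i * ∑ k, f a k = 1) ∧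
      Fintype.card ι ≤ Module.finrank ℝ E + s := by
  classical
  set K := LinearMap.ker (relMap y) with hK
  let b := stdOrthonormalBasis ℝ K
  refine ⟨Module.finrank ℝ K, fun a i => ((b a : K) : EuclideanSpace ℝ ι) i, ?_, ?_, ?_, ?_⟩
  · intro a a'
    have h := orthonormal_iff_ite.1 b.orthonormal a a'
    rw [Submodule.coe_inner, PiLp.inner_apply] at h
    rw [← h]
    apply Finset.sum_congr rfl
    intro k _
    rw [RCLike.inner_apply, conj_trivial, mul_comm]
  · intro a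
    have h : ((b a : K) : EuclideanSpace ℝ ι) ∈ LinearMap.ker (relMap y) := (b a).2
    rw [LinearMap.mem_ker, relMap_apply] at h
    exact h
  · intro i
    let one : EuclideanSpace ℝ ι := WithLp.toLp 2 (fun _ => (1 : ℝ))
    have hone : one ∈ K := by
      rw [hK, LinearMap.mem_ker, relMap_apply]
      change ∑ i, (1 : ℝ) • y i = 0
      simpa using hy
    have h := b.sum_repr' ⟨one, hone⟩
    have h2 : (∑ a, (inner ℝ (b a) (⟨one, hone⟩ : K)) • ((b a : K) : EuclideanSpace ℝ ι)) = one := by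
      have h3 := congrArg (fun z : K => (z : EuclideanSpace ℝ ι)) h
      simpa using h3
    have h4 := congrArg (fun z : EuclideanSpace ℝ ι => z i) h2
    simp only [WithLp.ofLp_sum, Finset.sum_apply, PiLp.smul_apply, smul_eq_mul] at h4
    have h5 : one i = 1 := rfl
    rw [h5] at h4
    rw [← h4]
    apply Finset.sum_congr rfl
    intro a _
    rw [mul_comm]
    congr 1
    rw [Submodule.coe_inner, PiLp.inner_apply]
    apply Finset.sum_congr rfl
    intro k _
    have h6 : one k = 1 := rfl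
    rw [RCLike.inner_apply, conj_trivial, h6, one_mul]
  · have h2 := LinearMap.finrank_range_add_finrank_ker (relMap y)
    rw [finrank_euclideanSpace] at h2
    have h3 : Module.finrank ℝ (LinearMap.range (relMap y)) ≤ Module.finrank ℝ E :=
      Submodule.finrank_le _
    rw [hK]
    omega

/-- Existence of the projection matrix onto the space of linear relations. -/
lemma exists_proj (y : ι → E) (hy : ∑ i, y i = 0) :
    ∃ Q : ι → ι → ℝ, (∀ i j, Q i j = Q j i) ∧ (∀ i j, ∑ k, Q i k * Q j k = Q i j) ∧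
      (∀ i, ∑ j, Q i j = 1) ∧ (∀ i, ∑ j, Q i j • y j = 0) ∧
      (Fintype.card ι : ℝ) - Module.finrank ℝ E ≤ ∑ i, Q i i := by
  obtain ⟨s, f, horth, hT, hone, hcard⟩ := exists_basis y hy
  refine ⟨fun i j => ∑ a, f a i * f a j, ?_, ?_, ?_, ?_, ?_⟩
  · intro i j
    apply Finset.sum_congr rfl
    intro a _
    ring
  · intro i j
    calc ∑ k, (∑ a, f a i * f a k) * (∑ a, f a j * f a k)
        = ∑ k, ∑ a, ∑ a', f a i * f a k * (f a' j * f a' k) := by
          apply Finset.sum_congr rfl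
          intro k _
          rw [Finset.sum_mul_sum]
      _ = ∑ a, ∑ a', ∑ k, f a i * f a k * (f a' j * f a' k) := by
          rw [Finset.sum_comm]
          apply Finset.sum_congr rfl
          intro a _
          rw [Finset.sum_comm]
      _ = ∑ a, ∑ a', f a i * f a' j * (if a = a' then 1 else 0) := by
          apply Finset.sum_congr rfl
          intro a _
          apply Finset.sum_congr rfl
          intro a' _
          rw [← horth a a', Finset.mul_sum]
          apply Finset.sum_congr rfl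
          intro k _
          ring
      _ = ∑ a, f a i * f a j := by
          apply Finset.sum_congr rfl
          intro a _
          simp
  · intro i
    rw [← hone i, Finset.sum_comm]
    apply Finset.sum_congr rfl
    intro a _
    rw [Finset.mul_sum]
  · intro i
    calc ∑ j, (∑ a, f a i * f a j) • y j = ∑ a, f a i • ∑ j, f a j • y j := by
          simp only [Finset.sum_smul, Finset.smul_sum, mul_smul]
          rw [Finset.sum_comm]
      _ = 0 := by simp only [hT, smul_zero, Finset.sum_const_zero]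
  · have h1 : ∑ i, ∑ a, f a i * f a i = (s : ℝ) := by
      rw [Finset.sum_comm]
      have : ∀ a, ∑ k, f a k * f a k = 1 := by
        intro a
        rw [horth a a]
        simp
      simp [this]
    rw [h1]
    have h5 : (Fintype.card ι : ℝ) ≤ Module.finrank ℝ E + s := by exact_mod_cast hcard
    linarith

/-- centroid -/
noncomputable def cen (x : ι → E) : E := ((Fintype.card ι : ℝ))⁻¹ • ∑ i, x i

lemma sum_cen (x : ι → E) (hN : 0 < Fintype.card ι) :
    ∑ i, (x i - cen x) = 0 := by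
  rw [Finset.sum_sub_distrib, Finset.sum_const, Finset.card_univ, cen, ← Nat.cast_smul_eq_nsmul ℝ,
    smul_smul, mul_inv_cancel₀ (by positivity), one_smul, sub_self]

lemma sum_norm_cen (x : ι → E) (hx : ∀ i, ‖x i‖ = 1) (hN : 0 < Fintype.card ι) :
    ∑ i, ‖x i - cen x‖ ^ 2 = (Fintype.card ι : ℝ) * (1 - ‖cen x‖ ^ 2) := by
  have h1 : ∀ i, ‖x i - cen x‖ ^ 2 = 1 - 2 * inner ℝ (x i) (cen x) + ‖cen x‖ ^ 2 := by
    intro i
    rw [norm_sub_sq_real, hx i]; ring
  have h2 : ∑ i, inner ℝ (x i) (cen x) = (Fintype.card ι : ℝ) * ‖cen x‖ ^ 2 := by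
    rw [← sum_inner]
    have h3 : ∑ i, x i = (Fintype.card ι : ℝ) • cen x := by
      rw [cen, smul_smul, mul_inv_cancel₀ (by positivity), one_smul]
    rw [h3, real_inner_smul_left, real_inner_self_eq_norm_sq]
  simp only [h1, Finset.sum_add_distrib, Finset.sum_sub_distrib, ← Finset.mul_sum, h2,
    Finset.sum_const, Finset.card_univ, nsmul_eq_mul]
  ring

lemma sum_sq (y : ι → E) (hy : ∑ i, y i = 0) :
    ∑ i, ∑ j, ‖y i - y j‖ ^ 2 = 2 * (Fintype.card ι : ℝ) * ∑ i, ‖y i‖ ^ 2 := by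
  have h1 : ∀ i j, ‖y i - y j‖ ^ 2 = ‖y i‖ ^ 2 - 2 * inner ℝ (y i) (y j) + ‖y j‖ ^ 2 := by
    intro i j
    rw [norm_sub_sq_real]
  have h2 : ∀ i, ∑ j, inner ℝ (y i) (y j) = (0 : ℝ) := by
    intro i
    rw [← inner_sum, hy, inner_zero_right]
  simp only [h1, Finset.sum_add_distrib, Finset.sum_sub_distrib, ← Finset.mul_sum, h2,
    Finset.sum_const, Finset.card_univ, nsmul_eq_mul]
  simp
  ring

lemma sum_Q_sq (y : ι → E) (Q : ι → ι → ℝ) (hs : ∀ i j, Q i j = Q j i)
    (h1 : ∀ i, ∑ j, Q i j = 1) (h0 : ∀ i, ∑ j, Q i j • y j = 0) :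
    ∑ i, ∑ j, Q i j * ‖y i - y j‖ ^ 2 = 2 * ∑ i, ‖y i‖ ^ 2 := by
  have e1 : ∀ i j, Q i j * ‖y i - y j‖ ^ 2 =
      Q i j * ‖y i‖ ^ 2 - 2 * inner ℝ (y i) (Q i j • y j) + Q j i * ‖y j‖ ^ 2 := by
    intro i j
    rw [norm_sub_sq_real, real_inner_smul_right, hs j i]; ring
  have e2 : ∀ i, ∑ j, inner ℝ (y i) (Q i j • y j) = (0 : ℝ) := by
    intro i
    rw [← inner_sum, h0, inner_zero_right]
  have e3 : ∑ i, ∑ j, Q j i * ‖y j‖ ^ 2 = ∑ i, ‖y i‖ ^ 2 := by
    rw [Finset.sum_comm]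
    apply Finset.sum_congr rfl
    intro i _
    rw [← Finset.sum_mul, h1, one_mul]
  have e4 : ∑ i, ∑ j, Q i j * ‖y i‖ ^ 2 = ∑ i, ‖y i‖ ^ 2 := by
    apply Finset.sum_congr rfl
    intro i _
    rw [← Finset.sum_mul, h1, one_mul]
  simp only [e1, Finset.sum_add_distrib, Finset.sum_sub_distrib, ← Finset.mul_sum, e2, e3, e4]
  simp
  ring

/-- the weights -/
noncomputable def lamb (g : ℝ) (Q : ι → ι → ℝ) (i j : ι) : ℝ := 1 - g * Q i j

noncomputable def slackA (g : ℝ) (Q : ι → ι → ℝ) (x : ι → E) (i j : ι) : ℝ :=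
  if i = j then 0 else
    (lamb g Q i j * ‖x i - x j‖ - √2) ^ 2 / (2 * √2 * lamb g Q i j)

noncomputable def slackB (g : ℝ) (Q : ι → ι → ℝ) (i j : ι) : ℝ :=
  g ^ 2 * Q i j ^ 2 * (((lamb g Q i i)⁻¹ + (lamb g Q j j)⁻¹) / 2 - (lamb g Q i j)⁻¹)

noncomputable def slackC (g m : ℝ) (Q : ι → ι → ℝ) (i : ι) : ℝ :=
  g ^ 2 * (Q i i - 1 / m) ^ 2 * (lamb g Q i i)⁻¹ / (1 - g / m) ^ 2

/-- The exact slack identity. -/
theorem slack_identity (x : ι → E) (hx : ∀ i, ‖x i‖ = 1) (hN : 0 < Fintype.card ι)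
    (g m : ℝ) (hm : 1 < m) (hg0 : 0 < g) (hg1 : g < 1) (hgm : g ^ 2 + m = 2 * m * g)
    (Q : ι → ι → ℝ) (hs : ∀ i j, Q i j = Q j i) (hidem : ∀ i j, ∑ k, Q i k * Q j k = Q i j)
    (h1 : ∀ i, ∑ j, Q i j = 1) (h0 : ∀ i, ∑ j, Q i j • (x j - cen x) = 0)
    (hpos : ∀ i j, 0 < lamb g Q i j) :
    (∑ i, ∑ j, ‖x i - x j‖) + (∑ i, ∑ j, slackA g Q x i j)
      + (∑ i, ∑ j, slackB g Q i j) / √2 + (1 - g) / √2 * (∑ i, slackC g m Q i)
      + (1 - g) * g / √2 / (1 - g / m) ^ 2 * (∑ i, Q i i - Fintype.card ι / m)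
      + (Fintype.card ι : ℝ) * (Fintype.card ι - g) / √2 * ‖cen x‖ ^ 2
      = √2 * Fintype.card ι * (Fintype.card ι - g) := by
  set N : ℝ := (Fintype.card ι : ℝ) with hNdef
  have hNpos : 0 < N := by rw [hNdef]; exact_mod_cast hN
  have s2 : √2 * √2 = (2 : ℝ) := Real.mul_self_sqrt (by norm_num)
  have s2pos : (0 : ℝ) < √2 := Real.sqrt_pos.2 (by norm_num)
  have hgm1 : 0 < 1 - g / m := by
    have : g / m < 1 := by
      rw [div_lt_one (by linarith)]; linarith
    linarith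
  -- step 1: pointwise identity for distances
  have p1 : ∀ i j, ‖x i - x j‖ + slackA g Q x i j =
      (lamb g Q i j * ‖x i - x j‖ ^ 2) / (2 * √2) + (lamb g Q i j)⁻¹ / √2
        - (if i = j then (lamb g Q i i)⁻¹ / √2 else 0) := by
    intro i j
    have hl := hpos i j
    unfold slackA
    by_cases hij : i = j
    · subst hij
      simp
    · rw [if_neg hij, if_neg hij]
      field_simp
      have : (√2 : ℝ) ^ 2 = 2 := by rw [sq]; exact s2
      ring_nf
      rw [this]
      ring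
  have p2 : (∑ i, ∑ j, ‖x i - x j‖) + (∑ i, ∑ j, slackA g Q x i j) =
      (∑ i, ∑ j, lamb g Q i j * ‖x i - x j‖ ^ 2) / (2 * √2)
       + (∑ i, ∑ j, (lamb g Q i j)⁻¹) / √2 - (∑ i, (lamb g Q i i)⁻¹) / √2 := by
    rw [← Finset.sum_add_distrib]
    simp only [← Finset.sum_add_distrib, p1]
    simp only [Finset.sum_sub_distrib, Finset.sum_add_distrib, Finset.sum_div]
    simp
  -- step 2: quadratic form
  have hy := sum_cen x hN
  have hxy : ∀ i j, ‖x i - x j‖ = ‖(x i - cen x) - (x j - cen x)‖ := by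
    intro i j
    congr 1
    abel
  have q1 : ∑ i, ∑ j, ‖x i - x j‖ ^ 2 = 2 * N * (N * (1 - ‖cen x‖ ^ 2)) := by
    simp only [hxy]
    rw [sum_sq _ hy, sum_norm_cen x hx hN]
  have q2 : ∑ i, ∑ j, Q i j * ‖x i - x j‖ ^ 2 = 2 * (N * (1 - ‖cen x‖ ^ 2)) := by
    simp only [hxy]
    rw [sum_Q_sq _ Q hs h1 h0, sum_norm_cen x hx hN]
  have q3 : ∑ i, ∑ j, lamb g Q i j * ‖x i - x j‖ ^ 2 = 2 * (N - g) * (N * (1 - ‖cen x‖ ^ 2)) := by
    have : ∀ i j, lamb g Q i j * ‖x i - x j‖ ^ 2 =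
        ‖x i - x j‖ ^ 2 - g * (Q i j * ‖x i - x j‖ ^ 2) := by
      intro i j; unfold lamb; ring
    simp only [this, Finset.sum_sub_distrib, ← Finset.mul_sum]
    rw [q1, q2]; ring
  -- step 3: sum of inverses
  have r1 : ∀ i j, (lamb g Q i j)⁻¹ + slackB g Q i j =
      1 + g * Q i j + g ^ 2 * (Q i j * Q i j) * (lamb g Q i i)⁻¹ / 2
        + g ^ 2 * (Q j i * Q j i) * (lamb g Q j j)⁻¹ / 2 := by
    intro i j
    have hl := (hpos i j).ne'
    have e : (lamb g Q i j)⁻¹ = 1 + g * Q i j + g ^ 2 * Q i j ^ 2 * (lamb g Q i j)⁻¹ := by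
      have : lamb g Q i j = 1 - g * Q i j := rfl
      field_simp
      rw [this]
      ring
    unfold slackB
    rw [hs j i]
    linear_combination e
  have hD : ∀ i, ∑ j, Q i j * Q i j = Q i i := fun i => hidem i i
  have r2 : (∑ i, ∑ j, (lamb g Q i j)⁻¹) + (∑ i, ∑ j, slackB g Q i j) =
      N ^ 2 + g * N + ∑ i, g ^ 2 * Q i i * (lamb g Q i i)⁻¹ := by
    rw [← Finset.sum_add_distrib]
    simp only [← Finset.sum_add_distrib, r1]
    simp only [Finset.sum_add_distrib]
    have e1 : ∑ i : ι, ∑ j : ι, (1 : ℝ) = N ^ 2 := by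
      simp [hNdef, sq]
    have e2 : ∑ i, ∑ j, g * Q i j = g * N := by
      simp only [← Finset.mul_sum, h1]
      simp [hNdef]
    have e3 : ∑ i, ∑ j, g ^ 2 * (Q i j * Q i j) * (lamb g Q i i)⁻¹ / 2 =
        ∑ i, g ^ 2 * Q i i * (lamb g Q i i)⁻¹ / 2 := by
      apply Finset.sum_congr rfl
      intro i _
      rw [← Finset.sum_div, ← Finset.sum_mul, ← Finset.mul_sum, hD]
    have e4 : ∑ i, ∑ j, g ^ 2 * (Q j i * Q j i) * (lamb g Q j j)⁻¹ / 2 =
        ∑ i, g ^ 2 * Q i i * (lamb g Q i i)⁻¹ / 2 := by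
      rw [Finset.sum_comm]; exact e3
    rw [e1, e2, e3, e4, add_assoc, ← Finset.sum_add_distrib]
    congr 1
    apply Finset.sum_congr rfl
    intro i _
    ring
  -- step 4: diagonal terms
  have t1 : ∀ i, g ^ 2 * Q i i * (lamb g Q i i)⁻¹ - (lamb g Q i i)⁻¹ =
      - g - (1 - g) * (lamb g Q i i)⁻¹ := by
    intro i
    have hl := (hpos i i).ne'
    have : lamb g Q i i = 1 - g * Q i i := rfl
    field_simp
    rw [this]
    ring
  have t2 : ∀ i, (lamb g Q i i)⁻¹ = (1 - g / m)⁻¹ + g / (1 - g / m) ^ 2 * (Q i i - 1 / m)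
      + slackC g m Q i := by
    intro i
    have hl := (hpos i i).ne'
    have hlam : lamb g Q i i = 1 - g * Q i i := rfl
    unfold slackC
    have hmm : m ≠ 0 := by linarith
    have hgm1' := hgm1.ne'
    have key : 1 = lamb g Q i i * (1 - g / m)⁻¹ +
        lamb g Q i i * (g / (1 - g / m) ^ 2 * (Q i i - 1 / m))
        + g ^ 2 * (Q i i - 1 / m) ^ 2 / (1 - g / m) ^ 2 := by
      set u := 1 - g / m with hu
      have hgm' : g * (1 / m) = 1 - u := by rw [hu]; ring
      rw [hlam]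
      field_simp
      have hg' : g = m * (1 - u) := by
        rw [hu]; field_simp; ring
      rw [hg']
      ring
    field_simp at key ⊢
    linear_combination key
  have t3 : ∑ i, (lamb g Q i i)⁻¹ = N * (1 - g / m)⁻¹
      + g / (1 - g / m) ^ 2 * (∑ i, Q i i - N / m) + ∑ i, slackC g m Q i := by
    simp only [t2]
    simp only [Finset.sum_add_distrib, ← Finset.mul_sum, Finset.sum_sub_distrib]
    simp only [Finset.sum_const, Finset.card_univ, nsmul_eq_mul, ← hNdef]
    ring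
  have t4 : ∑ i, g ^ 2 * Q i i * (lamb g Q i i)⁻¹ - ∑ i, (lamb g Q i i)⁻¹ =
      - g * N - (1 - g) * ∑ i, (lamb g Q i i)⁻¹ := by
    rw [← Finset.sum_sub_distrib]
    simp only [t1]
    rw [Finset.sum_sub_distrib, ← Finset.mul_sum]
    simp only [Finset.sum_const, Finset.card_univ, nsmul_eq_mul, ← hNdef]
    ring
  have t5 : (1 - g) * (1 - g / m)⁻¹ = g := by
    have hmm : m ≠ 0 := by linarith
    have h2 : 1 - g = g * (1 - g / m) := by
      field_simp
      linarith
    rw [h2, mul_assoc, mul_inv_cancel₀ hgm1.ne', mul_one]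
  -- assemble
  rw [p2, q3]
  have r3 : (∑ i, ∑ j, (lamb g Q i j)⁻¹) = N ^ 2 + g * N + ∑ i, g ^ 2 * Q i i * (lamb g Q i i)⁻¹
      - (∑ i, ∑ j, slackB g Q i j) := by linarith
  rw [r3]
  set SB := ∑ i, ∑ j, slackB g Q i j
  set SC := ∑ i, slackC g m Q i
  set SD := ∑ i, Q i i
  set SH := ∑ i, (lamb g Q i i)⁻¹
  set SG := ∑ i, g ^ 2 * Q i i * (lamb g Q i i)⁻¹
  have t6 : (1 - g) * SH = g * N + (1 - g) * g / (1 - g / m) ^ 2 * (SD - N / m) + (1 - g) * SC := by
    rw [t3]
    linear_combination N * t5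
  have t7 : SG = SH - g * N - (1 - g) * SH := by linarith
  rw [t7, t6]
  have hs2 : (√2 : ℝ) = 2 / √2 := by field_simp; exact s2.symm ▸ (by ring_nf; rw [Real.sq_sqrt]; norm_num)
  have : √2 * N * (N - g) = 2 * N * (N - g) / √2 := by
    rw [eq_div_iff s2pos.ne']
    linear_combination N * (N - g) * s2
  rw [this]
  field_simp
  ring

section bounds

variable {Q : ι → ι → ℝ}

lemma Q_diag_nonneg (hidem : ∀ i j, ∑ k, Q i k * Q j k = Q i j) (i : ι) : 0 ≤ Q i i := by
  rw [← hidem i i]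
  exact Finset.sum_nonneg fun k _ => mul_self_nonneg _

lemma Q_diag_le_one (hidem : ∀ i j, ∑ k, Q i k * Q j k = Q i j) (i : ι) : Q i i ≤ 1 := by
  have h1 : Q i i * Q i i ≤ ∑ k, Q i k * Q i k :=
    Finset.single_le_sum (f := fun k => Q i k * Q i k) (fun k _ => mul_self_nonneg _)
      (Finset.mem_univ i)
  rw [hidem i i] at h1
  by_contra hc
  push Not at hc
  nlinarith

lemma Q_sq_sum (hs : ∀ i j, Q i j = Q j i) (hidem : ∀ i j, ∑ k, Q i k * Q j k = Q i j) (i j : ι) :
    ∑ k, (Q i k - Q j k) ^ 2 = Q i i + Q j j - 2 * Q i j := by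
  have : ∀ k, (Q i k - Q j k) ^ 2 = Q i k * Q i k + Q j k * Q j k - 2 * (Q i k * Q j k) := by
    intro k; ring
  simp only [this, Finset.sum_sub_distrib, Finset.sum_add_distrib, ← Finset.mul_sum, hidem]

lemma Q_le_avg (hs : ∀ i j, Q i j = Q j i) (hidem : ∀ i j, ∑ k, Q i k * Q j k = Q i j) (i j : ι) :
    Q i j ≤ (Q i i + Q j j) / 2 := by
  have h1 := Q_sq_sum hs hidem i j
  have h2 : 0 ≤ ∑ k, (Q i k - Q j k) ^ 2 := Finset.sum_nonneg fun k _ => sq_nonneg _
  linarith

lemma lamb_pos (hs : ∀ i j, Q i j = Q j i) (hidem : ∀ i j, ∑ k, Q i k * Q j k = Q i j)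
    (g : ℝ) (hg0 : 0 < g) (hg1 : g < 1) (i j : ι) : 0 < lamb g Q i j := by
  have h1 := Q_le_avg hs hidem i j
  have h2 := Q_diag_le_one hidem i
  have h3 := Q_diag_le_one hidem j
  unfold lamb
  nlinarith

lemma slackA_nonneg (hs : ∀ i j, Q i j = Q j i) (hidem : ∀ i j, ∑ k, Q i k * Q j k = Q i j)
    (g : ℝ) (hg0 : 0 < g) (hg1 : g < 1) (x : ι → E) (i j : ι) : 0 ≤ slackA g Q x i j := by
  unfold slackA
  split_ifs
  · exact le_refl _
  · have := lamb_pos hs hidem g hg0 hg1 i j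
    positivity

lemma inv_avg {a b c : ℝ} (ha : 0 < a) (hb : 0 < b) (hc : (a + b) / 2 ≤ c) :
    c⁻¹ ≤ (a⁻¹ + b⁻¹) / 2 := by
  have h1 : c⁻¹ ≤ ((a + b) / 2)⁻¹ := inv_anti₀ (by linarith) hc
  have h2 : ((a + b) / 2)⁻¹ ≤ (a⁻¹ + b⁻¹) / 2 := by
    rw [inv_div, div_le_iff₀ (by linarith)]
    field_simp
    nlinarith [sq_nonneg (a - b)]
  exact h1.trans h2

lemma slackB_nonneg (hs : ∀ i j, Q i j = Q j i) (hidem : ∀ i j, ∑ k, Q i k * Q j k = Q i j)
    (g : ℝ) (hg0 : 0 < g) (hg1 : g < 1) (i j : ι) : 0 ≤ slackB g Q i j := by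
  unfold slackB
  apply mul_nonneg (by positivity)
  have h1 := lamb_pos hs hidem g hg0 hg1 i i
  have h2 := lamb_pos hs hidem g hg0 hg1 j j
  have h3 := Q_le_avg hs hidem i j
  have h4 : (lamb g Q i i + lamb g Q j j) / 2 ≤ lamb g Q i j := by
    unfold lamb
    nlinarith
  have := inv_avg h1 h2 h4
  linarith

lemma slackC_nonneg (hs : ∀ i j, Q i j = Q j i) (hidem : ∀ i j, ∑ k, Q i k * Q j k = Q i j)
    (g m : ℝ) (hg0 : 0 < g) (hg1 : g < 1) (i : ι) : 0 ≤ slackC g m Q i := by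
  unfold slackC
  have h1 := lamb_pos hs hidem g hg0 hg1 i i
  positivity

end bounds

/-- The main inequality and the information given by equality. -/
theorem main_bound (x : ι → E) (hx : ∀ i, ‖x i‖ = 1) (hN : 0 < Fintype.card ι)
    (g m : ℝ) (hm : 1 < m) (hg0 : 0 < g) (hg1 : g < 1) (hgm : g ^ 2 + m = 2 * m * g)
    (hdim : (Fintype.card ι : ℝ) / m ≤ Fintype.card ι - Module.finrank ℝ E) :
    (∑ i, ∑ j, ‖x i - x j‖) ≤ √2 * Fintype.card ι * (Fintype.card ι - g) ∧
    ((∑ i, ∑ j, ‖x i - x j‖) = √2 * Fintype.card ι * (Fintype.card ι - g) →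
      ∃ Q : ι → ι → ℝ, (∀ i j, Q i j = Q j i) ∧ (∀ i j, ∑ k, Q i k * Q j k = Q i j) ∧
        (∀ i, ∑ j, Q i j = 1) ∧ (∀ i, Q i i = 1 / m) ∧
        (∀ i j, Q i j = 0 ∨ Q i j = 1 / m) ∧
        (∀ i j, i ≠ j → (1 - g * Q i j) * ‖x i - x j‖ = √2)) := by
  obtain ⟨Q, hs, hidem, h1, h0, htr⟩ := exists_proj (fun i => x i - cen x) (sum_cen x hN)
  have hpos := lamb_pos hs hidem g hg0 hg1
  have key := slack_identity x hx hN g m hm hg0 hg1 hgm Q hs hidem h1 h0 hpos
  have s2pos : (0 : ℝ) < √2 := Real.sqrt_pos.2 (by norm_num)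
  have hgm1 : 0 < 1 - g / m := by
    have : g / m < 1 := by
      rw [div_lt_one (by linarith)]; linarith
    linarith
  have hN1 : (1 : ℝ) ≤ Fintype.card ι := by exact_mod_cast hN
  have a1 : 0 ≤ ∑ i, ∑ j, slackA g Q x i j :=
    Finset.sum_nonneg fun i _ => Finset.sum_nonneg fun j _ =>
      slackA_nonneg hs hidem g hg0 hg1 x i j
  have a2 : 0 ≤ ∑ i, ∑ j, slackB g Q i j :=
    Finset.sum_nonneg fun i _ => Finset.sum_nonneg fun j _ =>
      slackB_nonneg hs hidem g hg0 hg1 i j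
  have a3 : 0 ≤ ∑ i, slackC g m Q i :=
    Finset.sum_nonneg fun i _ => slackC_nonneg hs hidem g m hg0 hg1 i
  have b2 : 0 ≤ (∑ i, ∑ j, slackB g Q i j) / √2 := by positivity
  have b3 : 0 ≤ (1 - g) / √2 * (∑ i, slackC g m Q i) :=
    mul_nonneg (div_nonneg (by linarith) s2pos.le) a3
  have b4 : 0 ≤ (1 - g) * g / √2 / (1 - g / m) ^ 2 * (∑ i, Q i i - Fintype.card ι / m) := by
    apply mul_nonneg
    · have : 0 ≤ 1 - g := by linarith
      positivity
    · linarith
  have b5 : 0 ≤ (Fintype.card ι : ℝ) * (Fintype.card ι - g) / √2 * ‖cen x‖ ^ 2 := by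
    have : 0 ≤ (Fintype.card ι : ℝ) - g := by linarith
    positivity
  refine ⟨by linarith, fun heq => ?_⟩
  have z1 : ∑ i, ∑ j, slackA g Q x i j = 0 := by linarith
  have z2 : (∑ i, ∑ j, slackB g Q i j) / √2 = 0 := by linarith
  have z3 : (1 - g) / √2 * (∑ i, slackC g m Q i) = 0 := by linarith
  have z2' : ∑ i, ∑ j, slackB g Q i j = 0 := by
    rcases div_eq_zero_iff.1 z2 with h | h
    · exact h
    · exact absurd h s2pos.ne'
  have z3' : ∑ i, slackC g m Q i = 0 := by
    rcases mul_eq_zero.1 z3 with h | h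
    · exfalso
      rcases div_eq_zero_iff.1 h with h | h
      · linarith
      · exact s2pos.ne' h
    · exact h
  have w1 : ∀ i j, slackA g Q x i j = 0 := by
    intro i j
    have h2 := (Finset.sum_eq_zero_iff_of_nonneg (fun i _ => Finset.sum_nonneg fun j _ =>
      slackA_nonneg hs hidem g hg0 hg1 x i j)).1 z1 i (Finset.mem_univ i)
    exact (Finset.sum_eq_zero_iff_of_nonneg (fun j _ =>
      slackA_nonneg hs hidem g hg0 hg1 x i j)).1 h2 j (Finset.mem_univ j)
  have w2 : ∀ i j, slackB g Q i j = 0 := by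
    intro i j
    have h2 := (Finset.sum_eq_zero_iff_of_nonneg (fun i _ => Finset.sum_nonneg fun j _ =>
      slackB_nonneg hs hidem g hg0 hg1 i j)).1 z2' i (Finset.mem_univ i)
    exact (Finset.sum_eq_zero_iff_of_nonneg (fun j _ =>
      slackB_nonneg hs hidem g hg0 hg1 i j)).1 h2 j (Finset.mem_univ j)
  have w3 : ∀ i, slackC g m Q i = 0 := fun i =>
    (Finset.sum_eq_zero_iff_of_nonneg (fun i _ =>
      slackC_nonneg hs hidem g m hg0 hg1 i)).1 z3' i (Finset.mem_univ i)
  have hD : ∀ i, Q i i = 1 / m := by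
    intro i
    have h2 := w3 i
    unfold slackC at h2
    have h3 := (hpos i i).ne'
    have h4 : g ^ 2 * (Q i i - 1 / m) ^ 2 * (lamb g Q i i)⁻¹ = 0 := by
      rcases div_eq_zero_iff.1 h2 with h | h
      · exact h
      · exfalso
        have : (1 - g / m) ^ 2 ≠ 0 := by positivity
        exact this h
    have h5 : (Q i i - 1 / m) ^ 2 = 0 := by
      rcases mul_eq_zero.1 h4 with h | h
      · rcases mul_eq_zero.1 h with h | h
        · exfalso
          have : g ^ 2 ≠ 0 := by positivity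
          exact this h
        · exact h
      · exfalso
        exact h3 (inv_eq_zero.1 h)
    have := pow_eq_zero_iff (two_ne_zero) |>.1 h5
    linarith
  refine ⟨Q, hs, hidem, h1, hD, ?_, ?_⟩
  · intro i j
    have h2 := w2 i j
    unfold slackB at h2
    rcases mul_eq_zero.1 h2 with h | h
    · left
      rcases mul_eq_zero.1 h with h | h
      · exfalso
        have : g ^ 2 ≠ 0 := by positivity
        exact this h
      · exact pow_eq_zero_iff (two_ne_zero) |>.1 h
    · right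
      have e1 : lamb g Q i i = 1 - g / m := by unfold lamb; rw [hD]; ring
      have e2 : lamb g Q j j = 1 - g / m := by unfold lamb; rw [hD]; ring
      rw [e1, e2] at h
      have h3 : (lamb g Q i j)⁻¹ = (1 - g / m)⁻¹ := by linarith
      have h4 : lamb g Q i j = 1 - g / m := inv_injective h3
      unfold lamb at h4
      have h5 : g * Q i j = g * (1 / m) := by
        have : g * (1 / m) = g / m := by ring
        linarith
      exact mul_left_cancel₀ hg0.ne' h5
  · intro i j hij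
    have h2 := w1 i j
    unfold slackA at h2
    rw [if_neg hij] at h2
    have h3 := hpos i j
    rcases div_eq_zero_iff.1 h2 with h | h
    · have h4 := pow_eq_zero_iff (two_ne_zero) |>.1 h
      unfold lamb at h4
      linarith
    · exfalso
      have : 2 * √2 * lamb g Q i j ≠ 0 := by positivity
      exact this h

end Pool.Agent.Helper328.SphereSum
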