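import Mathlib

set_option autoImplicit false
open Finset
open scoped ENNReal NNReal

namespace Pool.Agent.Helper328.Uni

/-- block length -/
def len (G : ℕ → ℕ) (n : ℕ) : ℕ := 2 * (G n) ^ 2 + 2

/-- start of the block containing `j` -/
def st (G : ℕ → ℕ) : ℕ → ℕ
  | 0 => 0
  | (j + 1) => if j + 1 = st G j + len G (st G j) then j + 1 else st G j

lemma st_zero (G : ℕ → ℕ) : st G 0 = 0 := rfl

lemma st_succ (G : ℕ → ℕ) (j : ℕ) :
    st G (j + 1) = if j + 1 = st G j + len G (st G j) then j + 1 else st G j := rfl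

lemma st_le (G : ℕ → ℕ) (j : ℕ) : st G j ≤ j := by
  induction j with
  | zero => exact le_refl _
  | succ j ih => rw [st_succ]; split_ifs <;> omega

lemma lt_st_add (G : ℕ → ℕ) (j : ℕ) : j < st G j + len G (st G j) := by
  induction j with
  | zero => rw [st_zero]; unfold len; omega
  | succ j ih =>
    rw [st_succ]
    split_ifs with h
    · unfold len; omega
    · omega

lemma st_mono (G : ℕ → ℕ) : Monotone (st G) := by
  apply monotone_nat_of_le_succ
  intro j
  rw [st_succ]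
  split_ifs
  · exact (st_le G j).trans (Nat.le_succ j)
  · exact le_refl _

lemma st_idem (G : ℕ → ℕ) (j : ℕ) : st G (st G j) = st G j := by
  induction j with
  | zero => rfl
  | succ j ih =>
    by_cases h : j + 1 = st G j + len G (st G j)
    · have h1 : st G (j + 1) = j + 1 := by rw [st_succ, if_pos h]
      rw [h1, h1]
    · have h1 : st G (j + 1) = st G j := by rw [st_succ, if_neg h]
      rw [h1, ih]

/-- inside a block -/
lemma st_block (G : ℕ → ℕ) (n : ℕ) (hn : st G n = n) (i : ℕ) (hi : i < len G n) : st G (n + i) = n := by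
  induction i with
  | zero => exact hn
  | succ i ih =>
    have h1 := ih (by omega)
    rw [← add_assoc, st_succ, h1, if_neg (by omega)]

lemma st_next (G : ℕ → ℕ) (n : ℕ) (hn : st G n = n) : st G (n + len G n) = n + len G n := by
  have hlen : 0 < len G n := by unfold len; omega
  have h1 := st_block G n hn (len G n - 1) (by omega)
  have h2 : n + len G n = (n + (len G n - 1)) + 1 := by omega
  rw [h2, st_succ, h1, if_pos (by omega)]

/-- the boundaries -/
def bd (G : ℕ → ℕ) : ℕ → ℕ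
  | 0 => 0
  | (l + 1) => bd G l + len G (bd G l)

lemma st_bd (G : ℕ → ℕ) (l : ℕ) : st G (bd G l) = bd G l := by
  induction l with
  | zero => rfl
  | succ l ih => exact st_next G _ ih

lemma le_bd (G : ℕ → ℕ) (l : ℕ) : l ≤ bd G l := by
  induction l with
  | zero => exact Nat.zero_le _
  | succ l ih => simp only [bd]; unfold len; omega

noncomputable section

/-- filter coefficient of the block starting at `n` -/
def aa (G : ℕ → ℕ) (n : ℕ) : ℝ := 1 - 1 / G n
def kap (G : ℕ → ℕ) (n : ℕ) : ℝ := 4 / (1 - aa G n ^ 2)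
def cc (G : ℕ → ℕ) (n : ℕ) : ℝ := (1 - aa G n ^ 2) / (2 * aa G n)
def rho2 (G : ℕ → ℕ) (n : ℕ) : ℝ := 1 / (aa G n) ^ 2 + 1 / G n
def al (G : ℕ → ℕ) (j : ℕ) : ℝ := if st G (j + 1) = j + 1 then 0 else aa G (st G j)
def ga (G : ℕ → ℕ) (j : ℕ) : ℝ := if st G (j + 1) = j + 1 then 1 / (G (j + 1) : ℝ) ^ 2 else cc G (st G j)

variable {G : ℕ → ℕ}

lemma Gr (hG : ∀ n, 2 ≤ G n) (n : ℕ) : (2 : ℝ) ≤ G n := by exact_mod_cast hG n

lemma inv_G_le (hG : ∀ n, 2 ≤ G n) (n : ℕ) : (1 : ℝ) / G n ≤ 1 / 2 :=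
  one_div_le_one_div_of_le (by norm_num) (Gr hG n)

lemma inv_G_pos (hG : ∀ n, 2 ≤ G n) (n : ℕ) : (0 : ℝ) < 1 / G n := by
  have := Gr hG n; positivity

lemma aa_ge (hG : ∀ n, 2 ≤ G n) (n : ℕ) : 1 / 2 ≤ aa G n := by
  have := inv_G_le hG n; unfold aa; linarith

lemma aa_lt (hG : ∀ n, 2 ≤ G n) (n : ℕ) : aa G n < 1 := by
  have := inv_G_pos hG n; unfold aa; linarith

lemma one_sub_sq (hG : ∀ n, 2 ≤ G n) (n : ℕ) : 1 / (G n : ℝ) ≤ 1 - aa G n ^ 2 := by
  have h1 := inv_G_le hG n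
  have h2 := inv_G_pos hG n
  unfold aa; nlinarith

lemma one_sub_sq_pos (hG : ∀ n, 2 ≤ G n) (n : ℕ) : 0 < 1 - aa G n ^ 2 :=
  lt_of_lt_of_le (inv_G_pos hG n) (one_sub_sq hG n)

lemma kap_pos (hG : ∀ n, 2 ≤ G n) (n : ℕ) : 0 < kap G n := by
  have := one_sub_sq_pos hG n; unfold kap; positivity

lemma kap_le (hG : ∀ n, 2 ≤ G n) (n : ℕ) : kap G n ≤ 4 * G n := by
  have h1 := one_sub_sq hG n
  have h2 := Gr hG n
  unfold kap
  rw [div_le_iff₀ (one_sub_sq_pos hG n)]
  have : 4 * (G n : ℝ) * (1 / G n) ≤ 4 * G n * (1 - aa G n ^ 2) := mul_le_mul_of_nonneg_left h1 (by linarith)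
  have h3 : 4 * (G n : ℝ) * (1 / G n) = 4 := by field_simp
  linarith

lemma cc_ge (hG : ∀ n, 2 ≤ G n) (n : ℕ) : 1 / (2 * (G n : ℝ)) ≤ cc G n := by
  have h1 := one_sub_sq hG n
  have h2 := aa_ge hG n
  have h3 := aa_lt hG n
  unfold cc
  calc 1 / (2 * (G n : ℝ)) = (1 / (G n : ℝ)) / 2 := by field_simp
    _ ≤ (1 - aa G n ^ 2) / 2 := by linarith
    _ ≤ (1 - aa G n ^ 2) / (2 * aa G n) := by
      apply div_le_div_of_nonneg_left (one_sub_sq_pos hG n).le (by linarith) (by linarith)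

lemma rho2_ge_one (hG : ∀ n, 2 ≤ G n) (n : ℕ) : 1 ≤ rho2 G n := by
  have h2 := aa_ge hG n
  have h3 := aa_lt hG n
  have h4 := inv_G_pos hG n
  unfold rho2
  have : 1 ≤ 1 / (aa G n) ^ 2 := by
    rw [le_div_iff₀ (by positivity)]
    nlinarith
  linarith

lemma rho2_anti (hG : ∀ n, 2 ≤ G n) (hm : Monotone G) {m n : ℕ} (h : m ≤ n) : rho2 G n ≤ rho2 G m := by
  have hg : (G m : ℝ) ≤ G n := by exact_mod_cast hm h
  have h2 := aa_ge hG m
  have h2' := Gr hG m
  have h5 : (1 : ℝ) / G n ≤ 1 / G m := one_div_le_one_div_of_le (by linarith) hg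
  have h6 : aa G m ≤ aa G n := by unfold aa; linarith
  unfold rho2
  have : 1 / (aa G n) ^ 2 ≤ 1 / (aa G m) ^ 2 := by
    apply one_div_le_one_div_of_le (by positivity)
    exact pow_le_pow_left₀ (by linarith) h6 2
  linarith

/-- The energy inequality at one step. -/
lemma step (hG : ∀ n, 2 ≤ G n) (hm : Monotone G) (j : ℕ) (x y : ℂ) :
    kap G (st G (j + 1)) * ‖(al G j : ℂ) * y + (ga G j : ℂ) * x‖ ^ 2 + ‖2 * y - x‖ ^ 2 ≤
      kap G (st G j) * ‖y‖ ^ 2 + rho2 G (st G j) * ‖x‖ ^ 2 := by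
  by_cases h : st G (j + 1) = j + 1
  · -- reset
    have e1 : al G j = 0 := by unfold al; rw [if_pos h]
    have e2 : ga G j = 1 / (G (j + 1) : ℝ) ^ 2 := by unfold ga; rw [if_pos h]
    rw [e1, e2, h]
    set n := st G j with hn
    have hnj : n ≤ j + 1 := (st_le G j).trans (Nat.le_succ j)
    have hk : kap G (j + 1) * (1 / (G (j + 1) : ℝ) ^ 2) ^ 2 ≤ 1 / G n := by
      have h1 := kap_le hG (j + 1)
      have h2 := Gr hG (j + 1)
      have h3 : (G n : ℝ) ≤ G (j + 1) := by exact_mod_cast hm hnj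
      have h4 := Gr hG n
      calc kap G (j + 1) * (1 / (G (j + 1) : ℝ) ^ 2) ^ 2 ≤ 4 * G (j + 1) * (1 / (G (j + 1) : ℝ) ^ 2) ^ 2 := by gcongr
        _ = 4 / (G (j + 1) : ℝ) ^ 3 := by field_simp
        _ ≤ 1 / G (j + 1) := by
          rw [div_le_div_iff₀ (by positivity) (by positivity)]
          nlinarith [mul_self_nonneg ((G (j + 1) : ℝ) - 2)]
        _ ≤ 1 / G n := one_div_le_one_div_of_le (by linarith) h3
    have hs := one_sub_sq_pos hG n
    have ha := aa_ge hG n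
    have hx : ‖((0 : ℝ) : ℂ) * y + ((1 / (G (j + 1) : ℝ) ^ 2 : ℝ) : ℂ) * x‖ ^ 2 = (1 / (G (j + 1) : ℝ) ^ 2) ^ 2 * ‖x‖ ^ 2 := by
      rw [Complex.ofReal_zero, zero_mul, zero_add, norm_mul, Complex.norm_real, mul_pow, Real.norm_eq_abs, sq_abs]
    rw [hx]
    have h3 : ‖2 * y - x‖ ^ 2 ≤ kap G n * ‖y‖ ^ 2 + 1 / aa G n ^ 2 * ‖x‖ ^ 2 := by
      rw [Complex.sq_norm, Complex.sq_norm, Complex.sq_norm, Complex.normSq_apply, Complex.normSq_apply, Complex.normSq_apply]
      simp only [Complex.sub_re, Complex.mul_re, Complex.sub_im, Complex.mul_im, Complex.re_ofNat, Complex.im_ofNat,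
        zero_mul, sub_zero, add_zero]
      unfold kap
      set a := aa G n with haa
      have key : ∀ u v : ℝ, (2 * u - v) * (2 * u - v) ≤ 4 / (1 - a ^ 2) * (u * u) + 1 / a ^ 2 * (v * v) := by
        intro u v
        have : 4 / (1 - a ^ 2) * (u * u) + 1 / a ^ 2 * (v * v) - (2 * u - v) * (2 * u - v) =
            (2 * a ^ 2 * u + (1 - a ^ 2) * v) ^ 2 / (a ^ 2 * (1 - a ^ 2)) := by
          field_simp
          ring
        have h6 : 0 ≤ (2 * a ^ 2 * u + (1 - a ^ 2) * v) ^ 2 / (a ^ 2 * (1 - a ^ 2)) := by positivity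
        linarith
      have k1 := key y.re x.re
      have k2 := key y.im x.im
      linarith
    have hx0 : 0 ≤ ‖x‖ ^ 2 := by positivity
    unfold rho2
    nlinarith
  · -- regular step
    have h' : st G (j + 1) = st G j := by
      rw [st_succ] at h ⊢
      split_ifs at h ⊢ with h1
      · exact absurd rfl h
      · rfl
    have e1 : al G j = aa G (st G j) := by unfold al; rw [if_neg h]
    have e2 : ga G j = cc G (st G j) := by unfold ga; rw [if_neg h]
    rw [e1, e2, h']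
    set n := st G j with hn
    have hs := one_sub_sq_pos hG n
    have ha := aa_ge hG n
    have hg := inv_G_pos hG n
    have h3 : kap G n * ‖(aa G n : ℂ) * y + (cc G n : ℂ) * x‖ ^ 2 + ‖2 * y - x‖ ^ 2 =
        kap G n * ‖y‖ ^ 2 + 1 / aa G n ^ 2 * ‖x‖ ^ 2 := by
      rw [Complex.sq_norm, Complex.sq_norm, Complex.sq_norm, Complex.sq_norm, Complex.normSq_apply,
        Complex.normSq_apply, Complex.normSq_apply, Complex.normSq_apply]
      simp only [Complex.sub_re, Complex.mul_re, Complex.sub_im, Complex.mul_im, Complex.re_ofNat, Complex.im_ofNat,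
        zero_mul, sub_zero, add_zero, Complex.add_re, Complex.add_im, Complex.ofReal_re, Complex.ofReal_im]
      unfold kap cc
      set a := aa G n with haa
      have ha0 : a ≠ 0 := by linarith
      have hs0 : 1 - a ^ 2 ≠ 0 := hs.ne'
      field_simp
      ring
    rw [h3]
    have hx0 : 0 ≤ ‖x‖ ^ 2 := by positivity
    unfold rho2
    nlinarith

/-- filter output -/
def filt (G : ℕ → ℕ) (x : ℕ → ℂ) : ℕ → ℂ
  | 0 => 0
  | (j + 1) => (al G j : ℂ) * filt G x j + (ga G j : ℂ) * x j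

lemma energy (hG : ∀ n, 2 ≤ G n) (hm : Monotone G) (x : ℕ → ℂ) (N : ℕ) (hN : st G N = N) (n : ℕ) (hn : N ≤ n) :
    kap G (st G n) * ‖filt G x n‖ ^ 2 + ∑ j ∈ Ico N n, ‖2 * filt G x j - x j‖ ^ 2 ≤
      kap G N * ‖filt G x N‖ ^ 2 + rho2 G N * ∑ j ∈ Ico N n, ‖x j‖ ^ 2 := by
  induction n, hn using Nat.le_induction with
  | base => rw [hN]; simp
  | succ n hn ih =>
    rw [Finset.sum_Ico_succ_top hn, Finset.sum_Ico_succ_top hn]
    have h1 := step hG hm n (x n) (filt G x n)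
    have h2 : rho2 G (st G n) ≤ rho2 G N := by
      apply rho2_anti hG hm
      rw [← hN]; exact st_mono G hn
    have h3 : rho2 G (st G n) * ‖x n‖ ^ 2 ≤ rho2 G N * ‖x n‖ ^ 2 := mul_le_mul_of_nonneg_right h2 (by positivity)
    have h4 : filt G x (n + 1) = (al G n : ℂ) * filt G x n + (ga G n : ℂ) * x n := rfl
    rw [h4, mul_add]
    linarith

end

end Pool.Agent.Helper328.Uni
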