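import Pool.Agent.Helper328.UniA

set_option autoImplicit false
open Finset
open scoped ENNReal NNReal

namespace Pool.Agent.Helper328.Uni

/-- The Hilbert space `ℓ²(ℕ, ℂ)`. -/
abbrev HH : Type := lp (fun _ : ℕ => ℂ) 2

noncomputable section

lemma two_toReal : (2 : ℝ≥0∞).toReal = 2 := by norm_num

lemma sum_sq_le (x : HH) (s : Finset ℕ) : ∑ i ∈ s, ‖x i‖ ^ 2 ≤ ‖x‖ ^ 2 := by
  have := lp.sum_rpow_le_norm_rpow (p := 2) (by norm_num) x s
  rw [two_toReal] at this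
  simpa using this

lemma norm_le_of_sums (x : HH) (C : ℝ) (hC : 0 ≤ C) (h : ∀ n : ℕ, ∑ i ∈ range n, ‖x i‖ ^ 2 ≤ C ^ 2) : ‖x‖ ≤ C := by
  apply lp.norm_le_of_forall_sum_le (p := 2) (by norm_num) hC
  intro s
  rw [two_toReal]
  obtain ⟨n, hn⟩ := s.exists_nat_subset_range
  have h1 := h n
  have h2 : ∑ i ∈ s, ‖x i‖ ^ 2 ≤ ∑ i ∈ range n, ‖x i‖ ^ 2 :=
    Finset.sum_le_sum_of_subset_of_nonneg hn fun i _ _ => by positivity
  have h3 := h2.trans h1
  simpa using h3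

lemma memlp_of_sums (x : ℕ → ℂ) (C : ℝ) (h : ∀ n : ℕ, ∑ i ∈ range n, ‖x i‖ ^ 2 ≤ C) : Memℓp x 2 := by
  apply memℓp_gen' (C := C)
  intro s
  rw [two_toReal]
  obtain ⟨n, hn⟩ := s.exists_nat_subset_range
  have h1 := h n
  have h2 : ∑ i ∈ s, ‖x i‖ ^ 2 ≤ ∑ i ∈ range n, ‖x i‖ ^ 2 :=
    Finset.sum_le_sum_of_subset_of_nonneg hn fun i _ _ => by positivity
  have h3 := h2.trans h1
  simpa using h3

variable {G : ℕ → ℕ}

lemma filt_add (x y : ℕ → ℂ) (n : ℕ) : filt G (x + y) n = filt G x n + filt G y n := by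
  induction n with
  | zero => simp [filt]
  | succ n ih => simp only [filt, ih, Pi.add_apply]; ring

lemma filt_smul (c : ℂ) (x : ℕ → ℂ) (n : ℕ) : filt G (c • x) n = c * filt G x n := by
  induction n with
  | zero => simp [filt]
  | succ n ih => simp only [filt, ih, Pi.smul_apply, smul_eq_mul]; ring

lemma filt_zero_of (x : ℕ → ℂ) (N : ℕ) (h : ∀ j < N, x j = 0) : ∀ j ≤ N, filt G x j = 0 := by
  intro j hj
  induction j with
  | zero => rfl
  | succ j ih => simp only [filt, ih (by omega), h j (by omega)]; ring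

/-- main quadratic estimate -/
lemma filt_est (hG : ∀ n, 2 ≤ G n) (hm : Monotone G) (x : HH) (N : ℕ) (hN : st G N = N)
    (h : ∀ j < N, x j = 0) (n : ℕ) :
    ∑ j ∈ range n, ‖2 * filt G x j - x j‖ ^ 2 ≤ rho2 G N * ‖x‖ ^ 2 := by
  have hr := rho2_ge_one hG N
  have hz := filt_zero_of (G := G) x N h
  rcases le_total n N with hn | hn
  · have : ∑ j ∈ range n, ‖2 * filt G x j - x j‖ ^ 2 = 0 := by
      apply Finset.sum_eq_zero
      intro j hj
      have hj' := Finset.mem_range.mp hj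
      rw [hz j (by omega), h j (by omega)]; simp
    rw [this]; positivity
  · have h1 := energy hG hm x N hN n hn
    rw [hz N (le_refl _)] at h1
    have h2 : ∑ j ∈ range n, ‖2 * filt G x j - x j‖ ^ 2 = ∑ j ∈ Ico N n, ‖2 * filt G x j - x j‖ ^ 2 := by
      rw [Finset.range_eq_Ico, ← Finset.sum_Ico_consecutive _ (Nat.zero_le N) hn]
      have : ∑ j ∈ Ico 0 N, ‖2 * filt G x j - x j‖ ^ 2 = 0 := by
        apply Finset.sum_eq_zero
        intro j hj
        have hj' := (Finset.mem_Ico.mp hj).2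
        rw [hz j (by omega), h j (by omega)]; simp
      rw [this, zero_add]
    have h3 : 0 ≤ kap G (st G n) * ‖filt G x n‖ ^ 2 := mul_nonneg (kap_pos hG _).le (by positivity)
    have h4 : rho2 G N * ∑ j ∈ Ico N n, ‖x j‖ ^ 2 ≤ rho2 G N * ‖x‖ ^ 2 :=
      mul_le_mul_of_nonneg_left (sum_sq_le x _) (by linarith)
    rw [h2]
    simp only [norm_zero] at h1
    have h5 : kap G N * (0 : ℝ) ^ 2 = 0 := by ring
    linarith

lemma filt_mem (hG : ∀ n, 2 ≤ G n) (hm : Monotone G) (x : HH) : Memℓp (filt G x) 2 := by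
  have h1 : Memℓp (fun j => 2 * filt G x j - x j) 2 :=
    memlp_of_sums _ _ (fun n => filt_est hG hm x 0 rfl (by intro j hj; omega) n)
  have h2 : Memℓp (x : ℕ → ℂ) 2 := lp.memℓp x
  have h3 := (h1.add h2).const_smul (1 / 2 : ℂ)
  have h4 : ((1 / 2 : ℂ) • ((fun j => 2 * filt G x j - x j) + (x : ℕ → ℂ))) = filt G x := by
    funext j
    simp only [Pi.smul_apply, Pi.add_apply, smul_eq_mul]
    ring
  rw [h4] at h3
  exact h3

variable (G) in
/-- the operator, as a linear map -/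
def TL (hG : ∀ n, 2 ≤ G n) (hm : Monotone G) : HH →ₗ[ℂ] HH where
  toFun x := ⟨filt G x, filt_mem hG hm x⟩
  map_add' x y := by
    ext n
    exact filt_add x y n
  map_smul' c x := by
    ext n
    exact filt_smul c x n

lemma TL_apply (hG : ∀ n, 2 ≤ G n) (hm : Monotone G) (x : HH) (n : ℕ) : (TL G hG hm x) n = filt G x n := rfl

lemma TL_est (hG : ∀ n, 2 ≤ G n) (hm : Monotone G) (x : HH) (N : ℕ) (hN : st G N = N)
    (h : ∀ j < N, x j = 0) : ‖x - (2 : ℂ) • TL G hG hm x‖ ≤ Real.sqrt (rho2 G N) * ‖x‖ := by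
  have hr := rho2_ge_one hG N
  apply norm_le_of_sums _ _ (by positivity)
  intro n
  rw [mul_pow, Real.sq_sqrt (by linarith)]
  have h1 := filt_est hG hm x N hN h n
  refine le_trans (le_of_eq ?_) h1
  apply Finset.sum_congr rfl
  intro j _
  congr 1
  rw [← norm_neg]
  congr 1
  change -(x j - 2 * filt G x j) = _
  ring

lemma TL_bound (hG : ∀ n, 2 ≤ G n) (hm : Monotone G) (x : HH) : ‖TL G hG hm x‖ ≤ (1 + Real.sqrt (rho2 G 0)) / 2 * ‖x‖ := by
  have h1 := TL_est hG hm x 0 rfl (by intro j hj; omega)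
  have h2 : (2 : ℂ) • TL G hG hm x = x - (x - (2 : ℂ) • TL G hG hm x) := by abel
  have h3 : ‖(2 : ℂ) • TL G hG hm x‖ ≤ ‖x‖ + Real.sqrt (rho2 G 0) * ‖x‖ := by
    rw [h2]; exact (norm_sub_le _ _).trans (add_le_add (le_refl _) h1)
  rw [norm_smul] at h3
  have : ‖(2 : ℂ)‖ = 2 := by simp
  rw [this] at h3
  linarith

variable (G) in
/-- the operator -/
def TT (hG : ∀ n, 2 ≤ G n) (hm : Monotone G) : HH →L[ℂ] HH :=
  (TL G hG hm).mkContinuous ((1 + Real.sqrt (rho2 G 0)) / 2) (TL_bound hG hm)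

lemma TT_apply (hG : ∀ n, 2 ≤ G n) (hm : Monotone G) (x : HH) (n : ℕ) : (TT G hG hm x) n = filt G x n := rfl

lemma TT_zero (hG : ∀ n, 2 ≤ G n) (hm : Monotone G) (x : HH) : (TT G hG hm x) 0 = 0 := rfl

lemma TT_succ (hG : ∀ n, 2 ≤ G n) (hm : Monotone G) (x : HH) (n : ℕ) :
    (TT G hG hm x) (n + 1) = (al G n : ℂ) * (TT G hG hm x) n + (ga G n : ℂ) * x n := rfl

lemma rho2_le_five (hG : ∀ n, 2 ≤ G n) (n : ℕ) : rho2 G n ≤ 5 := by
  have h1 := aa_ge hG n
  have h2 := inv_G_le hG n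
  unfold rho2
  have : 1 / (aa G n) ^ 2 ≤ 1 / (1 / 2) ^ 2 := by
    apply one_div_le_one_div_of_le (by norm_num)
    exact pow_le_pow_left₀ (by norm_num) h1 2
  norm_num at this ⊢
  norm_num at h2
  linarith

lemma TT_norm (hG : ∀ n, 2 ≤ G n) (hm : Monotone G) : ‖TT G hG hm‖ ≤ 2 := by
  apply ContinuousLinearMap.opNorm_le_bound _ (by norm_num)
  intro x
  refine (TL_bound hG hm x).trans ?_
  apply mul_le_mul_of_nonneg_right _ (norm_nonneg _)
  have : Real.sqrt (rho2 G 0) ≤ 3 := by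
    rw [Real.sqrt_le_left (by norm_num)]
    have := rho2_le_five hG 0
    linarith
  linarith

/-- the tail estimate at block starts -/
lemma TT_tail (hG : ∀ n, 2 ≤ G n) (hm : Monotone G) (x : HH) (N : ℕ) (hN : st G N = N)
    (h : ∀ j < N, x j = 0) : ‖x - (2 : ℂ) • TT G hG hm x‖ ≤ Real.sqrt (rho2 G N) * ‖x‖ :=
  TL_est hG hm x N hN h

end

end Pool.Agent.Helper328.Uni
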