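import Pool.Agent.Helper328.UniB

set_option autoImplicit false
open Finset
open scoped ENNReal NNReal

namespace Pool.Agent.Helper328.Uni

noncomputable section

/-- truncation as a linear map -/
def PL (N : ℕ) : HH →ₗ[ℂ] HH where
  toFun x := ⟨fun j => if j < N then x j else 0, by
    apply memlp_of_sums _ (‖x‖ ^ 2)
    intro n
    refine le_trans (Finset.sum_le_sum fun i _ => ?_) (sum_sq_le x (range n))
    split_ifs
    · exact le_refl _
    · simp⟩
  map_add' x y := by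
    ext n
    change (if n < N then (x + y) n else 0) = (if n < N then x n else 0) + (if n < N then y n else 0)
    split_ifs
    · rfl
    · simp
  map_smul' c x := by
    ext n
    change (if n < N then (c • x) n else 0) = c * (if n < N then x n else 0)
    split_ifs
    · rfl
    · simp

lemma PL_bound (N : ℕ) (x : HH) : ‖PL N x‖ ≤ 1 * ‖x‖ := by
  rw [one_mul]
  apply norm_le_of_sums _ _ (norm_nonneg _)
  intro n
  refine le_trans (Finset.sum_le_sum fun i _ => ?_) (sum_sq_le x (range n))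
  change ‖(if i < N then x i else 0)‖ ^ 2 ≤ ‖x i‖ ^ 2
  split_ifs
  · exact le_refl _
  · simp

/-- truncation to the first `N` coordinates -/
def PP (N : ℕ) : HH →L[ℂ] HH := (PL N).mkContinuous 1 (PL_bound N)

lemma PP_apply (N : ℕ) (x : HH) (j : ℕ) : (PP N x) j = if j < N then x j else 0 := rfl

lemma PP_norm (N : ℕ) (x : HH) : ‖PP N x‖ ≤ ‖x‖ := by
  have := PL_bound N x
  rwa [one_mul] at this

lemma QQ_apply (N : ℕ) (x : HH) (j : ℕ) : (x - PP N x) j = if j < N then 0 else x j := by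
  change x j - (PP N x) j = _
  rw [PP_apply]
  split_ifs <;> simp

lemma QQ_norm (N : ℕ) (x : HH) : ‖x - PP N x‖ ≤ ‖x‖ := by
  apply norm_le_of_sums _ _ (norm_nonneg _)
  intro n
  refine le_trans (Finset.sum_le_sum fun i _ => ?_) (sum_sq_le x (range n))
  rw [QQ_apply]
  split_ifs
  · simp
  · exact le_refl _

lemma PP_idem (N : ℕ) (x : HH) : PP N (PP N x) = PP N x := by
  ext j
  rw [PP_apply, PP_apply]
  split_ifs <;> rfl

lemma PP_zero_of (N : ℕ) (x : HH) (h : ∀ j < N, x j = 0) : PP N x = 0 := by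
  ext j
  rw [PP_apply]
  split_ifs with h1
  · rw [h j h1]; rfl
  · rfl

variable {G : ℕ → ℕ} (hG : ∀ n, 2 ≤ G n) (hm : Monotone G)

include hG hm in
lemma TT_low (x : HH) (N : ℕ) (h : ∀ j < N, x j = 0) : ∀ j ≤ N, (TT G hG hm x) j = 0 :=
  filt_zero_of x N h

include hG hm in
lemma TT_pow_low (x : HH) (N k : ℕ) (h : ∀ j < N, x j = 0) : ∀ j < N + k, ((TT G hG hm ^ k) x) j = 0 := by
  induction k with
  | zero => simpa using h
  | succ k ih =>
    intro j hj
    rw [pow_succ', mul_apply_eq_comp]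
    exact TT_low hG hm _ (N + k) ih j (by omega)

/-- The coupling across a block boundary is small. -/
lemma coupling (x : HH) (N : ℕ) (hN : st G N = N) (hN0 : 0 < N) (h : ∀ j, N ≤ j → x j = 0) :
    ‖TT G hG hm x - PP N (TT G hG hm x)‖ ≤ 1 / (G N : ℝ) * ‖x‖ := by
  have hg := Gr hG N
  apply norm_le_of_sums _ _ (by positivity)
  intro n
  set y := filt G x with hy
  have hyN : ‖y N‖ ≤ 1 / (G N : ℝ) ^ 2 * ‖x‖ := by
    obtain ⟨M, rfl⟩ : ∃ M, N = M + 1 := ⟨N - 1, by omega⟩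
    have e1 : al G M = 0 := by unfold al; rw [if_pos hN]
    have e2 : ga G M = 1 / (G (M + 1) : ℝ) ^ 2 := by unfold ga; rw [if_pos hN]
    have : y (M + 1) = (al G M : ℂ) * y M + (ga G M : ℂ) * x M := rfl
    rw [this, e1, e2, Complex.ofReal_zero, zero_mul, zero_add, norm_mul, Complex.norm_real, Real.norm_eq_abs,
      abs_of_nonneg (by positivity)]
    apply mul_le_mul_of_nonneg_left _ (by positivity)
    exact lp.norm_apply_le_norm (by norm_num) x M
  have hterm : ∀ j ∈ range n, ‖(TT G hG hm x - PP N (TT G hG hm x)) j‖ ^ 2 = if j < N then 0 else ‖y j‖ ^ 2 := by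
    intro j _
    rw [QQ_apply]
    split_ifs
    · simp
    · rfl
  rw [Finset.sum_congr rfl hterm]
  rcases le_total n N with hn | hn
  · have : ∑ j ∈ range n, (if j < N then 0 else ‖y j‖ ^ 2) = 0 := by
      apply Finset.sum_eq_zero
      intro j hj
      rw [if_pos (by have := Finset.mem_range.mp hj; omega)]
    rw [this]; positivity
  · have h1 := energy hG hm x N hN n hn
    have h2 : ∑ j ∈ range n, (if j < N then 0 else ‖y j‖ ^ 2) = ∑ j ∈ Ico N n, ‖y j‖ ^ 2 := by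
      rw [Finset.range_eq_Ico, ← Finset.sum_Ico_consecutive _ (Nat.zero_le N) hn]
      have : ∑ j ∈ Ico 0 N, (if j < N then 0 else ‖y j‖ ^ 2) = 0 := by
        apply Finset.sum_eq_zero
        intro j hj
        rw [if_pos (Finset.mem_Ico.mp hj).2]
      rw [this, zero_add]
      apply Finset.sum_congr rfl
      intro j hj
      rw [if_neg (by have := (Finset.mem_Ico.mp hj).1; omega)]
    have h3 : ∑ j ∈ Ico N n, ‖2 * filt G x j - x j‖ ^ 2 = 4 * ∑ j ∈ Ico N n, ‖y j‖ ^ 2 := by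
      rw [Finset.mul_sum]
      apply Finset.sum_congr rfl
      intro j hj
      rw [h j (Finset.mem_Ico.mp hj).1, sub_zero, norm_mul, mul_pow]
      congr 1
      norm_num
    have h4 : ∑ j ∈ Ico N n, ‖x j‖ ^ 2 = 0 := by
      apply Finset.sum_eq_zero
      intro j hj
      rw [h j (Finset.mem_Ico.mp hj).1]; simp
    rw [h3, h4, mul_zero, add_zero] at h1
    have h5 : 0 ≤ kap G (st G n) * ‖filt G x n‖ ^ 2 := mul_nonneg (kap_pos hG _).le (by positivity)
    rw [h2]
    have h6 := kap_le hG N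
    have h7 : ‖filt G x N‖ ^ 2 ≤ (1 / (G N : ℝ) ^ 2 * ‖x‖) ^ 2 := pow_le_pow_left₀ (norm_nonneg _) hyN 2
    have h8 : kap G N * ‖filt G x N‖ ^ 2 ≤ 4 * G N * (1 / (G N : ℝ) ^ 2 * ‖x‖) ^ 2 := by
      apply mul_le_mul h6 h7 (by positivity) (by positivity)
    have h9 : (G N : ℝ) * (1 / (G N : ℝ) ^ 2 * ‖x‖) ^ 2 ≤ (1 / (G N : ℝ) * ‖x‖) ^ 2 := by
      have : (G N : ℝ) * (1 / (G N : ℝ) ^ 2 * ‖x‖) ^ 2 = (1 / (G N : ℝ)) * (1 / (G N : ℝ) * ‖x‖) ^ 2 := by
        field_simp
      rw [this]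
      have h10 : 1 / (G N : ℝ) ≤ 1 := by
        rw [div_le_one (by linarith)]; linarith
      calc (1 / (G N : ℝ)) * (1 / (G N : ℝ) * ‖x‖) ^ 2 ≤ 1 * (1 / (G N : ℝ) * ‖x‖) ^ 2 := by gcongr
        _ = _ := one_mul _
    nlinarith

lemma opnorm_pow (T : HH →L[ℂ] HH) (hT : ‖T‖ ≤ 2) (n : ℕ) : ‖T ^ n‖ ≤ 2 ^ n := by
  induction n with
  | zero => rw [pow_zero, pow_zero]; exact ContinuousLinearMap.norm_id_le
  | succ n ih =>
    rw [pow_succ, pow_succ]
    exact (norm_mul_le _ _).trans (mul_le_mul ih hT (norm_nonneg _) (by positivity))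

/-- Polynomial estimate for the corner. -/
lemma corner_poly (p : Polynomial ℂ) : ∃ C : ℝ, 0 ≤ C ∧ ∀ (T : HH →L[ℂ] HH) (N : ℕ) (e : ℝ), ‖T‖ ≤ 2 → 0 ≤ e →
    (∀ x, ‖T (PP N x) - PP N (T (PP N x))‖ ≤ e * ‖x‖) →
    ∀ x, ‖(Polynomial.aeval T p) (PP N x) - PP N ((Polynomial.aeval T p) (PP N x))‖ ≤ C * e * ‖x‖ := by
  induction p using Polynomial.induction_on with
  | C a =>
    refine ⟨0, le_refl _, ?_⟩
    intro T N e hT he h x
    rw [Polynomial.aeval_C]
    have h1 : (algebraMap ℂ (HH →L[ℂ] HH) a) (PP N x) = a • PP N x := by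
      rw [Algebra.algebraMap_eq_smul_one]; rfl
    rw [h1, map_smul, PP_idem, sub_self, norm_zero]
    simp
  | add p q hp hq =>
    obtain ⟨C1, hC1, h1⟩ := hp
    obtain ⟨C2, hC2, h2⟩ := hq
    refine ⟨C1 + C2, add_nonneg hC1 hC2, ?_⟩
    intro T N e hT he h x
    have e1 := h1 T N e hT he h x
    have e2 := h2 T N e hT he h x
    rw [map_add, add_apply, map_add]
    calc _ = ‖((Polynomial.aeval T p) (PP N x) - PP N ((Polynomial.aeval T p) (PP N x))) +
        ((Polynomial.aeval T q) (PP N x) - PP N ((Polynomial.aeval T q) (PP N x)))‖ := by congr 1; abel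
      _ ≤ C1 * e * ‖x‖ + C2 * e * ‖x‖ := (norm_add_le _ _).trans (add_le_add e1 e2)
      _ = _ := by ring
  | monomial n a ih =>
    obtain ⟨C1, hC1, h1⟩ := ih
    refine ⟨‖a‖ * 2 ^ n + 2 * C1, by positivity, ?_⟩
    intro T N e hT he h x
    have e1 := h1 T N e hT he h x
    -- p = C a * X^n, aeval T (C a * X^(n+1)) = T * aeval T p
    set A := Polynomial.aeval T (Polynomial.C a * Polynomial.X ^ n) with hA
    have h3 : Polynomial.aeval T (Polynomial.C a * Polynomial.X ^ (n + 1)) = T * A := by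
      rw [hA, map_mul, map_mul, map_pow, map_pow, Polynomial.aeval_X, Polynomial.aeval_C, pow_succ']
      rw [← mul_assoc, ← mul_assoc, Algebra.commutes]
    rw [h3, mul_apply_eq_comp]
    set u := A (PP N x) with hu
    have hun : ‖PP N u‖ ≤ ‖a‖ * 2 ^ n * ‖x‖ := by
      refine (PP_norm N u).trans ?_
      have h4 : ‖A‖ ≤ ‖a‖ * 2 ^ n := by
        rw [hA, map_mul, map_pow, Polynomial.aeval_X, Polynomial.aeval_C, Algebra.algebraMap_eq_smul_one,
          smul_mul_assoc, one_mul, norm_smul]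
        apply mul_le_mul_of_nonneg_left _ (norm_nonneg _)
        exact opnorm_pow T hT n
      calc ‖u‖ ≤ ‖A‖ * ‖PP N x‖ := A.le_opNorm _
        _ ≤ (‖a‖ * 2 ^ n) * ‖x‖ := mul_le_mul h4 (PP_norm N x) (norm_nonneg _) (by positivity)
    have h5 : T u - PP N (T u) = (T (PP N (PP N u)) - PP N (T (PP N (PP N u)))) +
        (T (u - PP N u) - PP N (T (u - PP N u))) := by
      rw [PP_idem, map_sub, map_sub]; abel
    rw [h5]
    have h6 := h (PP N u)
    have h7 : ‖T (u - PP N u) - PP N (T (u - PP N u))‖ ≤ 2 * (C1 * e * ‖x‖) := by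
      refine (QQ_norm N _).trans ?_
      calc ‖T (u - PP N u)‖ ≤ ‖T‖ * ‖u - PP N u‖ := T.le_opNorm _
        _ ≤ 2 * (C1 * e * ‖x‖) := mul_le_mul hT e1 (norm_nonneg _) (by norm_num)
    calc _ ≤ e * ‖PP N u‖ + 2 * (C1 * e * ‖x‖) := (norm_add_le _ _).trans (add_le_add h6 h7)
      _ ≤ e * (‖a‖ * 2 ^ n * ‖x‖) + 2 * (C1 * e * ‖x‖) := by gcongr
      _ = _ := by ring

end

end Pool.Agent.Helper328.Uni
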