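import Pool.Agent.Helper328.UniC

set_option autoImplicit false
open Finset
open scoped ENNReal NNReal

namespace Pool.Agent.Helper328.Uni

noncomputable section

/-- Cesaro polynomial -/
def sP (m : ℕ) : Polynomial ℂ :=
  Polynomial.C (1 / (m : ℂ)) * ∑ k ∈ range m, (1 - 2 * Polynomial.X) ^ k

def uP (N m : ℕ) : Polynomial ℂ := ∑ k ∈ range N, (1 - sP m) ^ k

/-- the test polynomials -/
def pP (i N m : ℕ) : Polynomial ℂ := Polynomial.X ^ i * (1 - (1 - sP m) ^ N)

lemma sP_eval (m : ℕ) (hm : 0 < m) : (sP m).eval 0 = 1 := by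
  unfold sP
  simp only [Polynomial.eval_mul, Polynomial.eval_C, Polynomial.eval_finsetSum, Polynomial.eval_pow, Polynomial.eval_sub,
    Polynomial.eval_one, Polynomial.eval_X, Polynomial.eval_ofNat, mul_zero, sub_zero, one_pow, Finset.sum_const,
    Finset.card_range, nsmul_eq_mul, mul_one]
  have : (m : ℂ) ≠ 0 := by exact_mod_cast hm.ne'
  field_simp

lemma X_dvd (m : ℕ) (hm : 0 < m) : Polynomial.X ∣ (1 - sP m) := by
  rw [Polynomial.X_dvd_iff, Polynomial.coeff_zero_eq_eval_zero, Polynomial.eval_sub, sP_eval m hm, Polynomial.eval_one,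
    sub_self]

lemma pP_eq (i N m : ℕ) (hm : 0 < m) : ∃ r : Polynomial ℂ, pP i N m = Polynomial.X ^ i - Polynomial.X ^ N * r := by
  obtain ⟨r, hr⟩ := X_dvd m hm
  refine ⟨Polynomial.X ^ i * r ^ N, ?_⟩
  unfold pP
  rw [hr, mul_pow]; ring

lemma X_mul_sP (m : ℕ) (hm : 0 < m) : Polynomial.X * sP m =
    Polynomial.C (1 / (2 * (m : ℂ))) * (1 - (1 - 2 * Polynomial.X) ^ m) := by
  have hmc : (m : ℂ) ≠ 0 := by exact_mod_cast hm.ne'
  have h := mul_geom_sum (1 - 2 * Polynomial.X : Polynomial ℂ) m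
  have h2 : (2 : Polynomial ℂ) * (Polynomial.X * ∑ k ∈ range m, (1 - 2 * Polynomial.X) ^ k) = 1 - (1 - 2 * Polynomial.X) ^ m := by
    have : ((1 : Polynomial ℂ) - 2 * Polynomial.X - 1) = -(2 * Polynomial.X) := by ring
    rw [this] at h
    calc (2 : Polynomial ℂ) * (Polynomial.X * ∑ k ∈ range m, (1 - 2 * Polynomial.X) ^ k) =
        -(-(2 * Polynomial.X) * ∑ k ∈ range m, (1 - 2 * Polynomial.X) ^ k) := by ring
      _ = 1 - (1 - 2 * Polynomial.X) ^ m := by rw [h]; ring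
  unfold sP
  rw [← h2]
  have h3 : Polynomial.C (1 / (2 * (m : ℂ))) * (2 : Polynomial ℂ) = Polynomial.C (1 / (m : ℂ)) := by
    rw [show (2 : Polynomial ℂ) = Polynomial.C 2 from (map_ofNat Polynomial.C 2).symm, ← Polynomial.C_mul]
    congr 1
    field_simp
  calc Polynomial.X * (Polynomial.C (1 / (m : ℂ)) * ∑ k ∈ range m, (1 - 2 * Polynomial.X) ^ k)
      = Polynomial.C (1 / (m : ℂ)) * (Polynomial.X * ∑ k ∈ range m, (1 - 2 * Polynomial.X) ^ k) := by ring
    _ = (Polynomial.C (1 / (2 * (m : ℂ))) * 2) * (Polynomial.X * ∑ k ∈ range m, (1 - 2 * Polynomial.X) ^ k) := by rw [h3]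
    _ = _ := by ring

lemma pP_factor (i N m : ℕ) : pP (i + 1) N m = Polynomial.X ^ i * ((Polynomial.X * sP m) * uP N m) := by
  have h := mul_geom_sum (1 - sP m) N
  have h2 : sP m * uP N m = 1 - (1 - sP m) ^ N := by
    have : ((1 : Polynomial ℂ) - sP m - 1) = -(sP m) := by ring
    rw [this] at h
    unfold uP
    calc sP m * ∑ k ∈ range N, (1 - sP m) ^ k = -(-(sP m) * ∑ k ∈ range N, (1 - sP m) ^ k) := by ring
      _ = _ := by rw [h]; ring
  unfold pP
  rw [← h2]; ring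

variable {G : ℕ → ℕ} (hG : ∀ n, 2 ≤ G n) (hm : Monotone G)

/-- vectors supported on `[N, ∞)` -/
def Low (N : ℕ) (x : HH) : Prop := ∀ j < N, x j = 0

lemma Low.sub {N : ℕ} {x y : HH} (hx : Low N x) (hy : Low N y) : Low N (x - y) := by
  intro j hj
  change x j - y j = 0
  rw [hx j hj, hy j hj, sub_zero]

lemma Low.smul {N : ℕ} {x : HH} (c : ℂ) (hx : Low N x) : Low N (c • x) := by
  intro j hj
  change c * x j = 0
  rw [hx j hj, mul_zero]

lemma Low.add {N : ℕ} {x y : HH} (hx : Low N x) (hy : Low N y) : Low N (x + y) := by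
  intro j hj
  change x j + y j = 0
  rw [hx j hj, hy j hj, add_zero]

lemma low_zero (N : ℕ) : Low N (0 : HH) := fun _ _ => rfl

lemma low_sum {N : ℕ} (s : Finset ℕ) (f : ℕ → HH) (h : ∀ k ∈ s, Low N (f k)) : Low N (∑ k ∈ s, f k) := by
  induction s using Finset.induction_on with
  | empty => simpa using low_zero N
  | insert a s ha ih =>
    rw [Finset.sum_insert ha]
    exact (h a (Finset.mem_insert_self _ _)).add (ih fun k hk => h k (Finset.mem_insert_of_mem hk))

/-- `B` maps `M_N` to `M_N` with norm at most `c` there. -/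
def Bdd (N : ℕ) (B : HH →L[ℂ] HH) (c : ℝ) : Prop := ∀ x, Low N x → Low N (B x) ∧ ‖B x‖ ≤ c * ‖x‖

lemma Bdd.mul {N : ℕ} {A B : HH →L[ℂ] HH} {a b : ℝ} (ha : 0 ≤ a) (hA : Bdd N A a) (hB : Bdd N B b) : Bdd N (A * B) (a * b) := by
  intro x hx
  obtain ⟨h1, h2⟩ := hB x hx
  obtain ⟨h3, h4⟩ := hA (B x) h1
  rw [mul_apply_eq_comp]
  refine ⟨h3, h4.trans ?_⟩
  rw [mul_assoc]
  exact mul_le_mul_of_nonneg_left h2 ha

lemma Bdd.one (N : ℕ) : Bdd N (1 : HH →L[ℂ] HH) 1 := by
  intro x hx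
  exact ⟨hx, by rw [one_mul]; exact le_refl _⟩

lemma Bdd.pow {N : ℕ} {A : HH →L[ℂ] HH} {a : ℝ} (ha : 0 ≤ a) (hA : Bdd N A a) (k : ℕ) : Bdd N (A ^ k) (a ^ k) := by
  induction k with
  | zero => rw [pow_zero, pow_zero]; exact Bdd.one N
  | succ k ih => rw [pow_succ, pow_succ]; exact Bdd.mul (by positivity) ih hA

lemma Bdd.sum {N : ℕ} (n : ℕ) (f : ℕ → HH →L[ℂ] HH) (c : ℝ) (h : ∀ k < n, Bdd N (f k) c) :
    Bdd N (∑ k ∈ range n, f k) (n * c) := by
  intro x hx
  rw [_root_.sum_apply]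
  constructor
  · exact low_sum _ _ fun k hk => (h k (Finset.mem_range.mp hk) x hx).1
  · refine (norm_sum_le _ _).trans ?_
    calc ∑ k ∈ range n, ‖f k x‖ ≤ ∑ k ∈ range n, c * ‖x‖ :=
          Finset.sum_le_sum fun k hk => (h k (Finset.mem_range.mp hk) x hx).2
      _ = n * c * ‖x‖ := by rw [Finset.sum_const, Finset.card_range, nsmul_eq_mul]; ring

lemma Bdd.mono {N : ℕ} {A : HH →L[ℂ] HH} {a b : ℝ} (hA : Bdd N A a) (h : a ≤ b) : Bdd N A b := by
  intro x hx
  exact ⟨(hA x hx).1, (hA x hx).2.trans (mul_le_mul_of_nonneg_right h (norm_nonneg _))⟩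

lemma Bdd.smul {N : ℕ} {A : HH →L[ℂ] HH} {a : ℝ} (c : ℂ) (hA : Bdd N A a) : Bdd N (c • A) (‖c‖ * a) := by
  intro x hx
  obtain ⟨h1, h2⟩ := hA x hx
  constructor
  · exact h1.smul c
  · rw [smul_apply, norm_smul, mul_assoc]
    exact mul_le_mul_of_nonneg_left h2 (norm_nonneg _)

lemma Bdd.sub {N : ℕ} {A B : HH →L[ℂ] HH} {a b : ℝ} (hA : Bdd N A a) (hB : Bdd N B b) : Bdd N (A - B) (a + b) := by
  intro x hx
  obtain ⟨h1, h2⟩ := hA x hx
  obtain ⟨h3, h4⟩ := hB x hx
  constructor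
  · exact h1.sub h3
  · rw [sub_apply, add_mul]
    exact (norm_sub_le _ _).trans (add_le_add h2 h4)

/-- bound for the test polynomials on the tail space -/
lemma tail_poly (N m i : ℕ) (hm0 : 0 < m) (hN : st G N = N)
    (hr : Real.sqrt (rho2 G N) ^ m ≤ 2) (hi : i + 1 < N) :
    Bdd N (Polynomial.aeval (TT G hG hm) (pP (i + 1) N m)) (2 ^ N * (3 / (2 * m) * (N * 3 ^ N))) := by
  set T := TT G hG hm with hT
  set ρ := Real.sqrt (rho2 G N) with hρ
  have hρ1 : 1 ≤ ρ := by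
    rw [hρ, Real.one_le_sqrt]; exact rho2_ge_one hG N
  -- T itself
  have hTb : Bdd N T 2 := by
    intro x hx
    refine ⟨fun j hj => TT_low hG hm x N hx j hj.le, ?_⟩
    exact (T.le_opNorm x).trans (mul_le_mul_of_nonneg_right (TT_norm hG hm) (norm_nonneg _))
  -- A = 1 - 2T
  have hA : Bdd N (1 - (2 : ℂ) • T) ρ := by
    intro x hx
    constructor
    · exact hx.sub ((hTb x hx).1.smul 2)
    · exact TT_tail hG hm x N hN hx
  have hAk : ∀ k < m + 1, Bdd N ((1 - (2 : ℂ) • T) ^ k) 2 := by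
    intro k hk
    apply (hA.pow (by linarith) k).mono
    refine le_trans ?_ hr
    exact pow_le_pow_right₀ hρ1 (by omega)
  have e1 : Polynomial.aeval T (1 - 2 * Polynomial.X : Polynomial ℂ) = 1 - (2 : ℂ) • T := by
    rw [map_sub, map_one, map_mul, Polynomial.aeval_X, map_ofNat]
    congr 1
    rw [two_mul, two_smul]
  have hs : Bdd N (Polynomial.aeval T (sP m)) 2 := by
    have : Polynomial.aeval T (sP m) = (1 / (m : ℂ)) • ∑ k ∈ range m, (1 - (2 : ℂ) • T) ^ k := by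
      unfold sP
      rw [map_mul, Polynomial.aeval_C, map_sum, Algebra.algebraMap_eq_smul_one, smul_mul_assoc, one_mul]
      congr 1
      apply Finset.sum_congr rfl
      intro k _
      rw [map_pow, e1]
    rw [this]
    apply ((Bdd.sum m _ 2 fun k hk => hAk k (by omega)).smul (1 / (m : ℂ))).mono
    have hmr : (0 : ℝ) < m := by exact_mod_cast hm0
    rw [norm_div, norm_one, Complex.norm_natCast]
    apply le_of_eq; field_simp
  have h1s : Bdd N (1 - Polynomial.aeval T (sP m)) 3 := ((Bdd.one N).sub hs).mono (by norm_num)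
  have hu : Bdd N (Polynomial.aeval T (uP N m)) (N * 3 ^ N) := by
    unfold uP
    rw [map_sum]
    apply Bdd.sum
    intro k hk
    rw [map_pow, map_sub, map_one]
    apply (h1s.pow (by norm_num) k).mono
    exact pow_le_pow_right₀ (by norm_num) (by omega)
  have hXs : Bdd N (Polynomial.aeval T (Polynomial.X * sP m)) (3 / (2 * m)) := by
    rw [X_mul_sP m hm0, map_mul, Polynomial.aeval_C, map_sub, map_one, map_pow, e1, Algebra.algebraMap_eq_smul_one,
      smul_mul_assoc, one_mul]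
    apply (((Bdd.one N).sub (hAk m (by omega))).smul (1 / (2 * (m : ℂ)))).mono
    rw [norm_div, norm_one, norm_mul, Complex.norm_natCast, Complex.norm_ofNat]
    apply le_of_eq; ring
  rw [pP_factor, map_mul, map_mul _ (Polynomial.X * sP m), map_pow, Polynomial.aeval_X]
  apply Bdd.mul (by positivity)
  · apply (hTb.pow (by norm_num) i).mono
    exact pow_le_pow_right₀ (by norm_num) (by omega)
  · exact Bdd.mul (by positivity) hXs hu

lemma PP_X_pow_mul (N : ℕ) (r : Polynomial ℂ) (x : HH) :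
    PP N ((Polynomial.aeval (TT G hG hm) (Polynomial.X ^ N * r)) x) = 0 := by
  rw [map_mul, map_pow, Polynomial.aeval_X, mul_apply_eq_comp]
  apply PP_zero_of
  intro j hj
  exact TT_pow_low hG hm _ 0 N (by intro j hj; omega) j (by omega)

/-- The key approximation: on the corner the test polynomial is `T^i`, elsewhere it is small. -/
lemma key_approx (N m i : ℕ) (hm0 : 0 < m) (hN : st G N = N)
    (hr : Real.sqrt (rho2 G N) ^ m ≤ 2) (hi : i + 1 < N) (C : ℝ) (hC : ∀ (T : HH →L[ℂ] HH) (N' : ℕ) (e : ℝ), ‖T‖ ≤ 2 → 0 ≤ e →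
    (∀ x, ‖T (PP N' x) - PP N' (T (PP N' x))‖ ≤ e * ‖x‖) →
    ∀ x, ‖(Polynomial.aeval T (pP (i + 1) N m)) (PP N' x) - PP N' ((Polynomial.aeval T (pP (i + 1) N m)) (PP N' x))‖ ≤ C * e * ‖x‖)
    (x : HH) :
    ‖(Polynomial.aeval (TT G hG hm) (pP (i + 1) N m)) x - PP N ((TT G hG hm ^ (i + 1)) x)‖ ≤
      (C * (1 / (G N : ℝ)) + 2 ^ N * (3 / (2 * m) * (N * 3 ^ N))) * ‖x‖ := by
  set T := TT G hG hm with hT
  set A := Polynomial.aeval T (pP (i + 1) N m) with hA
  have hGN := Gr hG N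
  -- corner coupling
  have h1 : ∀ x, ‖T (PP N x) - PP N (T (PP N x))‖ ≤ 1 / (G N : ℝ) * ‖x‖ := by
    intro x
    have h2 := coupling hG hm (PP N x) N hN (by omega) (by
      intro j hj
      rw [PP_apply, if_neg (by omega)])
    refine h2.trans ?_
    exact mul_le_mul_of_nonneg_left (PP_norm N x) (by positivity)
  have h2 := hC T N (1 / (G N : ℝ)) (TT_norm hG hm) (by positivity) h1 x
  -- tail
  have h3 := (tail_poly hG hm N m i hm0 hN hr hi (x - PP N x) (by
    intro j hj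
    rw [QQ_apply, if_pos hj]))
  -- corner value
  have h4 : PP N (A (PP N x)) = PP N ((T ^ (i + 1)) x) := by
    obtain ⟨r, hr'⟩ := pP_eq (i + 1) N m hm0
    have e1 : PP N (A x) = PP N ((T ^ (i + 1)) x) := by
      rw [hA, hr', map_sub, sub_apply, map_sub, PP_X_pow_mul, sub_zero, map_pow, Polynomial.aeval_X]
    have e2 : PP N (A (x - PP N x)) = 0 := PP_zero_of _ _ h3.1
    rw [← e1]
    have : PP N (A x) = PP N (A (PP N x)) + PP N (A (x - PP N x)) := by
      rw [← map_add, ← map_add]; congr 2; abel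
    rw [this, e2, add_zero]
  have h5 : A x - PP N ((T ^ (i + 1)) x) = (A (PP N x) - PP N (A (PP N x))) + A (x - PP N x) := by
    rw [← h4, map_sub]; abel
  rw [h5, add_mul]
  refine (norm_add_le _ _).trans (add_le_add h2 (h3.2.trans ?_))
  apply mul_le_mul_of_nonneg_left (QQ_norm N x) (by positivity)

end

end Pool.Agent.Helper328.Uni
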