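import Pool.Agent.Helper328.UniD

set_option autoImplicit false
open Finset
open scoped ENNReal NNReal

namespace Pool.Agent.Helper328.Uni

noncomputable section

variable {G : ℕ → ℕ} (hG : ∀ n, 2 ≤ G n) (hm : Monotone G)

lemma next_le (N' N : ℕ) (hN' : st G N' = N') (hN : st G N = N) (h : N' < N) : N' + len G N' ≤ N := by
  by_contra hcon
  have := st_block G N' hN' (N - N') (by omega)
  rw [show N' + (N - N') = N by omega, hN] at this
  omega

include hG in
lemma ga_ge (j N : ℕ) (hN : st G N = N) (h : j + 1 < N) : 1 / (N : ℝ) ≤ ga G j := by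
  have hNr : (0 : ℝ) < N := by exact_mod_cast (by omega : 0 < N)
  unfold ga
  split_ifs with hs
  · have h1 := next_le (j + 1) N hs hN h
    have h2 : (G (j + 1)) ^ 2 ≤ N := by unfold len at h1; omega
    have h3 : ((G (j + 1) : ℝ)) ^ 2 ≤ N := by exact_mod_cast h2
    have h4 := Gr hG (j + 1)
    apply one_div_le_one_div_of_le (by positivity) h3
  · have h0 := st_le G j
    have h1 := next_le (st G j) N (st_idem G j) hN (by omega)
    have h4 := Gr hG (st G j)
    have h2 : 2 * (G (st G j)) ≤ N := by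
      unfold len at h1
      have := hG (st G j)
      nlinarith
    have h3 : 2 * ((G (st G j) : ℝ)) ≤ N := by exact_mod_cast h2
    refine le_trans ?_ (cc_ge hG _)
    exact one_div_le_one_div_of_le (by positivity) h3

/-- the leading coefficient -/
lemma lead (f : HH) (n : ℕ) (hf : Low n f) (i : ℕ) :
    Low (n + i) ((TT G hG hm ^ i) f) ∧
      ((TT G hG hm ^ i) f) (n + i) = ((∏ j ∈ Ico n (n + i), ga G j : ℝ) : ℂ) * f n := by
  induction i with
  | zero => simpa using hf
  | succ i ih =>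
    obtain ⟨h1, h2⟩ := ih
    constructor
    · exact TT_pow_low hG hm f n (i + 1) hf
    · rw [pow_succ', mul_apply_eq_comp, ← add_assoc, TT_succ]
      have h3 : (TT G hG hm ((TT G hG hm ^ i) f)) (n + i) = 0 :=
        TT_low hG hm _ (n + i) h1 _ (le_refl _)
      rw [h3, h2, mul_zero, zero_add, Finset.prod_Ico_succ_top (by omega)]
      push_cast; ring

/-- required precision at stage `N` -/
def del (N : ℕ) : ℝ := 1 / ((N + 1) * (1 + 2 ^ N * (N : ℝ) ^ N * N) ^ N)

lemma inner_PP (h : HH) (u : HH) (N : ℕ) : inner ℂ h (PP N u) = ∑ j ∈ range N, inner ℂ (h j) (u j) := by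
  have h1 := lp.hasSum_inner (𝕜 := ℂ) h (PP N u)
  have h2 : HasSum (fun j => inner ℂ (h j) ((PP N u) j)) (∑ j ∈ range N, inner ℂ (h j) ((PP N u) j)) := by
    apply hasSum_sum_of_ne_finset_zero
    intro j hj
    rw [PP_apply, if_neg (by simpa using hj), inner_zero_right]
  rw [h1.unique h2]
  apply Finset.sum_congr rfl
  intro j hj
  rw [PP_apply, if_pos (Finset.mem_range.mp hj)]

/-- backward recursion at one stage -/
lemma stage (f h : HH) (n N : ℕ) (hN : st G N = N) (hnN : n < N) (hf : Low n f) (hfn : f n ≠ 0) (δ : ℝ) (hδ : 0 ≤ δ)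
    (hap : ∀ i, 1 ≤ i → i < N → ‖inner ℂ h (PP N ((TT G hG hm ^ i) f))‖ ≤ δ * ‖f‖ * ‖h‖) :
    ∀ k, n < k → k < N → ‖h k‖ ≤ (1 + 2 ^ N * (N : ℝ) ^ N * (‖f‖ / ‖f n‖)) ^ N * (δ * ‖h‖) := by
  set r : ℝ := 2 ^ N * (N : ℝ) ^ N * (‖f‖ / ‖f n‖) with hr
  have hfn' : 0 < ‖f n‖ := norm_pos_iff.mpr hfn
  have hNr : (1 : ℝ) ≤ N := by exact_mod_cast (by omega : 1 ≤ N)
  have hr0 : 0 ≤ r := by positivity
  set D : ℝ := δ * ‖h‖ with hD
  have hD0 : 0 ≤ D := by positivity
  -- one step
  have hone : ∀ k, n < k → k < N → ‖h k‖ ≤ r * (D + ∑ j ∈ Ico (k + 1) N, ‖h j‖) := by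
    intro k hk1 hk2
    obtain ⟨i, rfl⟩ : ∃ i, k = n + i := ⟨k - n, by omega⟩
    obtain ⟨l1, l2⟩ := lead hG hm f n hf i
    have h1 := hap i (by omega) (by omega)
    rw [inner_PP] at h1
    set u := (TT G hG hm ^ i) f with hu
    -- split the sum
    have hsplit : ∑ j ∈ range N, inner ℂ (h j) (u j) = inner ℂ (h (n + i)) (u (n + i)) + ∑ j ∈ Ico (n + i + 1) N, inner ℂ (h j) (u j) := by
      rw [Finset.range_eq_Ico, ← Finset.sum_Ico_consecutive _ (Nat.zero_le (n + i)) hk2.le]
      have : ∑ j ∈ Ico 0 (n + i), inner ℂ (h j) (u j) = 0 := by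
        apply Finset.sum_eq_zero
        intro j hj
        rw [l1 j (Finset.mem_Ico.mp hj).2, inner_zero_right]
      rw [this, zero_add, Finset.sum_eq_sum_Ico_succ_bot hk2]
    rw [hsplit] at h1
    have hunorm : ‖u‖ ≤ 2 ^ N * ‖f‖ := by
      calc ‖u‖ ≤ ‖TT G hG hm ^ i‖ * ‖f‖ := (TT G hG hm ^ i).le_opNorm f
        _ ≤ 2 ^ N * ‖f‖ := by
          apply mul_le_mul_of_nonneg_right _ (norm_nonneg _)
          exact (opnorm_pow _ (TT_norm hG hm) i).trans (pow_le_pow_right₀ (by norm_num) (by omega))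
    have htail : ‖∑ j ∈ Ico (n + i + 1) N, inner ℂ (h j) (u j)‖ ≤ 2 ^ N * ‖f‖ * ∑ j ∈ Ico (n + i + 1) N, ‖h j‖ := by
      refine (norm_sum_le _ _).trans ?_
      rw [Finset.mul_sum]
      apply Finset.sum_le_sum
      intro j _
      refine (norm_inner_le_norm _ _).trans ?_
      rw [mul_comm]
      apply mul_le_mul_of_nonneg_right _ (norm_nonneg _)
      exact (lp.norm_apply_le_norm (by norm_num) u j).trans hunorm
    have hlead : ‖inner ℂ (h (n + i)) (u (n + i))‖ = ‖h (n + i)‖ * ‖u (n + i)‖ := by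
      rw [RCLike.inner_apply, norm_mul, RCLike.norm_conj, mul_comm]
    have hun : ‖f n‖ * (1 / (N : ℝ)) ^ N ≤ ‖u (n + i)‖ := by
      rw [l2, norm_mul, Complex.norm_real, Real.norm_eq_abs, mul_comm]
      apply mul_le_mul_of_nonneg_right _ hfn'.le
      refine le_trans ?_ (le_abs_self _)
      calc (1 / (N : ℝ)) ^ N ≤ (1 / (N : ℝ)) ^ (Ico n (n + i)).card := by
            apply pow_le_pow_of_le_one (by positivity)
            · rw [div_le_one (by linarith)]; exact hNr
            · rw [Nat.card_Ico]; omega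
        _ = ∏ j ∈ Ico n (n + i), (1 / (N : ℝ)) := by rw [Finset.prod_const]
        _ ≤ ∏ j ∈ Ico n (n + i), ga G j := by
            apply Finset.prod_le_prod
            · intro j _; positivity
            · intro j hj
              exact ga_ge hG j N hN (by have := (Finset.mem_Ico.mp hj).2; omega)
    have h2 : ‖inner ℂ (h (n + i)) (u (n + i))‖ ≤ δ * ‖f‖ * ‖h‖ + 2 ^ N * ‖f‖ * ∑ j ∈ Ico (n + i + 1) N, ‖h j‖ := by
      calc ‖inner ℂ (h (n + i)) (u (n + i))‖ = ‖(inner ℂ (h (n + i)) (u (n + i)) + ∑ j ∈ Ico (n + i + 1) N, inner ℂ (h j) (u j)) -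
          ∑ j ∈ Ico (n + i + 1) N, inner ℂ (h j) (u j)‖ := by congr 1; ring
        _ ≤ _ := (norm_sub_le _ _).trans (add_le_add h1 htail)
    rw [hlead] at h2
    set S := ∑ j ∈ Ico (n + i + 1) N, ‖h j‖ with hS
    have hS0 : 0 ≤ S := Finset.sum_nonneg fun j _ => norm_nonneg _
    have h3 : ‖h (n + i)‖ * (‖f n‖ * (1 / (N : ℝ)) ^ N) ≤ 2 ^ N * ‖f‖ * (D + S) := by
      calc ‖h (n + i)‖ * (‖f n‖ * (1 / (N : ℝ)) ^ N) ≤ ‖h (n + i)‖ * ‖u (n + i)‖ := mul_le_mul_of_nonneg_left hun (norm_nonneg _)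
        _ ≤ δ * ‖f‖ * ‖h‖ + 2 ^ N * ‖f‖ * S := h2
        _ ≤ 2 ^ N * ‖f‖ * (D + S) := by
          have h4 : (1 : ℝ) ≤ 2 ^ N := one_le_pow₀ (by norm_num)
          have h5 : δ * ‖f‖ * ‖h‖ = ‖f‖ * D := by rw [hD]; ring
          have h6 : ‖f‖ * D ≤ 2 ^ N * (‖f‖ * D) := by
            have : 0 ≤ ‖f‖ * D := by positivity
            nlinarith
          rw [h5]; nlinarith
    have h7 : ‖h (n + i)‖ = (‖h (n + i)‖ * (‖f n‖ * (1 / (N : ℝ)) ^ N)) * ((N : ℝ) ^ N / ‖f n‖) := by
      rw [one_div, inv_pow]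
      field_simp
    rw [h7]
    calc (‖h (n + i)‖ * (‖f n‖ * (1 / (N : ℝ)) ^ N)) * ((N : ℝ) ^ N / ‖f n‖) ≤ (2 ^ N * ‖f‖ * (D + S)) * ((N : ℝ) ^ N / ‖f n‖) := by
          apply mul_le_mul_of_nonneg_right h3; positivity
      _ = r * (D + S) := by rw [hr]; ring
  -- iterate
  have hiter : ∀ t k, k + t = N → n < k → D + ∑ j ∈ Ico k N, ‖h j‖ ≤ (1 + r) ^ t * D := by
    intro t
    induction t with
    | zero =>
      intro k hk _
      rw [show k = N by omega]; simp
    | succ t ih =>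
      intro k hk hnk
      have h1 := hone k hnk (by omega)
      have h2 := ih (k + 1) (by omega) (by omega)
      rw [Finset.sum_eq_sum_Ico_succ_bot (by omega : k < N)]
      calc D + (‖h k‖ + ∑ j ∈ Ico (k + 1) N, ‖h j‖) ≤ (1 + r) * (D + ∑ j ∈ Ico (k + 1) N, ‖h j‖) := by linarith
        _ ≤ (1 + r) * ((1 + r) ^ t * D) := mul_le_mul_of_nonneg_left h2 (by linarith)
        _ = (1 + r) ^ (t + 1) * D := by rw [pow_succ]; ring
  intro k hk1 hk2
  have h1 := hiter (N - k) k (by omega) hk1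
  have h2 : ‖h k‖ ≤ D + ∑ j ∈ Ico k N, ‖h j‖ := by
    have : ‖h k‖ ≤ ∑ j ∈ Ico k N, ‖h j‖ :=
      Finset.single_le_sum (f := fun j => ‖h j‖) (fun j _ => norm_nonneg _) (Finset.mem_Ico.mpr ⟨le_refl _, hk2⟩)
    linarith
  refine h2.trans (h1.trans ?_)
  apply mul_le_mul_of_nonneg_right _ hD0
  exact pow_le_pow_right₀ (by linarith) (by omega)

/-- the standing approximation property -/
def Approx (G : ℕ → ℕ) (hG : ∀ n, 2 ≤ G n) (hm : Monotone G) : Prop :=
  ∀ N, st G N = N → ∀ i, 1 ≤ i → i < N → ∃ p : Polynomial ℂ, ∀ x : HH,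
    ‖(Polynomial.aeval (TT G hG hm) p) x - PP N ((TT G hG hm ^ i) x)‖ ≤ del N * ‖x‖

lemma poly_inv (T : HH →L[ℂ] HH) (Y : Submodule ℂ HH) (hY : ∀ x ∈ Y, T x ∈ Y) (p : Polynomial ℂ) :
    ∀ x ∈ Y, (Polynomial.aeval T p) x ∈ Y := by
  induction p using Polynomial.induction_on with
  | C a =>
    intro x hx
    rw [Polynomial.aeval_C, Algebra.algebraMap_eq_smul_one]
    exact Y.smul_mem a hx
  | add p q hp hq =>
    intro x hx
    rw [map_add, add_apply]
    exact Y.add_mem (hp x hx) (hq x hx)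
  | monomial n a ih =>
    intro x hx
    have h3 : Polynomial.aeval T (Polynomial.C a * Polynomial.X ^ (n + 1)) = T * Polynomial.aeval T (Polynomial.C a * Polynomial.X ^ n) := by
      rw [map_mul, map_mul, map_pow, map_pow, Polynomial.aeval_X, Polynomial.aeval_C, pow_succ']
      rw [← mul_assoc, ← mul_assoc, Algebra.commutes]
    rw [h3, mul_apply_eq_comp]
    exact hY _ (ih x hx)

/-- A closed invariant subspace containing a vector with first nonzero coordinate `n` contains all of `M_n`. -/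
lemma contains (hap : Approx G hG hm) (Y : Submodule ℂ HH) (hYc : IsClosed (Y : Set HH))
    (hY : ∀ x ∈ Y, TT G hG hm x ∈ Y) (f : HH) (hfY : f ∈ Y) (n : ℕ) (hf : Low n f) (hfn : f n ≠ 0) :
    ∀ x, Low n x → x ∈ Y := by
  have hfn' : 0 < ‖f n‖ := norm_pos_iff.mpr hfn
  -- every h orthogonal to Y vanishes beyond n
  have horth : ∀ h ∈ Yᗮ, ∀ k, n ≤ k → h k = 0 := by
    intro h hh
    have hgt : ∀ k, n < k → h k = 0 := by
      intro k hk
      have hbound : ∀ l : ℕ, k < l → ‖f‖ / ‖f n‖ ≤ l → ‖h k‖ ≤ 1 / ((l : ℝ) + 1) * ‖h‖ := by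
        intro l hl1 hl2
        set N := bd G l with hN
        have hlN : l ≤ N := le_bd G l
        have hNst : st G N = N := st_bd G l
        have h1 := stage hG hm f h n N hNst (by omega) hf hfn (del N) (by unfold del; positivity) (by
          intro i hi1 hi2
          obtain ⟨p, hp⟩ := hap N hNst i hi1 hi2
          have h2 := hp f
          have h3 : inner ℂ h ((Polynomial.aeval (TT G hG hm) p) f) = 0 :=
            Submodule.inner_left_of_mem_orthogonal (poly_inv _ Y hY p f hfY) hh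
          have h4 : inner ℂ h (PP N ((TT G hG hm ^ i) f)) = - inner ℂ h ((Polynomial.aeval (TT G hG hm) p) f - PP N ((TT G hG hm ^ i) f)) := by
            rw [inner_sub_right, h3]; ring
          rw [h4, norm_neg]
          calc _ ≤ ‖h‖ * ‖(Polynomial.aeval (TT G hG hm) p) f - PP N ((TT G hG hm ^ i) f)‖ := norm_inner_le_norm _ _
            _ ≤ ‖h‖ * (del N * ‖f‖) := mul_le_mul_of_nonneg_left h2 (norm_nonneg _)
            _ = del N * ‖f‖ * ‖h‖ := by ring) k hk (by omega)
        refine h1.trans ?_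
        have hlNr : (l : ℝ) ≤ N := by exact_mod_cast hlN
        have h5 : (1 + 2 ^ N * (N : ℝ) ^ N * (‖f‖ / ‖f n‖)) ^ N ≤ (1 + 2 ^ N * (N : ℝ) ^ N * N) ^ N := by
          apply pow_le_pow_left₀ (by positivity)
          have : 2 ^ N * (N : ℝ) ^ N * (‖f‖ / ‖f n‖) ≤ 2 ^ N * (N : ℝ) ^ N * N :=
            mul_le_mul_of_nonneg_left (hl2.trans hlNr) (by positivity)
          linarith
        calc (1 + 2 ^ N * (N : ℝ) ^ N * (‖f‖ / ‖f n‖)) ^ N * (del N * ‖h‖) ≤ (1 + 2 ^ N * (N : ℝ) ^ N * N) ^ N * (del N * ‖h‖) := by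
              apply mul_le_mul_of_nonneg_right h5
              unfold del; positivity
          _ = 1 / ((N : ℝ) + 1) * ‖h‖ := by
              unfold del
              have : (0 : ℝ) < (1 + 2 ^ N * (N : ℝ) ^ N * N) ^ N := by positivity
              field_simp
          _ ≤ 1 / ((l : ℝ) + 1) * ‖h‖ := by
              apply mul_le_mul_of_nonneg_right _ (norm_nonneg _)
              apply one_div_le_one_div_of_le (by positivity)
              linarith
      -- let l tend to infinity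
      have hlim : Filter.Tendsto (fun l : ℕ => 1 / ((l : ℝ) + 1) * ‖h‖) Filter.atTop (nhds (0 * ‖h‖)) :=
        tendsto_one_div_add_atTop_nhds_zero_nat.mul_const _
      rw [zero_mul] at hlim
      have h6 : ‖h k‖ ≤ 0 := by
        apply ge_of_tendsto hlim
        obtain ⟨l0, hl0⟩ := exists_nat_ge (‖f‖ / ‖f n‖)
        filter_upwards [Filter.eventually_ge_atTop (max (k + 1) l0)] with l hl
        apply hbound l
        · have := le_max_left (k + 1) l0; omega
        · refine hl0.trans ?_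
          exact_mod_cast (le_max_right (k + 1) l0).trans hl
      exact norm_le_zero_iff.mp h6
    intro k hk
    rcases Nat.lt_or_ge n k with h1 | h1
    · exact hgt k h1
    · have hkn : k = n := by omega
      subst hkn
      -- ⟨h, f⟩ = conj(h k) f k
      have h2 : inner ℂ h f = 0 := Submodule.inner_left_of_mem_orthogonal hfY hh
      have h3 := lp.hasSum_inner (𝕜 := ℂ) h f
      have h4 := h3.unique (hasSum_single k (fun j hj => by
        rcases lt_or_gt_of_ne hj with h5 | h5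
        · rw [hf j h5, inner_zero_right]
        · rw [hgt j h5, inner_zero_left]))
      rw [h4, RCLike.inner_apply] at h2
      rcases mul_eq_zero.mp h2 with h5 | h5
      · exact absurd h5 hfn
      · simpa using h5
  intro x hx
  have hcomp : CompleteSpace Y := hYc.completeSpace_coe
  rw [← Submodule.orthogonal_orthogonal Y]
  rw [Submodule.mem_orthogonal]
  intro h hh
  have h3 := lp.hasSum_inner (𝕜 := ℂ) h x
  apply h3.unique
  convert hasSum_zero using 1
  funext j
  rcases Nat.lt_or_ge j n with h5 | h5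
  · rw [hx j h5, inner_zero_right]
  · rw [horth h hh j h5, inner_zero_left]

/-- The invariant subspace lattice is a chain. -/
theorem chain (hap : Approx G hG hm) (Y Z : Submodule ℂ HH) (hYc : IsClosed (Y : Set HH)) (hZc : IsClosed (Z : Set HH))
    (hY : ∀ x ∈ Y, TT G hG hm x ∈ Y) (hZ : ∀ x ∈ Z, TT G hG hm x ∈ Z) : Y ≤ Z ∨ Z ≤ Y := by
  classical
  have main : ∀ W : Submodule ℂ HH, IsClosed (W : Set HH) → (∀ x ∈ W, TT G hG hm x ∈ W) →
      W = ⊥ ∨ ∃ n, ∀ x, x ∈ W ↔ Low n x := by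
    intro W hWc hW
    by_cases hex : ∃ n, ∃ f ∈ W, f n ≠ 0
    · right
      obtain ⟨f, hfW, hfn⟩ := Nat.find_spec hex
      have hmin : ∀ x ∈ W, Low (Nat.find hex) x := by
        intro x hx j hj
        by_contra hne
        exact Nat.find_min hex hj ⟨x, hx, hne⟩
      refine ⟨Nat.find hex, fun x => ⟨hmin x, ?_⟩⟩
      exact contains hG hm hap W hWc hW f hfW _ (hmin f hfW) hfn x
    · left
      push Not at hex
      rw [Submodule.eq_bot_iff]
      intro x hx
      ext j
      exact hex j x hx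
  rcases main Y hYc hY with h1 | ⟨n, h1⟩
  · left; rw [h1]; exact bot_le
  · rcases main Z hZc hZ with h2 | ⟨k, h2⟩
    · right; rw [h2]; exact bot_le
    · rcases le_total n k with h | h
      · right
        intro x hx
        rw [h1]; rw [h2] at hx
        exact fun j hj => hx j (by omega)
      · left
        intro x hx
        rw [h2]; rw [h1] at hx
        exact fun j hj => hx j (by omega)

end

end Pool.Agent.Helper328.Uni
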