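import Pool.Agent.Helper328.UniE

set_option autoImplicit false
open Finset
open scoped ENNReal NNReal

namespace Pool.Agent.Helper328.Uni

noncomputable section

variable {G : ℕ → ℕ} (hG : ∀ n, 2 ≤ G n) (hm : Monotone G)

lemma zero_mem_spec : (0 : ℂ) ∈ spectrum ℂ (TT G hG hm) := by
  rw [spectrum.zero_mem_iff]
  rintro ⟨u, hu⟩
  have h1 : TT G hG hm ((↑u⁻¹ : HH →L[ℂ] HH) (lp.single 2 0 (1 : ℂ))) = lp.single 2 0 (1 : ℂ) := by
    have : (TT G hG hm) * (↑u⁻¹ : HH →L[ℂ] HH) = 1 := by rw [← hu]; exact u.mul_inv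
    calc _ = ((TT G hG hm) * (↑u⁻¹ : HH →L[ℂ] HH)) (lp.single 2 0 (1 : ℂ)) := rfl
      _ = _ := by rw [this]; rfl
  have h2 := TT_zero hG hm ((↑u⁻¹ : HH →L[ℂ] HH) (lp.single 2 0 (1 : ℂ)))
  rw [h1] at h2
  rw [lp.single_apply_self] at h2
  exact one_ne_zero h2

/-- indicator of the block `[N, N + len)` -/
def blk (G : ℕ → ℕ) (N : ℕ) : HH :=
  ⟨fun j => if N ≤ j ∧ j < N + len G N then 1 else 0, by
    apply memlp_of_sums _ (len G N)
    intro n
    have h1 : ∀ i ∈ range n, ‖(if N ≤ i ∧ i < N + len G N then (1 : ℂ) else 0)‖ ^ 2 = if i ∈ Ico N (N + len G N) then (1 : ℝ) else 0 := by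
      intro i _
      simp only [Finset.mem_Ico]
      split_ifs <;> simp
    rw [Finset.sum_congr rfl h1, ← Finset.sum_filter, Finset.sum_const, nsmul_eq_mul, mul_one]
    have h2 : (filter (fun i => i ∈ Ico N (N + len G N)) (range n)).card ≤ (Ico N (N + len G N)).card := by
      apply Finset.card_le_card
      intro i hi
      exact (Finset.mem_filter.mp hi).2
    rw [Nat.card_Ico, Nat.add_sub_cancel_left] at h2
    exact_mod_cast h2⟩

lemma blk_apply (N j : ℕ) : (blk G N) j = if N ≤ j ∧ j < N + len G N then 1 else 0 := rfl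

lemma blk_norm (N : ℕ) : (len G N : ℝ) ≤ ‖blk G N‖ ^ 2 := by
  have h := sum_sq_le (blk G N) (Ico N (N + len G N))
  have h1 : ∀ i ∈ Ico N (N + len G N), ‖(blk G N) i‖ ^ 2 = 1 := by
    intro i hi
    rw [blk_apply, if_pos (Finset.mem_Ico.mp hi)]; simp
  rw [Finset.sum_congr rfl h1, Finset.sum_const, Nat.card_Ico, Nat.add_sub_cancel_left, nsmul_eq_mul, mul_one] at h
  exact h

/-- near-eigenvalue -/
def gam (G : ℕ → ℕ) (N : ℕ) : ℝ := (1 + aa G N) / (2 * aa G N)

include hG in
lemma gam_bounds (N : ℕ) : 1 ≤ gam G N ∧ gam G N ≤ 1 + 1 / G N ∧ gam G N ≤ 3 / 2 := by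
  have h1 := aa_ge hG N
  have h2 := aa_lt hG N
  have h3 : gam G N = 1 + (1 - aa G N) / (2 * aa G N) := by
    unfold gam
    have : aa G N ≠ 0 := by linarith
    field_simp; ring
  have h4 : 0 ≤ (1 - aa G N) / (2 * aa G N) := div_nonneg (by linarith) (by linarith)
  have h5 : (1 - aa G N) / (2 * aa G N) ≤ 1 - aa G N := div_le_self (by linarith) (by linarith)
  have h6 : 1 - aa G N = 1 / G N := by unfold aa; ring
  have h7 := inv_G_le hG N
  refine ⟨by linarith, by linarith, by linarith⟩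

include hG in
lemma gam_eq (N : ℕ) : aa G N * gam G N + cc G N = gam G N := by
  have h1 := aa_ge hG N
  have : aa G N ≠ 0 := by linarith
  unfold gam cc
  field_simp
  ring

include hG in
/-- the output inside the block -/
lemma blk_inside (N : ℕ) (hN : st G N = N) (i : ℕ) (hi : i < len G N) :
    filt G (blk G N) (N + i) = ((gam G N * (1 - aa G N ^ i) : ℝ) : ℂ) := by
  induction i with
  | zero =>
    have h := filt_zero_of (G := G) (blk G N) N (by
      intro j hj
      rw [blk_apply, if_neg (by omega)]) N (le_refl _)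
    rw [add_zero, h]; simp
  | succ i ih =>
    have h1 := ih (by omega)
    have hb : st G (N + i + 1) = N := st_block G N hN (i + 1) hi
    have hb' : st G (N + i) = N := st_block G N hN i (by omega)
    have e1 : al G (N + i) = aa G N := by
      unfold al; rw [if_neg (by rw [hb]; omega), hb']
    have e2 : ga G (N + i) = cc G N := by
      unfold ga; rw [if_neg (by rw [hb]; omega), hb']
    have : filt G (blk G N) (N + (i + 1)) = (al G (N + i) : ℂ) * filt G (blk G N) (N + i) + (ga G (N + i) : ℂ) * (blk G N) (N + i) := rfl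
    rw [this, h1, e1, e2, blk_apply, if_pos (by omega), mul_one, ← Complex.ofReal_mul, ← Complex.ofReal_add]
    congr 1
    have h2 := gam_eq hG N
    rw [pow_succ]
    linear_combination h2

include hG in
lemma blk_end (N : ℕ) (hN : st G N = N) :
    kap G (N + len G N) * ‖filt G (blk G N) (N + len G N)‖ ^ 2 ≤ 4 := by
  have hb : st G (N + len G N) = N + len G N := st_next G N hN
  have hlen : 0 < len G N := by unfold len; omega
  obtain ⟨M, hM⟩ : ∃ M, N + len G N = M + 1 := ⟨N + len G N - 1, by omega⟩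
  rw [hM] at hb ⊢
  have e1 : al G M = 0 := by unfold al; rw [if_pos hb]
  have e2 : ga G M = 1 / (G (M + 1) : ℝ) ^ 2 := by unfold ga; rw [if_pos hb]
  have h1 : filt G (blk G N) (M + 1) = (al G M : ℂ) * filt G (blk G N) M + (ga G M : ℂ) * (blk G N) M := rfl
  rw [h1, e1, e2, Complex.ofReal_zero, zero_mul, zero_add, blk_apply, if_pos (by omega), mul_one,
    Complex.norm_real, Real.norm_eq_abs, sq_abs]
  have h2 := kap_le hG (M + 1)
  have h3 := Gr hG (M + 1)
  calc kap G (M + 1) * (1 / (G (M + 1) : ℝ) ^ 2) ^ 2 ≤ 4 * G (M + 1) * (1 / (G (M + 1) : ℝ) ^ 2) ^ 2 := by gcongr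
    _ = 4 * (1 / (G (M + 1) : ℝ) ^ 3) := by field_simp
    _ ≤ 4 * 1 := by
      apply mul_le_mul_of_nonneg_left _ (by norm_num)
      rw [div_le_one (by positivity)]
      have : (1 : ℝ) ≤ G (M + 1) := by linarith
      exact one_le_pow₀ this
    _ = 4 := by norm_num

include hG hm in
lemma near_eig (N : ℕ) (hN : st G N = N) :
    ‖TT G hG hm (blk G N) - (gam G N : ℂ) • blk G N‖ ≤ Real.sqrt (3 * G N) := by
  apply norm_le_of_sums _ _ (Real.sqrt_nonneg _)
  intro n
  have hg := Gr hG N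
  rw [Real.sq_sqrt (by positivity)]
  have ha1 := aa_ge hG N
  have ha2 := aa_lt hG N
  obtain ⟨g1, _, g3⟩ := gam_bounds hG N
  set L := len G N with hL
  set D : ℕ → ℂ := fun j => (TT G hG hm (blk G N) - (gam G N : ℂ) • blk G N) j with hD
  have hDe : ∀ j, D j = filt G (blk G N) j - (gam G N : ℂ) * (blk G N) j := fun j => rfl
  -- enlarge the sum
  have hext : ∑ j ∈ range n, ‖D j‖ ^ 2 ≤ ∑ j ∈ range (max n (N + L)), ‖D j‖ ^ 2 := by
    apply Finset.sum_le_sum_of_subset_of_nonneg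
    · intro j hj
      have := Finset.mem_range.mp hj
      exact Finset.mem_range.mpr (lt_of_lt_of_le this (le_max_left _ _))
    · intro j _ _; positivity
  refine hext.trans ?_
  set K := max n (N + L) with hK
  have hKN : N + L ≤ K := le_max_right _ _
  rw [Finset.range_eq_Ico, ← Finset.sum_Ico_consecutive _ (Nat.zero_le N) (by omega : N ≤ K),
    ← Finset.sum_Ico_consecutive _ (by omega : N ≤ N + L) hKN]
  have s1 : ∑ j ∈ Ico 0 N, ‖D j‖ ^ 2 = 0 := by
    apply Finset.sum_eq_zero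
    intro j hj
    have hj' := (Finset.mem_Ico.mp hj).2
    rw [hDe, filt_zero_of (G := G) (blk G N) N (by
      intro j hj
      rw [blk_apply, if_neg (by omega)]) j hj'.le, blk_apply, if_neg (by omega)]
    simp
  have s2 : ∑ j ∈ Ico N (N + L), ‖D j‖ ^ 2 ≤ 9 / 4 * G N := by
    have e1 : ∑ j ∈ Ico N (N + L), ‖D j‖ ^ 2 = ∑ i ∈ range L, ‖D (N + i)‖ ^ 2 := by
      rw [Finset.sum_Ico_eq_sum_range, Nat.add_sub_cancel_left]
    rw [e1]
    have e2 : ∀ i ∈ range L, ‖D (N + i)‖ ^ 2 = gam G N ^ 2 * (aa G N ^ 2) ^ i := by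
      intro i hi
      have hi' := Finset.mem_range.mp hi
      rw [hDe, blk_inside hG N hN i hi', blk_apply, if_pos (by omega), mul_one, ← Complex.ofReal_sub,
        Complex.norm_real, Real.norm_eq_abs, sq_abs]
      ring
    rw [Finset.sum_congr rfl e2, ← Finset.mul_sum]
    have hgeo : ∑ i ∈ range L, (aa G N ^ 2) ^ i ≤ G N := by
      have h1 : (1 - aa G N ^ 2) * ∑ i ∈ range L, (aa G N ^ 2) ^ i ≤ 1 := by
        rw [mul_neg_geom_sum]
        have : 0 ≤ (aa G N ^ 2) ^ L := by positivity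
        linarith
      have h2 := one_sub_sq hG N
      have h3 : 0 ≤ ∑ i ∈ range L, (aa G N ^ 2) ^ i := Finset.sum_nonneg fun i _ => by positivity
      have h4 : 1 / (G N : ℝ) * ∑ i ∈ range L, (aa G N ^ 2) ^ i ≤ 1 := (mul_le_mul_of_nonneg_right h2 h3).trans h1
      rw [one_div_mul_eq_div, div_le_one (by linarith)] at h4
      exact h4
    calc gam G N ^ 2 * ∑ i ∈ range L, (aa G N ^ 2) ^ i ≤ (3 / 2) ^ 2 * (G N : ℝ) := by
          apply mul_le_mul (pow_le_pow_left₀ (by linarith) g3 2) hgeo (Finset.sum_nonneg fun i _ => by positivity) (by norm_num)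
      _ = 9 / 4 * (G N : ℝ) := by norm_num
  have s3 : ∑ j ∈ Ico (N + L) K, ‖D j‖ ^ 2 ≤ 1 := by
    have h1 := energy hG hm (blk G N) (N + L) (st_next G N hN) K hKN
    have h2 := blk_end hG N hN
    have h3 : ∑ j ∈ Ico (N + L) K, ‖(blk G N) j‖ ^ 2 = 0 := by
      apply Finset.sum_eq_zero
      intro j hj
      have := (Finset.mem_Ico.mp hj).1
      rw [blk_apply, if_neg (by omega)]; simp
    have h4 : ∑ j ∈ Ico (N + L) K, ‖2 * filt G (blk G N) j - (blk G N) j‖ ^ 2 = 4 * ∑ j ∈ Ico (N + L) K, ‖D j‖ ^ 2 := by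
      rw [Finset.mul_sum]
      apply Finset.sum_congr rfl
      intro j hj
      have := (Finset.mem_Ico.mp hj).1
      rw [hDe, blk_apply, if_neg (by omega), mul_zero, sub_zero, sub_zero, norm_mul, mul_pow]
      congr 1
      norm_num
    rw [h3, h4, mul_zero, add_zero] at h1
    have h5 : 0 ≤ kap G (st G K) * ‖filt G (blk G N) K‖ ^ 2 := mul_nonneg (kap_pos hG _).le (by positivity)
    linarith
  rw [s1]
  linarith

include hG hm in
lemma near_one (N : ℕ) (hN : st G N = N) :
    ‖blk G N - TT G hG hm (blk G N)‖ ≤ (Real.sqrt (3 / (2 * G N)) + 1 / G N) * ‖blk G N‖ := by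
  have hg := Gr hG N
  obtain ⟨g1, g2, g3⟩ := gam_bounds hG N
  have h1 := near_eig hG hm N hN
  have h2 := blk_norm (G := G) N
  have h3 : (2 * (G N : ℝ) ^ 2) ≤ ‖blk G N‖ ^ 2 := by
    refine le_trans ?_ h2
    have : 2 * (G N) ^ 2 ≤ len G N := by unfold len; omega
    exact_mod_cast this
  have h4 : Real.sqrt (3 * G N) ≤ Real.sqrt (3 / (2 * G N)) * ‖blk G N‖ := by
    rw [show Real.sqrt (3 / (2 * G N)) * ‖blk G N‖ = Real.sqrt (3 / (2 * G N) * ‖blk G N‖ ^ 2) by
      rw [Real.sqrt_mul (by positivity), Real.sqrt_sq (norm_nonneg _)]]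
    apply Real.sqrt_le_sqrt
    calc 3 * (G N : ℝ) = 3 / (2 * G N) * (2 * (G N : ℝ) ^ 2) := by field_simp
      _ ≤ 3 / (2 * G N) * ‖blk G N‖ ^ 2 := mul_le_mul_of_nonneg_left h3 (by positivity)
  have h5 : blk G N - TT G hG hm (blk G N) = -(TT G hG hm (blk G N) - (gam G N : ℂ) • blk G N) + ((1 - gam G N : ℝ) : ℂ) • blk G N := by
    push_cast
    rw [sub_smul, one_smul]; abel
  rw [h5, add_mul]
  refine (norm_add_le _ _).trans (add_le_add ?_ ?_)
  · rw [norm_neg]; exact h1.trans h4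
  · rw [norm_smul, Complex.norm_real, Real.norm_eq_abs]
    apply mul_le_mul_of_nonneg_right _ (norm_nonneg _)
    rw [abs_of_nonpos (by linarith)]; linarith

lemma one_mem_spec (hid : ∀ n, n ≤ G n) : (1 : ℂ) ∈ spectrum ℂ (TT G hG hm) := by
  rw [spectrum.mem_iff, map_one]
  rintro ⟨u, hu⟩
  set S : HH →L[ℂ] HH := (↑u⁻¹ : HH →L[ℂ] HH) with hS
  have hSm : S * (1 - TT G hG hm) = 1 := by rw [← hu]; exact u.inv_mul
  have h1 : ∀ x : HH, ‖x‖ ≤ ‖S‖ * ‖x - TT G hG hm x‖ := by
    intro x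
    have : x = S (x - TT G hG hm x) := by
      calc x = (S * (1 - TT G hG hm)) x := by rw [hSm]; rfl
        _ = _ := rfl
    calc ‖x‖ = ‖S (x - TT G hG hm x)‖ := by rw [← this]
      _ ≤ _ := S.le_opNorm _
  -- along the blocks
  have h2 : ∀ l : ℕ, 1 ≤ l → 1 ≤ ‖S‖ * (Real.sqrt (3 / (2 * l)) + 1 / l) := by
    intro l hl
    set N := bd G l with hN
    have hb : (l : ℝ) ≤ G N := by exact_mod_cast (le_bd G l).trans (hid _)
    have hl' : (1 : ℝ) ≤ l := by exact_mod_cast hl
    have h3 := h1 (blk G N)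
    have h4 := near_one hG hm N (st_bd G l)
    have h5 := blk_norm (G := G) N
    have h6 : 0 < ‖blk G N‖ := by
      have : (0 : ℝ) < len G N := by
        have : 0 < len G N := by unfold len; omega
        exact_mod_cast this
      have h7 : 0 < ‖blk G N‖ ^ 2 := by linarith
      exact (sq_pos_iff.mp h7).lt_of_le' (norm_nonneg _) 
    have h8 : ‖blk G N‖ ≤ (‖S‖ * (Real.sqrt (3 / (2 * l)) + 1 / l)) * ‖blk G N‖ := by
      refine h3.trans ?_
      rw [mul_assoc]
      apply mul_le_mul_of_nonneg_left _ (norm_nonneg _)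
      refine h4.trans ?_
      apply mul_le_mul_of_nonneg_right _ (norm_nonneg _)
      apply add_le_add
      · apply Real.sqrt_le_sqrt
        apply div_le_div_of_nonneg_left (by norm_num) (by positivity) (by linarith)
      · exact one_div_le_one_div_of_le (by linarith) hb
    by_contra hcon
    push Not at hcon
    nlinarith
  have hlim : Filter.Tendsto (fun l : ℕ => ‖S‖ * (Real.sqrt (3 / (2 * (l : ℝ))) + 1 / (l : ℝ))) Filter.atTop (nhds (‖S‖ * (Real.sqrt 0 + 0))) := by
    apply Filter.Tendsto.const_mul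
    apply Filter.Tendsto.add
    · apply (Real.continuous_sqrt.tendsto 0).comp
      have h9 : Filter.Tendsto (fun l : ℕ => (3 / 2 : ℝ) * (1 / (l : ℝ))) Filter.atTop (nhds ((3 / 2) * 0)) :=
        tendsto_one_div_atTop_nhds_zero_nat.const_mul _
      rw [mul_zero] at h9
      refine h9.congr fun l => ?_
      rcases eq_or_ne (l : ℝ) 0 with h | h
      · rw [h]; simp
      · field_simp
    · exact tendsto_one_div_atTop_nhds_zero_nat
  rw [Real.sqrt_zero, add_zero, mul_zero] at hlim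
  have h10 : (1 : ℝ) ≤ 0 := by
    apply ge_of_tendsto hlim
    filter_upwards [Filter.eventually_ge_atTop 1] with l hl
    exact h2 l hl
  linarith

end

end Pool.Agent.Helper328.Uni
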